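import Mathlib

/-!
# Metric nets: the interface between the metric part and the classification
-/

set_option autoImplicit false

open Finset
open scoped InnerProductSpace

namespace Pool.Agent.H284_net4

variable {ι : Type*} [Fintype ι] {E : Type*} [NormedAddCommGroup E] [InnerProductSpace ℂ E]

/-- The metric data of a net in `ℂ ^ 4` in isotropic position. -/
structure MetNet (u : ι → E) (c : ι → Fin 3) (d : ℕ) : Prop where
  four : 4 ≤ d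
  card : ∀ v, (univ.filter (fun i => c i = v)).card = d
  unit : ∀ i, ‖u i‖ = 1
  indep : ∀ i j, i ≠ j → LinearIndependent ℂ ![u i, u j]
  cross : ∀ i j, c i ≠ c j → ‖⟪u i, u j⟫_ℂ‖ ^ 2 = 1 / 4
  net : ∀ i j, c i ≠ c j → ∀ v, ∃ l, c l = v ∧ u l ∈ Submodule.span ℂ ({u i, u j} : Set E)
  tight : ∀ v x, ∑ i ∈ univ.filter (fun i => c i = v), ⟪u i, x⟫_ℂ • u i = ((d : ℂ) / 4) • x

/-- Every line of the net is spanned by a vector `e a - ζ • e b` with `|ζ| = 1`, for an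
orthonormal basis `e`; the class `v` has the types `01` and `23`, the two others have the types
`02`, `03`, `12` and `13`. -/
structure Typed (u : ι → E) (c : ι → Fin 3) (v : Fin 3) (e : Fin 4 → E) : Prop where
  orth : Orthonormal ℂ e
  line_v : ∀ l, c l = v → (∃ ζ t : ℂ, ‖ζ‖ = 1 ∧ t ≠ 0 ∧ u l = t • (e 0 - ζ • e 1)) ∨
    (∃ ζ t : ℂ, ‖ζ‖ = 1 ∧ t ≠ 0 ∧ u l = t • (e 2 - ζ • e 3))
  line_w : ∀ l, c l ≠ v → ∃ a b : Fin 4, (a = 0 ∨ a = 1) ∧ (b = 2 ∨ b = 3) ∧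
    ∃ ζ t : ℂ, ‖ζ‖ = 1 ∧ t ≠ 0 ∧ u l = t • (e a - ζ • e b)
  ex01 : ∃ l, c l = v ∧ ∃ ζ t : ℂ, ‖ζ‖ = 1 ∧ t ≠ 0 ∧ u l = t • (e 0 - ζ • e 1)
  ex23 : ∃ l, c l = v ∧ ∃ ζ t : ℂ, ‖ζ‖ = 1 ∧ t ≠ 0 ∧ u l = t • (e 2 - ζ • e 3)

/-- The types of the lines in the block `k` of `Q_n`. -/
def pairs : Fin 3 → Finset (Fin 4 × Fin 4)
  | 0 => {(0, 1), (2, 3)}
  | 1 => {(0, 2), (1, 3)}
  | 2 => {(0, 3), (1, 2)}

end Pool.Agent.H284_net4
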