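import Mathlib

/-!
# Metric nets: reflections
-/

set_option autoImplicit false

open Finset
open scoped InnerProductSpace

namespace Pool.Agent.H284_net4

variable {E : Type*} [NormedAddCommGroup E] [InnerProductSpace ℂ E]

/-- The reflection with root `x`, applied to `y`. -/
noncomputable def refl (x y : E) : E := y - (2 * ⟪x, y⟫_ℂ) • x

lemma inner_self_one {x : E} (hx : ‖x‖ = 1) : ⟪x, x⟫_ℂ = 1 := by
  rw [inner_self_eq_norm_sq_to_K, hx]
  simp

lemma refl_smul (x y : E) (a : ℂ) : refl x (a • y) = a • refl x y := by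
  unfold refl
  rw [inner_smul_right, smul_sub, smul_smul]
  congr 2
  ring

lemma refl_smul_left {a : ℂ} (ha : ‖a‖ = 1) (x y : E) : refl (a • x) y = refl x y := by
  unfold refl
  rw [inner_smul_left, smul_smul]
  congr 2
  have h1 : (starRingEnd ℂ) a * a = 1 := by
    rw [Complex.conj_mul', ha]
    simp
  calc 2 * ((starRingEnd ℂ) a * ⟪x, y⟫_ℂ) * a = 2 * ⟪x, y⟫_ℂ * ((starRingEnd ℂ) a * a) := by ring
    _ = 2 * ⟪x, y⟫_ℂ := by rw [h1, mul_one]

lemma inner_refl {x : E} (hx : ‖x‖ = 1) (y : E) : ⟪x, refl x y⟫_ℂ = -⟪x, y⟫_ℂ := by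
  unfold refl
  rw [inner_sub_right, inner_smul_right, inner_self_one hx]
  ring

lemma refl_refl {x : E} (hx : ‖x‖ = 1) (y : E) : refl x (refl x y) = y := by
  have h := inner_refl hx y
  rw [refl, h, refl]
  module

lemma inner_refl_refl {x : E} (hx : ‖x‖ = 1) (y z : E) :
    ⟪refl x y, refl x z⟫_ℂ = ⟪y, z⟫_ℂ := by
  unfold refl
  rw [inner_sub_left, inner_sub_right, inner_sub_right, inner_smul_left, inner_smul_right,
    inner_smul_left, inner_smul_right, inner_self_one hx]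
  have h1 : (starRingEnd ℂ) ⟪x, y⟫_ℂ = ⟪y, x⟫_ℂ := inner_conj_symm _ _
  rw [map_mul, h1]
  simp only [map_ofNat]
  ring

/-- Conjugation of a reflection by a reflection. -/
lemma refl_conj {x : E} (hx : ‖x‖ = 1) (y z : E) :
    refl x (refl y z) = refl (refl x y) (refl x z) := by
  have h1 : refl (refl x y) (refl x z) = refl x z - (2 * ⟪y, z⟫_ℂ) • refl x y := by
    rw [refl, inner_refl_refl hx]
  rw [h1]
  conv_lhs => rw [refl, refl]
  rw [inner_sub_right, inner_smul_right]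
  unfold refl
  module

lemma norm_refl {x : E} (hx : ‖x‖ = 1) (y : E) : ‖refl x y‖ = ‖y‖ := by
  have h1 := inner_refl_refl hx y y
  rw [inner_self_eq_norm_sq_to_K, inner_self_eq_norm_sq_to_K] at h1
  have h2 : ‖refl x y‖ ^ 2 = ‖y‖ ^ 2 := by exact_mod_cast h1
  exact (sq_eq_sq₀ (norm_nonneg _) (norm_nonneg _)).mp h2

lemma norm_sq_eq (z : ℂ) : ‖z‖ ^ 2 = z.re ^ 2 + z.im ^ 2 := by
  rw [← Complex.normSq_eq_norm_sq, Complex.normSq_apply]
  ring

/-- The third vector of a base flat. -/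
lemma third_eq {x y w : E} (hx : ‖x‖ = 1) (hy : ‖y‖ = 1) (hw : ‖w‖ = 1)
    (hxy : ‖⟪x, y⟫_ℂ‖ ^ 2 = 1 / 4) (hxw : ‖⟪x, w⟫_ℂ‖ ^ 2 = 1 / 4)
    (hyw : ‖⟪y, w⟫_ℂ‖ ^ 2 = 1 / 4) (hmem : w ∈ Submodule.span ℂ ({x, y} : Set E)) :
    ∃ b : ℂ, ‖b‖ = 1 ∧ w = b • refl x y := by
  rw [Submodule.mem_span_pair] at hmem
  obtain ⟨a, b, hab⟩ := hmem
  set z := ⟪x, y⟫_ℂ with hz
  have hyx : ⟪y, x⟫_ℂ = (starRingEnd ℂ) z := by rw [hz, inner_conj_symm]
  have e1 : ⟪x, w⟫_ℂ = a + b * z := by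
    rw [← hab, inner_add_right, inner_smul_right, inner_smul_right, inner_self_one hx, mul_one]
  have e2 : ⟪y, w⟫_ℂ = a * (starRingEnd ℂ) z + b := by
    rw [← hab, inner_add_right, inner_smul_right, inner_smul_right, inner_self_one hy, hyx,
      mul_one]
  have e3 : ⟪w, w⟫_ℂ = (starRingEnd ℂ) a * (a + b * z) +
      (starRingEnd ℂ) b * (a * (starRingEnd ℂ) z + b) := by
    rw [← e1, ← e2]
    conv_lhs => rw [← hab]
    rw [inner_add_left, inner_smul_left, inner_smul_left, hab]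
  rw [inner_self_one hw] at e3
  rw [e1] at hxw
  rw [e2] at hyw
  rw [norm_sq_eq] at hxy hxw hyw
  have e4 := (congrArg Complex.re e3).symm
  simp only [Complex.add_re, Complex.add_im, Complex.mul_re, Complex.mul_im, Complex.conj_re,
    Complex.conj_im, Complex.one_re] at hxw hyw e4
  obtain ⟨A, hA⟩ : ∃ A, A = a.re := ⟨_, rfl⟩
  obtain ⟨B, hB⟩ : ∃ B, B = a.im := ⟨_, rfl⟩
  obtain ⟨C, hC⟩ : ∃ C, C = b.re := ⟨_, rfl⟩
  obtain ⟨D, hD⟩ : ∃ D, D = b.im := ⟨_, rfl⟩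
  obtain ⟨X, hX⟩ : ∃ X, X = z.re := ⟨_, rfl⟩
  obtain ⟨Y, hY⟩ : ∃ Y, Y = z.im := ⟨_, rfl⟩
  rw [← hX, ← hY] at hxy
  rw [← hA, ← hB, ← hC, ← hD, ← hX, ← hY] at hxw hyw e4
  have f1 : C ^ 2 + D ^ 2 = 1 := by
    linear_combination (4 / 3) * (e4 - hxw) + (4 / 3) * (C ^ 2 + D ^ 2) * hxy
  have f2 : A ^ 2 + B ^ 2 = 1 := by
    linear_combination (4 / 3) * (e4 - hyw) + (4 / 3) * (A ^ 2 + B ^ 2) * hxy
  have f3 : (A + 2 * (C * X - D * Y)) ^ 2 + (B + 2 * (C * Y + D * X)) ^ 2 = 0 := by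
    linear_combination 2 * e4 + 4 * (C ^ 2 + D ^ 2) * hxy - f2 - f1
  have g1 := sq_nonneg (A + 2 * (C * X - D * Y))
  have g2 := sq_nonneg (B + 2 * (C * Y + D * X))
  have f4 : A + 2 * (C * X - D * Y) = 0 := by
    have : (A + 2 * (C * X - D * Y)) ^ 2 = 0 := by linarith
    exact pow_eq_zero_iff (two_ne_zero) |>.mp this
  have f5 : B + 2 * (C * Y + D * X) = 0 := by
    have : (B + 2 * (C * Y + D * X)) ^ 2 = 0 := by linarith
    exact pow_eq_zero_iff (two_ne_zero) |>.mp this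
  refine ⟨b, ?_, ?_⟩
  · have h1 : ‖b‖ ^ 2 = 1 := by
      rw [norm_sq_eq, ← hC, ← hD, f1]
    nlinarith [norm_nonneg b]
  · have h1 : a = -(b * (2 * z)) := by
      apply Complex.ext
      · simp only [Complex.neg_re, Complex.mul_re, Complex.mul_im, Complex.re_ofNat,
          Complex.im_ofNat, ← hA, ← hC, ← hD, ← hX, ← hY]
        linarith
      · simp only [Complex.neg_im, Complex.mul_re, Complex.mul_im, Complex.re_ofNat,
          Complex.im_ofNat, ← hB, ← hC, ← hD, ← hX, ← hY]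
        linarith
    rw [← hab, h1, refl, ← hz]
    module

end Pool.Agent.H284_net4
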