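import Mathlib
import Pool.Agent.H284_net4.Met
import Pool.Agent.H284_net4.Refl

/-!
# Metric nets are closed under their reflections
-/

set_option autoImplicit false

open Finset
open scoped InnerProductSpace

namespace Pool.Agent.H284_net4

variable {ι : Type*} [Fintype ι] {E : Type*} [NormedAddCommGroup E] [InnerProductSpace ℂ E]
variable {u : ι → E} {c : ι → Fin 3} {d : ℕ}

/-- The third of three classes. -/
lemma exists_third (a b : Fin 3) : ∃ v : Fin 3, v ≠ a ∧ v ≠ b := by
  fin_cases a <;> fin_cases b <;> decide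

lemma third_unique {a b v w : Fin 3} (hab : a ≠ b) (hva : v ≠ a) (hvb : v ≠ b) (hwa : w ≠ a)
    (hwb : w ≠ b) : v = w := by
  omega

/-- The line of `refl (u i) (u j)` for `i` and `j` in different classes. -/
lemma MetNet.refl_cross (h : MetNet u c d) {i j : ι} (hij : c i ≠ c j) :
    ∃ l, c l ≠ c i ∧ c l ≠ c j ∧ ∃ b : ℂ, ‖b‖ = 1 ∧ refl (u i) (u j) = b • u l := by
  obtain ⟨v, hvi, hvj⟩ := exists_third (c i) (c j)
  obtain ⟨l, hl, hmem⟩ := h.net i j hij v
  have hli : c i ≠ c l := by rw [hl]; exact hvi.symm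
  have hlj : c j ≠ c l := by rw [hl]; exact hvj.symm
  obtain ⟨b, hb, hw⟩ := third_eq (h.unit i) (h.unit j) (h.unit l) (h.cross i j hij)
    (h.cross i l hli) (h.cross j l hlj) hmem
  have hb0 : b ≠ 0 := by
    intro h0
    rw [h0] at hb
    simp at hb
  refine ⟨l, hli.symm, hlj.symm, b⁻¹, ?_, ?_⟩
  · rw [norm_inv, hb, inv_one]
  · rw [hw, smul_smul, inv_mul_cancel₀ hb0, one_smul]

lemma MetNet.exists_class (h : MetNet u c d) (v : Fin 3) : ∃ i, c i = v := by
  have h1 : 0 < (univ.filter (fun i => c i = v)).card := by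
    rw [h.card v]
    have := h.four
    omega
  obtain ⟨i, hi⟩ := card_pos.mp h1
  exact ⟨i, (mem_filter.mp hi).2⟩

/-- The line of `refl (u i) (u i')` for `i` and `i'` in the same class. -/
lemma MetNet.refl_same (h : MetNet u c d) {i i' : ι} (hii : c i = c i') :
    ∃ l, c l = c i ∧ ∃ b : ℂ, ‖b‖ = 1 ∧ refl (u i) (u i') = b • u l := by
  obtain ⟨v, hv, _⟩ := exists_third (c i) (c i)
  obtain ⟨j, hj⟩ := h.exists_class v
  have hji : c j ≠ c i' := by rw [hj, ← hii]; exact hv
  obtain ⟨l1, h1j, h1i, b1, hb1, e1⟩ := h.refl_cross hji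
  have hij : c i ≠ c j := by rw [hj]; exact hv.symm
  obtain ⟨j', hj'i, hj'j, b2, hb2, e2⟩ := h.refl_cross hij
  have hil : c i ≠ c l1 := by rw [hii]; exact h1i.symm
  obtain ⟨l', hl'i, hl'l, b3, hb3, e3⟩ := h.refl_cross hil
  have hl'j : c l' = c j := third_unique hil hl'i hl'l hij.symm h1j.symm
  have hj'l : c j' = c l1 := third_unique hij hj'i hj'j hil.symm h1j
  have hj'l' : c j' ≠ c l' := by rw [hl'j]; exact hj'j
  obtain ⟨l, hlj', hll', b4, hb4, e4⟩ := h.refl_cross hj'l'
  have hli : c l = c i := by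
    apply third_unique hj'l' hlj' hll'
    · exact hj'i.symm
    · rw [hl'j]; exact hij
  refine ⟨l, hli, b1 * b3 * b4, ?_, ?_⟩
  · rw [norm_mul, norm_mul, hb1, hb3, hb4]
    norm_num
  · -- `u i' = refl (u j) (b1 • u l1)`
    have f1 : u i' = b1 • refl (u j) (u l1) := by
      rw [← refl_smul, ← e1, refl_refl (h.unit j)]
    rw [f1, refl_smul, refl_conj (h.unit i), e2, e3, refl_smul_left hb2, refl_smul, e4,
      smul_smul, smul_smul]

/-- The reflection condition for two lines of one class. -/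
lemma MetNet.refl_cond (h : MetNet u c d) {i i' j : ι} (hii : c i = c i') (hij : c i ≠ c j) :
    ‖⟪refl (u i) (u i'), u j⟫_ℂ‖ ^ 2 = 1 / 4 := by
  obtain ⟨l, hl, b, hb, e⟩ := h.refl_same hii
  rw [e, inner_smul_left, norm_mul, Complex.norm_conj, hb, one_mul]
  exact h.cross l j (by rw [hl]; exact hij)

end Pool.Agent.H284_net4
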