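import Mathlib
import Pool.Agent.H284_net4.Refl

/-!
# Non-orthogonal lines of one class are coplanar: the core computation
-/

set_option autoImplicit false

open Finset
open scoped InnerProductSpace

namespace Pool.Agent.H284_net4

variable {E : Type*} [NormedAddCommGroup E] [InnerProductSpace ℂ E]

lemma conj_ofReal_eq {z : ℂ} {r : ℝ} (h : z = r) : (starRingEnd ℂ) z = r := by
  rw [h, Complex.conj_ofReal]

theorem plane_core {κ : Type*} [Fintype κ] [Nonempty κ] {e x x' : E} {y : κ → E}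
    (he : ‖e‖ = 1) (hx : ‖x‖ = 1) (hx' : ‖x'‖ = 1) {z z' : ℝ} (hz : ⟪e, x⟫_ℂ = z)
    (hz' : ⟪e, x'⟫_ℂ = z') (hy : ∀ j, ⟪e, y j⟫_ℂ = ((1 / 2 : ℝ) : ℂ))
    (hxy : ∀ j, ‖⟪x, y j⟫_ℂ‖ ^ 2 = 1 / 4) (hxy' : ∀ j, ‖⟪x', y j⟫_ℂ‖ ^ 2 = 1 / 4)
    (hre : ∀ j, (⟪x, y j⟫_ℂ).re = z / 2) (hre' : ∀ j, (⟪x', y j⟫_ℂ).re = z' / 2)
    {D : ℝ} (hD : D ≠ 0) (tight : ∀ v w : E, ∑ j, ⟪v, y j⟫_ℂ * ⟪y j, w⟫_ℂ = (D : ℂ) * ⟪v, w⟫_ℂ)
    (hρ : ∀ j, ‖⟪refl x x', y j⟫_ℂ‖ ^ 2 = 1 / 4) (hne : ⟪x, x'⟫_ℂ ≠ 0) (hz1 : z ^ 2 < 1) :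
    x' ∈ Submodule.span ℂ ({e, x} : Set E) := by
  have hye : ∀ j, ⟪y j, e⟫_ℂ = ((1 / 2 : ℝ) : ℂ) := fun j => by
    rw [← inner_conj_symm]
    exact conj_ofReal_eq (hy j)
  have hxe : ⟪x, e⟫_ℂ = z := by
    rw [← inner_conj_symm]
    exact conj_ofReal_eq hz
  have hx'e : ⟪x', e⟫_ℂ = z' := by
    rw [← inner_conj_symm]
    exact conj_ofReal_eq hz'
  -- the imaginary parts sum up to zero
  have him : ∑ j, (⟪x, y j⟫_ℂ).im = 0 := by
    have h1 := congrArg Complex.im (tight x e)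
    rw [Complex.im_sum, hxe] at h1
    have h2 : ∀ j, (⟪x, y j⟫_ℂ * ⟪y j, e⟫_ℂ).im = (⟪x, y j⟫_ℂ).im * (1 / 2) := by
      intro j
      rw [hye j, Complex.im_mul_ofReal]
    rw [sum_congr rfl (fun j _ => h2 j), ← sum_mul, ← Complex.ofReal_mul, Complex.ofReal_im] at h1
    linarith
  have him' : ∑ j, (⟪x', y j⟫_ℂ).im = 0 := by
    have h1 := congrArg Complex.im (tight x' e)
    rw [Complex.im_sum, hx'e] at h1
    have h2 : ∀ j, (⟪x', y j⟫_ℂ * ⟪y j, e⟫_ℂ).im = (⟪x', y j⟫_ℂ).im * (1 / 2) := by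
      intro j
      rw [hye j, Complex.im_mul_ofReal]
    rw [sum_congr rfl (fun j _ => h2 j), ← sum_mul, ← Complex.ofReal_mul, Complex.ofReal_im] at h1
    linarith
  -- the product of `x` and `x'` is real
  obtain ⟨ρ, hρdef⟩ : ∃ ρ : ℂ, ρ = ⟪x, x'⟫_ℂ := ⟨_, rfl⟩
  have hρim : ρ.im = 0 := by
    have h1 := congrArg Complex.im (tight x x')
    rw [Complex.im_sum, ← hρdef, Complex.im_ofReal_mul] at h1
    have h2 : ∀ j, (⟪x, y j⟫_ℂ * ⟪y j, x'⟫_ℂ).im =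
        z' / 2 * (⟪x, y j⟫_ℂ).im - z / 2 * (⟪x', y j⟫_ℂ).im := by
      intro j
      rw [← inner_conj_symm (y j) x', Complex.mul_im, Complex.conj_re, Complex.conj_im, hre j,
        hre' j]
      ring
    rw [sum_congr rfl (fun j _ => h2 j), sum_sub_distrib, ← mul_sum, ← mul_sum, him, him'] at h1
    have h3 : D * ρ.im = 0 := by linarith
    exact (mul_eq_zero.mp h3).resolve_left hD
  obtain ⟨r, hr⟩ : ∃ r : ℝ, ρ = r := ⟨ρ.re, Complex.ext (by simp) (by simp [hρim])⟩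
  have hxx' : ⟪x, x'⟫_ℂ = r := by rw [← hρdef, hr]
  have hx'x : ⟪x', x⟫_ℂ = r := by
    rw [← inner_conj_symm]
    exact conj_ofReal_eq hxx'
  have hr0 : r ≠ 0 := by
    intro h0
    rw [hxx', h0] at hne
    exact hne (by simp)
  obtain ⟨j⟩ := (inferInstance : Nonempty κ)
  -- the relation for one `j`
  obtain ⟨q, hq⟩ : ∃ q : ℂ, q = ⟪x, y j⟫_ℂ := ⟨_, rfl⟩
  obtain ⟨q', hq'⟩ : ∃ q' : ℂ, q' = ⟪x', y j⟫_ℂ := ⟨_, rfl⟩
  have h1 := hρ j
  have h2 : ⟪refl x x', y j⟫_ℂ = q' - ((2 * r : ℝ) : ℂ) * q := by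
    have h3 : (starRingEnd ℂ) (2 * (r : ℂ)) = ((2 * r : ℝ) : ℂ) := by
      rw [map_mul, Complex.conj_ofReal, map_ofNat]
      push_cast
      ring
    rw [refl, inner_sub_left, inner_smul_left, hxx', hq, hq', h3]
  rw [h2, norm_sq_eq] at h1
  have h3 := hxy j
  have h4 := hxy' j
  have h5 := hre j
  have h6 := hre' j
  rw [← hq, norm_sq_eq] at h3
  rw [← hq', norm_sq_eq] at h4
  rw [← hq] at h5
  rw [← hq'] at h6
  simp only [Complex.sub_re, Complex.sub_im, Complex.re_ofReal_mul, Complex.im_ofReal_mul] at h1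
  rw [h5, h6] at h1
  rw [h5] at h3
  rw [h6] at h4
  set p := q.im
  set p' := q'.im
  have h7 : r * (r - z * z' - 4 * (p * p')) = 0 := by
    linear_combination h1 - h4 - 4 * r ^ 2 * h3
  have h8 : r - z * z' = 4 * (p * p') := by
    have := (mul_eq_zero.mp h7).resolve_left hr0
    linarith
  have h9 : (r - z * z') ^ 2 = (1 - z ^ 2) * (1 - z' ^ 2) := by
    rw [h8]
    have h10 : p ^ 2 = (1 - z ^ 2) / 4 := by linarith
    have h11 : p' ^ 2 = (1 - z' ^ 2) / 4 := by linarith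
    calc (4 * (p * p')) ^ 2 = 16 * (p ^ 2 * p' ^ 2) := by ring
      _ = _ := by rw [h10, h11]; ring
  have h12 : (1 - z ^ 2) ≠ 0 := by linarith
  obtain ⟨β, hβ⟩ : ∃ β : ℝ, β * (1 - z ^ 2) = r - z * z' :=
    ⟨(r - z * z') / (1 - z ^ 2), by field_simp⟩
  obtain ⟨α, hα⟩ : ∃ α : ℝ, α = z' - β * z := ⟨_, rfl⟩
  have hw : x' - ((α : ℂ) • e + (β : ℂ) • x) = 0 := by
    obtain ⟨w, hwdef⟩ : ∃ w : E, w = x' - ((α : ℂ) • e + (β : ℂ) • x) := ⟨_, rfl⟩
    have g1 : ⟪e, w⟫_ℂ = 0 := by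
      rw [hwdef, inner_sub_right, inner_add_right, inner_smul_right, inner_smul_right,
        inner_self_one he, hz, hz', hα]
      push_cast
      ring
    have g2 : ⟪x, w⟫_ℂ = 0 := by
      rw [hwdef, inner_sub_right, inner_add_right, inner_smul_right, inner_smul_right,
        inner_self_one hx, hxe, hxx']
      have : ((r - (α * z + β) : ℝ) : ℂ) = 0 := by
        have : r - (α * z + β) = 0 := by rw [hα]; linarith
        rw [this]
        simp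
      push_cast at this
      linear_combination this
    have g3 : ⟪x', w⟫_ℂ = 0 := by
      rw [hwdef, inner_sub_right, inner_add_right, inner_smul_right, inner_smul_right,
        inner_self_one hx', hx'e, hx'x]
      have : ((1 - (α * z' + β * r) : ℝ) : ℂ) = 0 := by
        have h13 : (1 - (α * z' + β * r)) * (1 - z ^ 2) = 0 := by
          rw [hα]
          linear_combination (-(r - z * z')) * hβ - h9
        have h14 := (mul_eq_zero.mp h13).resolve_right h12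
        rw [h14]
        simp
      push_cast at this
      linear_combination this
    have g4 : ⟪w, w⟫_ℂ = 0 := by
      have g5 : ⟪x' - ((α : ℂ) • e + (β : ℂ) • x), w⟫_ℂ = 0 := by
        rw [inner_sub_left, inner_add_left, inner_smul_left, inner_smul_left, g1, g2, g3]
        simp
      calc ⟪w, w⟫_ℂ = ⟪x' - ((α : ℂ) • e + (β : ℂ) • x), w⟫_ℂ := by rw [← hwdef]
        _ = 0 := g5
    rw [← hwdef]
    exact inner_self_eq_zero.mp g4
  rw [Submodule.mem_span_pair]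
  exact ⟨α, β, (sub_eq_zero.mp hw).symm⟩

end Pool.Agent.H284_net4
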