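import Mathlib
import Pool.Agent.H284_net4.Closure
import Pool.Agent.H284_net4.Coplanar

/-!
# Clusters: the lines of a class not orthogonal to a given one lie in a plane
-/

set_option autoImplicit false

open Finset
open scoped InnerProductSpace

namespace Pool.Agent.H284_net4

variable {ι : Type*} [Fintype ι] {E : Type*} [NormedAddCommGroup E] [InnerProductSpace ℂ E]
variable {u : ι → E} {c : ι → Fin 3} {d : ℕ}

omit [Fintype ι] in
lemma exists_phase (x y : E) :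
    ∃ ω : ℂ, ‖ω‖ = 1 ∧ ⟪x, ω • y⟫_ℂ = ((‖⟪x, y⟫_ℂ‖ : ℝ) : ℂ) := by
  by_cases h : ⟪x, y⟫_ℂ = 0
  · refine ⟨1, by simp, ?_⟩
    rw [one_smul, h]
    simp
  · refine ⟨((‖⟪x, y⟫_ℂ‖ : ℝ) : ℂ) / ⟪x, y⟫_ℂ, ?_, ?_⟩
    · rw [norm_div, Complex.norm_real, norm_norm]
      exact div_self (norm_ne_zero_iff.mpr h)
    · rw [inner_smul_right]
      exact div_mul_cancel₀ _ h

omit [Fintype ι] in
lemma sq_half {r : ℝ} (h0 : 0 ≤ r) (h : r ^ 2 = 1 / 4) : r = 1 / 2 := by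
  nlinarith

lemma MetNet.tight_inner (h : MetNet u c d) (v : Fin 3) (x y : E) :
    ∑ i ∈ univ.filter (fun i => c i = v), ⟪x, u i⟫_ℂ * ⟪u i, y⟫_ℂ =
      (((d : ℝ) / 4 : ℝ) : ℂ) * ⟪x, y⟫_ℂ := by
  have h1 := congrArg (fun w => ⟪x, w⟫_ℂ) (h.tight v y)
  simp only [inner_sum, inner_smul_right] at h1
  rw [sum_congr rfl (fun i _ => mul_comm _ _)] at h1
  rw [h1]
  push_cast
  ring

lemma MetNet.inner_norm_lt (h : MetNet u c d) {i i' : ι} (hne : i ≠ i') :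
    ‖⟪u i, u i'⟫_ℂ‖ ^ 2 < 1 := by
  have h1 : ‖⟪u i, u i'⟫_ℂ‖ ≤ 1 := by
    have := norm_inner_le_norm (𝕜 := ℂ) (u i) (u i')
    rwa [h.unit, h.unit, one_mul] at this
  have h2 : ‖⟪u i, u i'⟫_ℂ‖ ≠ 1 := by
    intro h3
    have h4 : u i ≠ 0 := by
      intro h5
      have := h.unit i
      rw [h5, norm_zero] at this
      exact zero_ne_one this
    have h5 : u i' ≠ 0 := by
      intro h5
      have := h.unit i'
      rw [h5, norm_zero] at this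
      exact zero_ne_one this
    have h6 : ‖⟪u i, u i'⟫_ℂ‖ = ‖u i‖ * ‖u i'‖ := by
      rw [h3, h.unit, h.unit, one_mul]
    obtain ⟨r, hr, hr2⟩ := (norm_inner_eq_norm_iff h4 h5).mp h6
    have h7 := h.indep i i' hne
    rw [LinearIndependent.pair_iff] at h7
    have h8 := h7 r (-1) (by rw [← hr2]; simp)
    have := h8.2
    norm_num at this
  have h3 : ‖⟪u i, u i'⟫_ℂ‖ < 1 := lt_of_le_of_ne h1 h2
  nlinarith [norm_nonneg (⟪u i, u i'⟫_ℂ)]

lemma re_half {e x y : E} {z : ℝ} (hz : ⟪e, x⟫_ℂ = z) (hz0 : z ≠ 0)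
    (hy : ⟪e, y⟫_ℂ = ((1 / 2 : ℝ) : ℂ)) (h1 : ‖⟪x, y⟫_ℂ‖ ^ 2 = 1 / 4)
    (h2 : ‖⟪refl e x, y⟫_ℂ‖ ^ 2 = 1 / 4) : (⟪x, y⟫_ℂ).re = z / 2 := by
  obtain ⟨q, hq⟩ : ∃ q : ℂ, q = ⟪x, y⟫_ℂ := ⟨_, rfl⟩
  have h3 : ⟪refl e x, y⟫_ℂ = q - (z : ℂ) := by
    have h4 : (starRingEnd ℂ) (2 * (z : ℂ)) = ((2 * z : ℝ) : ℂ) := by
      rw [map_mul, Complex.conj_ofReal, map_ofNat]
      push_cast
      ring
    rw [refl, inner_sub_left, inner_smul_left, hz, h4, hy, ← hq]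
    push_cast
    ring
  rw [h3, norm_sq_eq] at h2
  rw [← hq, norm_sq_eq] at h1
  rw [← hq]
  simp only [Complex.sub_re, Complex.sub_im, Complex.ofReal_re, Complex.ofReal_im, sub_zero] at h2
  have h5 : z * (z - 2 * q.re) = 0 := by linear_combination h2 - h1
  have h6 := (mul_eq_zero.mp h5).resolve_left hz0
  linarith

theorem MetNet.coplanar_aux (h : MetNet u c d) {i i' i'' : ι} (hc' : c i' = c i)
    (hc'' : c i'' = c i) (h1 : ⟪u i, u i'⟫_ℂ ≠ 0) (h2 : ⟪u i, u i''⟫_ℂ ≠ 0)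
    (h3 : ⟪u i', u i''⟫_ℂ ≠ 0) (hne : i ≠ i') :
    u i'' ∈ Submodule.span ℂ ({u i, u i'} : Set E) := by
  obtain ⟨w, hw, _⟩ := exists_third (c i) (c i)
  have hph : ∀ j : ι, ∃ ω : ℂ, ‖ω‖ = 1 ∧ ⟪u i, ω • u j⟫_ℂ = ((‖⟪u i, u j⟫_ℂ‖ : ℝ) : ℂ) :=
    fun j => exists_phase (u i) (u j)
  choose ω hω1 hω2 using hph
  have hω0 : ∀ j, ω j ≠ 0 := by
    intro j h0
    have := hω1 j
    rw [h0, norm_zero] at this
    exact zero_ne_one this
  have hcross : ∀ j : {j // c j = w}, ∀ l, c l = c i → ‖⟪u l, u (j : ι)⟫_ℂ‖ ^ 2 = 1 / 4 := by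
    intro j l hl
    exact h.cross l j (by rw [hl, j.2]; exact hw.symm)
  have hy : ∀ j : {j // c j = w}, ⟪u i, ω j • u (j : ι)⟫_ℂ = ((1 / 2 : ℝ) : ℂ) := by
    intro j
    rw [hω2, sq_half (norm_nonneg _) (hcross j i rfl)]
  have hcr : ∀ j : {j // c j = w}, ∀ l, c l = c i →
      ‖⟪ω l • u l, ω j • u (j : ι)⟫_ℂ‖ ^ 2 = 1 / 4 := by
    intro j l hl
    rw [inner_smul_left, inner_smul_right, norm_mul, norm_mul, Complex.norm_conj, hω1, hω1,
      one_mul, one_mul]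
    exact hcross j l hl
  have hrf : ∀ j : {j // c j = w}, ∀ l l', c l = c i → c l' = c i →
      ‖⟪refl (u l) (ω l' • u l'), ω j • u (j : ι)⟫_ℂ‖ ^ 2 = 1 / 4 := by
    intro j l l' hl hl'
    rw [refl_smul, inner_smul_left, inner_smul_right, norm_mul, norm_mul, Complex.norm_conj,
      hω1, hω1, one_mul, one_mul]
    exact h.refl_cond (by rw [hl, hl']) (by rw [hl, j.2]; exact hw.symm)
  have hκ : Nonempty {j // c j = w} := by
    obtain ⟨j, hj⟩ := h.exists_class w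
    exact ⟨⟨j, hj⟩⟩
  have hn1 : ‖⟪u i, u i'⟫_ℂ‖ ≠ 0 := norm_ne_zero_iff.mpr h1
  have hn2 : ‖⟪u i, u i''⟫_ℂ‖ ≠ 0 := norm_ne_zero_iff.mpr h2
  have hd : ((d : ℝ) / 4) ≠ 0 := by
    have := h.four
    have h4 : (0 : ℝ) < d := by
      exact_mod_cast (by omega : 0 < d)
    positivity
  have key := plane_core (κ := {j // c j = w}) (e := u i) (x := ω i' • u i') (x' := ω i'' • u i'')
    (y := fun j => ω j • u (j : ι)) (h.unit i)
    (by rw [norm_smul, hω1, h.unit, one_mul]) (by rw [norm_smul, hω1, h.unit, one_mul])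
    (hω2 i') (hω2 i'') hy (fun j => hcr j i' hc') (fun j => hcr j i'' hc'')
    (fun j => re_half (hω2 i') hn1 (hy j) (hcr j i' hc') (hrf j i i' rfl hc'))
    (fun j => re_half (hω2 i'') hn2 (hy j) (hcr j i'' hc'') (hrf j i i'' rfl hc''))
    (D := (d : ℝ) / 4) hd ?_ ?_ ?_ ?_
  · rw [Submodule.mem_span_pair] at key ⊢
    obtain ⟨a, b, hab⟩ := key
    refine ⟨(ω i'')⁻¹ * a, (ω i'')⁻¹ * b * ω i', ?_⟩
    have h5 : u i'' = (ω i'')⁻¹ • (ω i'' • u i'') := by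
      rw [smul_smul, inv_mul_cancel₀ (hω0 i''), one_smul]
    rw [h5, ← hab]
    module
  · intro v v'
    have h5 : ∀ j : {j // c j = w}, ⟪v, ω j • u (j : ι)⟫_ℂ * ⟪ω j • u (j : ι), v'⟫_ℂ =
        ⟪v, u (j : ι)⟫_ℂ * ⟪u (j : ι), v'⟫_ℂ := by
      intro j
      rw [inner_smul_left, inner_smul_right]
      have h6 : (starRingEnd ℂ) (ω j) * ω j = 1 := by
        rw [Complex.conj_mul', hω1]
        simp
      calc ω j * ⟪v, u (j : ι)⟫_ℂ * ((starRingEnd ℂ) (ω j) * ⟪u (j : ι), v'⟫_ℂ) =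
          ((starRingEnd ℂ) (ω j) * ω j) * (⟪v, u (j : ι)⟫_ℂ * ⟪u (j : ι), v'⟫_ℂ) := by ring
        _ = _ := by rw [h6, one_mul]
    rw [sum_congr rfl (fun j _ => h5 j)]
    rw [← h.tight_inner w v v']
    exact (Finset.sum_subtype (univ.filter (fun j => c j = w)) (by simp)
      (fun j => ⟪v, u j⟫_ℂ * ⟪u j, v'⟫_ℂ)).symm
  · intro j
    rw [refl_smul_left (hω1 i')]
    exact hrf j i' i'' hc' hc''
  · rw [inner_smul_left, inner_smul_right]
    exact mul_ne_zero ((map_ne_zero _).mpr (hω0 i')) (mul_ne_zero (hω0 i'') h3)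
  · exact h.inner_norm_lt hne

theorem MetNet.coplanar (h : MetNet u c d) {i i' i'' : ι} (hc' : c i' = c i)
    (hc'' : c i'' = c i) (h1 : ⟪u i, u i'⟫_ℂ ≠ 0) (h2 : ⟪u i, u i''⟫_ℂ ≠ 0) (hne : i ≠ i') :
    u i'' ∈ Submodule.span ℂ ({u i, u i'} : Set E) := by
  by_cases h3 : ⟪u i', u i''⟫_ℂ = 0
  · obtain ⟨l, hl, b, hb, e⟩ := h.refl_same (i := i) (i' := i'') hc''.symm
    have hb0 : b ≠ 0 := by
      intro h0
      rw [h0, norm_zero] at hb
      exact zero_ne_one hb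
    have h4 : ⟪u i, u l⟫_ℂ ≠ 0 := by
      intro h5
      have h6 := inner_refl (h.unit i) (u i'')
      rw [e, inner_smul_right, h5, mul_zero] at h6
      exact h2 (neg_eq_zero.mp h6.symm)
    have h5 : ⟪u i', u l⟫_ℂ ≠ 0 := by
      intro h6
      have h7 : ⟪u i', refl (u i) (u i'')⟫_ℂ = 0 := by
        rw [e, inner_smul_right, h6, mul_zero]
      rw [refl, inner_sub_right, inner_smul_right, h3, zero_sub, neg_eq_zero] at h7
      have h8 : ⟪u i', u i⟫_ℂ ≠ 0 := by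
        rw [← inner_conj_symm]
        exact (map_ne_zero _).mpr h1
      exact mul_ne_zero (mul_ne_zero two_ne_zero h2) h8 h7
    have h6 := h.coplanar_aux hc' hl h1 h4 h5 hne
    have h7 : u i'' = refl (u i) (b • u l) := by
      rw [← e, refl_refl (h.unit i)]
    rw [h7, refl]
    apply Submodule.sub_mem
    · exact Submodule.smul_mem _ _ h6
    · exact Submodule.smul_mem _ _ (Submodule.subset_span (by simp))
  · exact h.coplanar_aux hc' hc'' h1 h2 h3 hne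

end Pool.Agent.H284_net4
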