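import Mathlib
import Pool.Agent.H284_net4.Cluster

/-!
# The frame of a cluster
-/

set_option autoImplicit false

open Finset
open scoped InnerProductSpace

namespace Pool.Agent.H284_net4

variable {ι : Type*} [Fintype ι] {E : Type*} [NormedAddCommGroup E] [InnerProductSpace ℂ E]
variable {u : ι → E} {c : ι → Fin 3} {d : ℕ}

lemma norm_one_of_inner {x : E} (h : ⟪x, x⟫_ℂ = 1) : ‖x‖ = 1 := by
  rw [norm_eq_sqrt_re_inner (𝕜 := ℂ) x, h]
  simp

/-- The plane frame: computation for one pair of vectors. -/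
lemma frame_core {e x : E} (he : ‖e‖ = 1) (hx : ‖x‖ = 1) {z : ℝ} (hz : ⟪e, x⟫_ℂ = z)
    (hz1 : z ^ 2 < 1) :
    ∃ e0 e1 : E, ‖e0‖ = 1 ∧ ‖e1‖ = 1 ∧ ⟪e0, e1⟫_ℂ = 0 ∧
      e0 ∈ Submodule.span ℂ ({e, x} : Set E) ∧ e1 ∈ Submodule.span ℂ ({e, x} : Set E) ∧
      e ∈ Submodule.span ℂ ({e0, e1} : Set E) ∧ x ∈ Submodule.span ℂ ({e0, e1} : Set E) ∧
      ∀ y, ⟪e, y⟫_ℂ = ((1 / 2 : ℝ) : ℂ) → ‖⟪x, y⟫_ℂ‖ ^ 2 = 1 / 4 → (⟪x, y⟫_ℂ).re = z / 2 →
        ((⟪e0, y⟫_ℂ = 0 ∧ ‖⟪e1, y⟫_ℂ‖ ^ 2 = 1 / 2) ∨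
          (‖⟪e0, y⟫_ℂ‖ ^ 2 = 1 / 2 ∧ ⟪e1, y⟫_ℂ = 0)) := by
  obtain ⟨s, hs, hs2⟩ : ∃ s : ℝ, 0 < s ∧ s ^ 2 = 1 - z ^ 2 :=
    ⟨Real.sqrt (1 - z ^ 2), Real.sqrt_pos.mpr (by linarith), Real.sq_sqrt (by linarith)⟩
  obtain ⟨r, hr, hr2⟩ : ∃ r : ℝ, 0 < r ∧ r ^ 2 = 1 / 2 :=
    ⟨Real.sqrt (1 / 2), Real.sqrt_pos.mpr (by norm_num), Real.sq_sqrt (by norm_num)⟩
  have hsC : (s : ℂ) ≠ 0 := by exact_mod_cast hs.ne'
  have hrC : (r : ℂ) ≠ 0 := by exact_mod_cast hr.ne'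
  have hr2C : (r : ℂ) ^ 2 = 1 / 2 := by
    rw [← Complex.ofReal_pow, hr2]
    norm_num
  have hs2C : (s : ℂ) ^ 2 = 1 - (z : ℂ) ^ 2 := by
    exact_mod_cast congrArg (fun t : ℝ => (t : ℂ)) hs2
  have hxe : ⟪x, e⟫_ℂ = z := by
    rw [← inner_conj_symm]
    exact conj_ofReal_eq hz
  -- the second vector of an orthonormal basis
  obtain ⟨a, ha⟩ : ∃ a : E, a = (-Complex.I / (s : ℂ)) • (x - (z : ℂ) • e) := ⟨_, rfl⟩
  have hI : (starRingEnd ℂ) (-Complex.I / (s : ℂ)) = Complex.I / (s : ℂ) := by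
    rw [map_div₀, map_neg, Complex.conj_I, Complex.conj_ofReal, neg_neg]
  have h1 : ⟪e, a⟫_ℂ = 0 := by
    rw [ha, inner_smul_right, inner_sub_right, inner_smul_right, inner_self_one he, hz]
    ring
  have h1' : ⟪a, e⟫_ℂ = 0 := by
    rw [← inner_conj_symm, h1, map_zero]
  have hway : ∀ y, ⟪a, y⟫_ℂ = Complex.I / (s : ℂ) * (⟪x, y⟫_ℂ - (z : ℂ) * ⟪e, y⟫_ℂ) := by
    intro y
    rw [ha, inner_smul_left, inner_sub_left, inner_smul_left, hI, Complex.conj_ofReal]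
  have h2 : ⟪a, a⟫_ℂ = 1 := by
    rw [hway, h1]
    have h3 : ⟪x, a⟫_ℂ = -Complex.I * (s : ℂ) := by
      rw [ha, inner_smul_right, inner_sub_right, inner_smul_right, inner_self_one hx, hxe]
      field_simp
      linear_combination hs2C
    rw [h3]
    field_simp
    rw [mul_zero, sub_zero]
    have := Complex.I_mul_I
    linear_combination (-(s : ℂ)) * this
  refine ⟨(r : ℂ) • (e + a), (r : ℂ) • (e - a), ?_, ?_, ?_, ?_, ?_, ?_, ?_, ?_⟩
  · have h3 : ⟪(r : ℂ) • (e + a), (r : ℂ) • (e + a)⟫_ℂ = 1 := by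
      rw [inner_smul_left, inner_smul_right, inner_add_left, inner_add_right, inner_add_right,
        inner_self_one he, h1, h1', h2, Complex.conj_ofReal]
      linear_combination 2 * hr2C
    exact norm_one_of_inner h3
  · have h3 : ⟪(r : ℂ) • (e - a), (r : ℂ) • (e - a)⟫_ℂ = 1 := by
      rw [inner_smul_left, inner_smul_right, inner_sub_left, inner_sub_right, inner_sub_right,
        inner_self_one he, h1, h1', h2, Complex.conj_ofReal]
      linear_combination 2 * hr2C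
    exact norm_one_of_inner h3
  · rw [inner_smul_left, inner_smul_right, inner_add_left, inner_sub_right, inner_sub_right,
      inner_self_one he, h1, h1', h2]
    ring
  · rw [Submodule.mem_span_pair]
    refine ⟨(r : ℂ) * (1 - (-Complex.I / (s : ℂ)) * (z : ℂ)), (r : ℂ) * (-Complex.I / (s : ℂ)), ?_⟩
    rw [ha]
    module
  · rw [Submodule.mem_span_pair]
    refine ⟨(r : ℂ) * (1 + (-Complex.I / (s : ℂ)) * (z : ℂ)), -((r : ℂ) * (-Complex.I / (s : ℂ))),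
      ?_⟩
    rw [ha]
    module
  · rw [Submodule.mem_span_pair]
    refine ⟨(r : ℂ), (r : ℂ), ?_⟩
    have : (r : ℂ) • (r : ℂ) • (e + a) + (r : ℂ) • (r : ℂ) • (e - a) =
        (2 * (r : ℂ) ^ 2) • e := by module
    rw [this, hr2C]
    module
  · rw [Submodule.mem_span_pair]
    have hIs : Complex.I * Complex.I = -1 := Complex.I_mul_I
    refine ⟨(r : ℂ) * ((z : ℂ) + Complex.I * (s : ℂ)), (r : ℂ) * ((z : ℂ) - Complex.I * (s : ℂ)),
      ?_⟩
    have h3 : ((r : ℂ) * ((z : ℂ) + Complex.I * (s : ℂ))) • (r : ℂ) • (e + a) +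
        ((r : ℂ) * ((z : ℂ) - Complex.I * (s : ℂ))) • (r : ℂ) • (e - a) =
        (2 * (r : ℂ) ^ 2) • ((z : ℂ) • e + (Complex.I * (s : ℂ)) • a) := by module
    rw [h3, hr2C, ha, smul_smul (Complex.I * (s : ℂ))]
    have h4 : Complex.I * (s : ℂ) * (-Complex.I / (s : ℂ)) = 1 := by
      field_simp
      linear_combination -hIs
    rw [h4]
    module
  · intro y hy hxy hre
    obtain ⟨q, hq⟩ : ∃ q : ℂ, q = ⟪x, y⟫_ℂ := ⟨_, rfl⟩
    rw [← hq] at hxy hre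
    rw [norm_sq_eq, hre] at hxy
    obtain ⟨p, hp⟩ : ∃ p : ℝ, p = q.im := ⟨_, rfl⟩
    rw [← hp] at hxy
    have hqe : q = ((z / 2 : ℝ) : ℂ) + (p : ℂ) * Complex.I := by
      apply Complex.ext
      · simp [hre]
      · simp [hp]
    have hay : ⟪a, y⟫_ℂ = ((-(p / s) : ℝ) : ℂ) := by
      rw [hway, hy, ← hq, hqe]
      push_cast
      field_simp
      have := Complex.I_mul_I
      linear_combination (2 * (p : ℂ)) * this
    have h3 : (p / s) ^ 2 = 1 / 4 := by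
      rw [div_pow, hs2, div_eq_iff (by linarith)]
      linarith
    have h4 : (p / s - 1 / 2) * (p / s + 1 / 2) = 0 := by linarith
    have h5 : ⟪(r : ℂ) • (e + a), y⟫_ℂ = ((r * (1 / 2 - p / s) : ℝ) : ℂ) := by
      rw [inner_smul_left, inner_add_left, Complex.conj_ofReal, hy, hay]
      push_cast
      ring
    have h6 : ⟪(r : ℂ) • (e - a), y⟫_ℂ = ((r * (1 / 2 + p / s) : ℝ) : ℂ) := by
      rw [inner_smul_left, inner_sub_left, Complex.conj_ofReal, hy, hay]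
      push_cast
      ring
    rw [h5, h6, Complex.norm_real, Complex.norm_real, Real.norm_eq_abs, Real.norm_eq_abs, sq_abs,
      sq_abs]
    rcases mul_eq_zero.mp h4 with h7 | h7
    · left
      have h8 : p / s = 1 / 2 := by linarith
      rw [h8]
      refine ⟨by norm_num, ?_⟩
      rw [mul_pow, hr2]
      norm_num
    · right
      have h8 : p / s = -(1 / 2) := by linarith
      rw [h8]
      refine ⟨?_, by norm_num⟩
      rw [mul_pow, hr2]
      norm_num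

end Pool.Agent.H284_net4
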