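import Mathlib
import Pool.Agent.H284_net4.Frame

/-!
# Classification: a class with a non-orthogonal pair
-/

set_option autoImplicit false

open Finset
open scoped InnerProductSpace

namespace Pool.Agent.H284_net4

variable {ι : Type*} [Fintype ι] {E : Type*} [NormedAddCommGroup E] [InnerProductSpace ℂ E]
variable {u : ι → E} {c : ι → Fin 3} {d : ℕ}

/-- The frame of a non-orthogonal pair of a class. -/
lemma MetNet.frame (h : MetNet u c d) {i i' : ι} (hc : c i' = c i) (hne : i ≠ i')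
    (h1 : ⟪u i, u i'⟫_ℂ ≠ 0) :
    ∃ e0 e1 : E, ‖e0‖ = 1 ∧ ‖e1‖ = 1 ∧ ⟪e0, e1⟫_ℂ = 0 ∧
      e0 ∈ Submodule.span ℂ ({u i, u i'} : Set E) ∧
      e1 ∈ Submodule.span ℂ ({u i, u i'} : Set E) ∧
      u i ∈ Submodule.span ℂ ({e0, e1} : Set E) ∧ u i' ∈ Submodule.span ℂ ({e0, e1} : Set E) ∧
      ∀ j, c j ≠ c i → ((⟪e0, u j⟫_ℂ = 0 ∧ ‖⟪e1, u j⟫_ℂ‖ ^ 2 = 1 / 2) ∨
          (‖⟪e0, u j⟫_ℂ‖ ^ 2 = 1 / 2 ∧ ⟪e1, u j⟫_ℂ = 0)) := by
  have hph : ∀ j : ι, ∃ ω : ℂ, ‖ω‖ = 1 ∧ ⟪u i, ω • u j⟫_ℂ = ((‖⟪u i, u j⟫_ℂ‖ : ℝ) : ℂ) :=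
    fun j => exists_phase (u i) (u j)
  choose ω hω1 hω2 using hph
  have hω0 : ∀ j, ω j ≠ 0 := by
    intro j h0
    have := hω1 j
    rw [h0, norm_zero] at this
    exact zero_ne_one this
  have hz1 := h.inner_norm_lt hne
  have hn1 : ‖⟪u i, u i'⟫_ℂ‖ ≠ 0 := norm_ne_zero_iff.mpr h1
  obtain ⟨e0, e1, g0, g1, g2, g3, g4, g5, g6, g7⟩ := frame_core (h.unit i)
    (x := ω i' • u i') (by rw [norm_smul, hω1, h.unit, one_mul]) (hω2 i') hz1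
  have hsub : ∀ w, w ∈ Submodule.span ℂ ({u i, ω i' • u i'} : Set E) →
      w ∈ Submodule.span ℂ ({u i, u i'} : Set E) := by
    intro w hw
    rw [Submodule.mem_span_pair] at hw ⊢
    obtain ⟨a, b, hab⟩ := hw
    exact ⟨a, b * ω i', by rw [← hab, smul_smul]⟩
  refine ⟨e0, e1, g0, g1, g2, hsub _ g3, hsub _ g4, g5, ?_, ?_⟩
  · have h3 : u i' = (ω i')⁻¹ • (ω i' • u i') := by
      rw [smul_smul, inv_mul_cancel₀ (hω0 i'), one_smul]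
    rw [h3]
    exact Submodule.smul_mem _ _ g6
  · intro j hj
    have hij : c i ≠ c j := fun h' => hj h'.symm
    have hy : ⟪u i, ω j • u j⟫_ℂ = ((1 / 2 : ℝ) : ℂ) := by
      rw [hω2, sq_half (norm_nonneg _) (h.cross i j hij)]
    have h3 : ‖⟪ω i' • u i', ω j • u j⟫_ℂ‖ ^ 2 = 1 / 4 := by
      rw [inner_smul_left, inner_smul_right, norm_mul, norm_mul, Complex.norm_conj, hω1, hω1,
        one_mul, one_mul]
      exact h.cross i' j (by rw [hc]; exact hij)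
    have h4 : ‖⟪refl (u i) (ω i' • u i'), ω j • u j⟫_ℂ‖ ^ 2 = 1 / 4 := by
      rw [refl_smul, inner_smul_left, inner_smul_right, norm_mul, norm_mul, Complex.norm_conj,
        hω1, hω1, one_mul, one_mul]
      exact h.refl_cond hc.symm hij
    have h5 := re_half (hω2 i') hn1 hy h3 h4
    have h6 := g7 _ hy h3 h5
    rw [inner_smul_right, inner_smul_right, norm_mul, norm_mul, hω1, one_mul, one_mul] at h6
    rcases h6 with ⟨h7, h8⟩ | ⟨h7, h8⟩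
    · exact Or.inl ⟨(mul_eq_zero.mp h7).resolve_left (hω0 j), h8⟩
    · exact Or.inr ⟨h7, (mul_eq_zero.mp h8).resolve_left (hω0 j)⟩

/-- A line of the class is in the plane of the pair or orthogonal to the pair. -/
lemma MetNet.dichotomy (h : MetNet u c d) {i i' l : ι} (hc : c i' = c i) (hne : i ≠ i')
    (h1 : ⟪u i, u i'⟫_ℂ ≠ 0) (hl : c l = c i) :
    u l ∈ Submodule.span ℂ ({u i, u i'} : Set E) ∨
      (⟪u i, u l⟫_ℂ = 0 ∧ ⟪u i', u l⟫_ℂ = 0) := by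
  by_cases ha : ⟪u i, u l⟫_ℂ = 0
  · by_cases hb : ⟪u i', u l⟫_ℂ = 0
    · exact Or.inr ⟨ha, hb⟩
    · left
      have h2 : ⟪u i', u i⟫_ℂ ≠ 0 := by
        rw [← inner_conj_symm]
        exact (map_ne_zero _).mpr h1
      have := h.coplanar (i := i') (i' := i) (i'' := l) hc.symm (by rw [hl, hc]) h2 hb hne.symm
      rwa [Set.pair_comm] at this
  · exact Or.inl (h.coplanar hc hl h1 ha hne)

omit [Fintype ι] in
lemma inner_span_zero {x y a b : E} (hx : ⟪a, x⟫_ℂ = 0) (hy : ⟪a, y⟫_ℂ = 0)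
    (hb : b ∈ Submodule.span ℂ ({x, y} : Set E)) : ⟪a, b⟫_ℂ = 0 := by
  rw [Submodule.mem_span_pair] at hb
  obtain ⟨s, t, rfl⟩ := hb
  rw [inner_add_right, inner_smul_right, inner_smul_right, hx, hy]
  simp

omit [Fintype ι] in
lemma inner_span_zero' {x y a b : E} (hx : ⟪x, a⟫_ℂ = 0) (hy : ⟪y, a⟫_ℂ = 0)
    (hb : b ∈ Submodule.span ℂ ({x, y} : Set E)) : ⟪b, a⟫_ℂ = 0 := by
  rw [Submodule.mem_span_pair] at hb
  obtain ⟨s, t, rfl⟩ := hb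
  rw [inner_add_left, inner_smul_left, inner_smul_left, hx, hy]
  simp

omit [Fintype ι] in
/-- A unit vector of the plane with the right product with one vector of another class. -/
lemma split_half {e0 e1 w y : E} (h0 : ‖e0‖ = 1) (h1 : ‖e1‖ = 1) (h01 : ⟪e0, e1⟫_ℂ = 0)
    (hw : ‖w‖ = 1) (hmem : w ∈ Submodule.span ℂ ({e0, e1} : Set E))
    (hwy : ‖⟪w, y⟫_ℂ‖ ^ 2 = 1 / 4)
    (hy : (⟪e0, y⟫_ℂ = 0 ∧ ‖⟪e1, y⟫_ℂ‖ ^ 2 = 1 / 2) ∨
      (‖⟪e0, y⟫_ℂ‖ ^ 2 = 1 / 2 ∧ ⟪e1, y⟫_ℂ = 0)) :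
    ‖⟪e0, w⟫_ℂ‖ ^ 2 = 1 / 2 ∧ ‖⟪e1, w⟫_ℂ‖ ^ 2 = 1 / 2 := by
  rw [Submodule.mem_span_pair] at hmem
  obtain ⟨a, b, hab⟩ := hmem
  have h10 : ⟪e1, e0⟫_ℂ = 0 := by
    rw [← inner_conj_symm, h01, map_zero]
  have ha : ⟪e0, w⟫_ℂ = a := by
    rw [← hab, inner_add_right, inner_smul_right, inner_smul_right, inner_self_one h0, h01]
    ring
  have hb : ⟪e1, w⟫_ℂ = b := by
    rw [← hab, inner_add_right, inner_smul_right, inner_smul_right, inner_self_one h1, h10]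
    ring
  rw [ha, hb]
  have hn : ‖a‖ ^ 2 + ‖b‖ ^ 2 = 1 := by
    have h2 : ⟪w, w⟫_ℂ = (starRingEnd ℂ) a * a + (starRingEnd ℂ) b * b := by
      conv_lhs => rw [← hab]
      rw [inner_add_left, inner_smul_left, inner_smul_left, hab, ha, hb]
    rw [inner_self_one hw, Complex.conj_mul', Complex.conj_mul'] at h2
    exact_mod_cast h2.symm
  have h3 : ⟪w, y⟫_ℂ = (starRingEnd ℂ) a * ⟪e0, y⟫_ℂ + (starRingEnd ℂ) b * ⟪e1, y⟫_ℂ := by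
    rw [← hab, inner_add_left, inner_smul_left, inner_smul_left]
  rw [h3] at hwy
  rcases hy with ⟨h4, h5⟩ | ⟨h4, h5⟩
  · rw [h4, mul_zero, zero_add, norm_mul, Complex.norm_conj, mul_pow, h5] at hwy
    constructor <;> linarith
  · rw [h5, mul_zero, add_zero, norm_mul, Complex.norm_conj, mul_pow, h4] at hwy
    constructor <;> linarith

omit [Fintype ι] in
lemma expand {e : Fin 4 → E} (he : Orthonormal ℂ e) (hE : Module.finrank ℂ E = 4) (x : E) :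
    x = ⟪e 0, x⟫_ℂ • e 0 + ⟪e 1, x⟫_ℂ • e 1 + ⟪e 2, x⟫_ℂ • e 2 + ⟪e 3, x⟫_ℂ • e 3 := by
  have hsp : ⊤ ≤ Submodule.span ℂ (Set.range e) := by
    rw [he.linearIndependent.span_eq_top_of_card_eq_finrank (by rw [hE]; simp)]
  have h1 := (OrthonormalBasis.mk he hsp).sum_repr' x
  rw [Fin.sum_univ_four] at h1
  simp only [OrthonormalBasis.coe_mk] at h1
  exact h1.symm

omit [Fintype ι] in
lemma pair_form {x y w : E} {a b : ℂ} (ha : ‖a‖ ^ 2 = 1 / 2) (hb : ‖b‖ ^ 2 = 1 / 2)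
    (hw : w = a • x + b • y) : ∃ ζ t : ℂ, ‖ζ‖ = 1 ∧ t ≠ 0 ∧ w = t • (x - ζ • y) := by
  have ha0 : a ≠ 0 := by
    intro h0
    rw [h0, norm_zero] at ha
    norm_num at ha
  have hab : ‖a‖ = ‖b‖ :=
    (sq_eq_sq₀ (norm_nonneg _) (norm_nonneg _)).mp (by rw [ha, hb])
  refine ⟨-(b / a), a, ?_, ha0, ?_⟩
  · rw [norm_neg, norm_div, ← hab]
    exact div_self (norm_ne_zero_iff.mpr ha0)
  · rw [hw]
    have h1 : b = a * (b / a) := by field_simp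
    have h2 : a • (x - (-(b / a)) • y) = a • x + (a * (b / a)) • y := by module
    rw [h2, ← h1]

omit [Fintype ι] in
lemma orthonormal_four {e0 e1 e2 e3 : E} (h0 : ‖e0‖ = 1) (h1 : ‖e1‖ = 1) (h2 : ‖e2‖ = 1)
    (h3 : ‖e3‖ = 1) (h01 : ⟪e0, e1⟫_ℂ = 0) (h02 : ⟪e0, e2⟫_ℂ = 0) (h03 : ⟪e0, e3⟫_ℂ = 0)
    (h12 : ⟪e1, e2⟫_ℂ = 0) (h13 : ⟪e1, e3⟫_ℂ = 0) (h23 : ⟪e2, e3⟫_ℂ = 0) :
    Orthonormal ℂ ![e0, e1, e2, e3] := by
  have hs : ∀ x y : E, ⟪x, y⟫_ℂ = 0 → ⟪y, x⟫_ℂ = 0 := by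
    intro x y hxy
    rw [← inner_conj_symm, hxy, map_zero]
  constructor
  · intro a
    fin_cases a
    · exact h0
    · exact h1
    · exact h2
    · exact h3
  · intro a b hab
    fin_cases a <;> fin_cases b
    · exact absurd rfl hab
    · exact h01
    · exact h02
    · exact h03
    · exact hs _ _ h01
    · exact absurd rfl hab
    · exact h12
    · exact h13
    · exact hs _ _ h02
    · exact hs _ _ h12
    · exact absurd rfl hab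
    · exact h23
    · exact hs _ _ h03
    · exact hs _ _ h13
    · exact hs _ _ h23
    · exact absurd rfl hab

omit [Fintype ι] in
/-- From coordinates to types. -/
lemma typed_of_coords {e : Fin 4 → E} (he : Orthonormal ℂ e) (hE : Module.finrank ℂ E = 4)
    {v : Fin 3}
    (hv : ∀ l, c l = v →
      (‖⟪e 0, u l⟫_ℂ‖ ^ 2 = 1 / 2 ∧ ‖⟪e 1, u l⟫_ℂ‖ ^ 2 = 1 / 2 ∧ ⟪e 2, u l⟫_ℂ = 0 ∧
        ⟪e 3, u l⟫_ℂ = 0) ∨
      (⟪e 0, u l⟫_ℂ = 0 ∧ ⟪e 1, u l⟫_ℂ = 0 ∧ ‖⟪e 2, u l⟫_ℂ‖ ^ 2 = 1 / 2 ∧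
        ‖⟪e 3, u l⟫_ℂ‖ ^ 2 = 1 / 2))
    (hw : ∀ l, c l ≠ v →
      ((⟪e 0, u l⟫_ℂ = 0 ∧ ‖⟪e 1, u l⟫_ℂ‖ ^ 2 = 1 / 2) ∨
        (‖⟪e 0, u l⟫_ℂ‖ ^ 2 = 1 / 2 ∧ ⟪e 1, u l⟫_ℂ = 0)) ∧
      ((⟪e 2, u l⟫_ℂ = 0 ∧ ‖⟪e 3, u l⟫_ℂ‖ ^ 2 = 1 / 2) ∨
        (‖⟪e 2, u l⟫_ℂ‖ ^ 2 = 1 / 2 ∧ ⟪e 3, u l⟫_ℂ = 0)))
    (h01 : ∃ l, c l = v ∧ ⟪e 0, u l⟫_ℂ ≠ 0) (h23 : ∃ l, c l = v ∧ ⟪e 2, u l⟫_ℂ ≠ 0) :
    Typed u c v e := by
  have A : ∀ l, c l = v → ⟪e 0, u l⟫_ℂ ≠ 0 →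
      ∃ ζ t : ℂ, ‖ζ‖ = 1 ∧ t ≠ 0 ∧ u l = t • (e 0 - ζ • e 1) := by
    intro l hl h0
    rcases hv l hl with ⟨h1, h2, h3, h4⟩ | ⟨h1, h2, h3, h4⟩
    · refine pair_form h1 h2 ?_
      conv_lhs => rw [expand he hE (u l)]
      rw [h3, h4]
      module
    · exact absurd h1 h0
  have B : ∀ l, c l = v → ⟪e 2, u l⟫_ℂ ≠ 0 →
      ∃ ζ t : ℂ, ‖ζ‖ = 1 ∧ t ≠ 0 ∧ u l = t • (e 2 - ζ • e 3) := by
    intro l hl h0
    rcases hv l hl with ⟨h1, h2, h3, h4⟩ | ⟨h1, h2, h3, h4⟩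
    · exact absurd h3 h0
    · refine pair_form h3 h4 ?_
      conv_lhs => rw [expand he hE (u l)]
      rw [h1, h2]
      module
  have nz : ∀ z : ℂ, ‖z‖ ^ 2 = 1 / 2 → z ≠ 0 := by
    intro z hz h0
    rw [h0, norm_zero] at hz
    norm_num at hz
  refine ⟨he, ?_, ?_, ?_, ?_⟩
  · intro l hl
    rcases hv l hl with ⟨h1, h2, h3, h4⟩ | ⟨h1, h2, h3, h4⟩
    · exact Or.inl (A l hl (nz _ h1))
    · exact Or.inr (B l hl (nz _ h3))
  · intro l hl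
    obtain ⟨h1, h2⟩ := hw l hl
    rcases h1 with ⟨h1, h1'⟩ | ⟨h1, h1'⟩ <;> rcases h2 with ⟨h2, h2'⟩ | ⟨h2, h2'⟩
    · refine ⟨1, 3, Or.inr rfl, Or.inr rfl, pair_form h1' h2' ?_⟩
      conv_lhs => rw [expand he hE (u l)]
      rw [h1, h2]
      module
    · refine ⟨1, 2, Or.inr rfl, Or.inl rfl, pair_form h1' h2 ?_⟩
      conv_lhs => rw [expand he hE (u l)]
      rw [h1, h2']
      module
    · refine ⟨0, 3, Or.inl rfl, Or.inr rfl, pair_form h1 h2' ?_⟩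
      conv_lhs => rw [expand he hE (u l)]
      rw [h1', h2]
      module
    · refine ⟨0, 2, Or.inl rfl, Or.inl rfl, pair_form h1 h2 ?_⟩
      conv_lhs => rw [expand he hE (u l)]
      rw [h1', h2']
      module
  · obtain ⟨l, hl, h0⟩ := h01
    exact ⟨l, hl, A l hl h0⟩
  · obtain ⟨l, hl, h0⟩ := h23
    exact ⟨l, hl, B l hl h0⟩

/-- Case B: a class with a non-orthogonal pair. -/
theorem MetNet.typed_of_nonorth (h : MetNet u c d) (hE : Module.finrank ℂ E = 4) {i i' : ι}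
    (hc : c i' = c i) (hne : i ≠ i') (h1 : ⟪u i, u i'⟫_ℂ ≠ 0) :
    ∃ e, Typed u c (c i) e := by
  classical
  obtain ⟨e0, e1, g0, g1, g01, m0, m1, n0, n1, gj⟩ := h.frame hc hne h1
  have hspan : ∀ w, w ∈ Submodule.span ℂ ({u i, u i'} : Set E) →
      w ∈ Submodule.span ℂ ({e0, e1} : Set E) := by
    intro w hw
    rw [Submodule.mem_span_pair] at hw
    obtain ⟨a, b, rfl⟩ := hw
    exact Submodule.add_mem _ (Submodule.smul_mem _ _ n0) (Submodule.smul_mem _ _ n1)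
  -- the number `d` is larger than four
  have hd4 : (d : ℂ) / 4 ≠ 1 := by
    intro hd
    have h2 := h.tight_inner (c i) (u i) (u i)
    have h3 : ∀ l, ⟪u i, u l⟫_ℂ * ⟪u l, u i⟫_ℂ = ((‖⟪u i, u l⟫_ℂ‖ ^ 2 : ℝ) : ℂ) := by
      intro l
      rw [← inner_conj_symm (u l) (u i), Complex.mul_conj']
      push_cast
      rfl
    rw [sum_congr rfl (fun l _ => h3 l), inner_self_one (h.unit i), mul_one,
      ← Complex.ofReal_sum] at h2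
    have h4 : ∑ l ∈ univ.filter (fun l => c l = c i), ‖⟪u i, u l⟫_ℂ‖ ^ 2 = 1 := by
      have h5 : ((((d : ℝ) / 4 : ℝ)) : ℂ) = ((1 : ℝ) : ℂ) := by
        push_cast
        exact hd
      rw [h5] at h2
      exact_mod_cast h2
    have h5 : ({i, i'} : Finset ι) ⊆ univ.filter (fun l => c l = c i) := by
      intro l hl
      rw [Finset.mem_insert, Finset.mem_singleton] at hl
      rw [mem_filter]
      rcases hl with rfl | rfl
      · exact ⟨mem_univ _, rfl⟩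
      · exact ⟨mem_univ _, hc⟩
    have h6 := sum_le_sum_of_subset_of_nonneg h5
      (f := fun l => ‖⟪u i, u l⟫_ℂ‖ ^ 2) (fun l _ _ => by positivity)
    rw [h4, sum_pair hne, inner_self_one (h.unit i)] at h6
    have h7 : 0 < ‖⟪u i, u i'⟫_ℂ‖ ^ 2 := by
      have := norm_pos_iff.mpr h1
      positivity
    norm_num at h6
    have := norm_pos_iff.mpr h1
    exact h1 h6
  have hs : ∀ x y : E, ⟪x, y⟫_ℂ = 0 → ⟪y, x⟫_ℂ = 0 := by
    intro x y hxy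
    rw [← inner_conj_symm, hxy, map_zero]
  -- a line orthogonal to the plane
  obtain ⟨i2, hi2, p1, p2⟩ : ∃ l, c l = c i ∧ ⟪u i, u l⟫_ℂ = 0 ∧ ⟪u i', u l⟫_ℂ = 0 := by
    by_contra hcon
    have hall : ∀ l, c l = c i → u l ∈ Submodule.span ℂ ({u i, u i'} : Set E) := fun l hl =>
      (h.dichotomy hc hne h1 hl).resolve_right (fun hh => hcon ⟨l, hl, hh.1, hh.2⟩)
    have hd0 : (d : ℂ) / 4 ≠ 0 := by
      have := h.four
      have h4 : (d : ℂ) ≠ 0 := by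
        exact_mod_cast (by omega : d ≠ 0)
      exact div_ne_zero h4 (by norm_num)
    have htop : Submodule.span ℂ ({u i, u i'} : Set E) = ⊤ := by
      rw [Submodule.eq_top_iff']
      intro x
      have h2 := h.tight (c i) x
      have h3 : ((d : ℂ) / 4) • x ∈ Submodule.span ℂ ({u i, u i'} : Set E) := by
        rw [← h2]
        exact Submodule.sum_mem _ (fun l hl =>
          Submodule.smul_mem _ _ (hall l (mem_filter.mp hl).2))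
      have h4 := Submodule.smul_mem _ ((d : ℂ) / 4)⁻¹ h3
      rwa [smul_smul, inv_mul_cancel₀ hd0, one_smul] at h4
    have h2 := finrank_span_finset_le_card (R := ℂ) ({u i, u i'} : Finset E)
    rw [coe_pair, Set.finrank, htop, finrank_top, hE] at h2
    have h3 := Finset.card_le_two (a := u i) (b := u i')
    omega
  obtain ⟨i3, hi3, hne3, q⟩ : ∃ l, c l = c i ∧ i2 ≠ l ∧ ⟪u i2, u l⟫_ℂ ≠ 0 := by
    by_contra hcon
    have h2 := h.tight (c i) (u i2)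
    rw [Finset.sum_eq_single i2] at h2
    · rw [inner_self_one (h.unit i2), one_smul] at h2
      apply hd4
      have h3 : (1 - (d : ℂ) / 4) • u i2 = 0 := by
        rw [sub_smul, one_smul, ← h2, sub_self]
      rcases smul_eq_zero.mp h3 with h4 | h4
      · exact (sub_eq_zero.mp h4).symm
      · have := h.unit i2
        rw [h4, norm_zero] at this
        exact absurd this zero_ne_one
    · intro b hb hb2
      have h3 : ⟪u i2, u b⟫_ℂ = 0 := by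
        by_contra h4
        exact hcon ⟨b, (mem_filter.mp hb).2, hb2.symm, h4⟩
      rw [hs _ _ h3, zero_smul]
    · intro hn
      exact (hn (mem_filter.mpr ⟨mem_univ i2, hi2⟩)).elim
  obtain ⟨q1, q2⟩ : ⟪u i, u i3⟫_ℂ = 0 ∧ ⟪u i', u i3⟫_ℂ = 0 := by
    rcases h.dichotomy hc hne h1 hi3 with h2 | h2
    · exact absurd (inner_span_zero (hs _ _ p1) (hs _ _ p2) h2) q
    · exact h2
  obtain ⟨e2, e3, g2, g3, g23, m2, m3, n2, n3, gj'⟩ :=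
    h.frame (i := i2) (i' := i3) (by rw [hi2, hi3]) hne3 q
  have hcr : ∀ w ∈ Submodule.span ℂ ({u i, u i'} : Set E),
      ∀ w' ∈ Submodule.span ℂ ({u i2, u i3} : Set E), ⟪w, w'⟫_ℂ = 0 := fun w hw w' hw' =>
    inner_span_zero (inner_span_zero' p1 p2 hw) (inner_span_zero' q1 q2 hw) hw'
  have horth : Orthonormal ℂ ![e0, e1, e2, e3] :=
    orthonormal_four g0 g1 g2 g3 g01 (hcr _ m0 _ m2) (hcr _ m0 _ m3) (hcr _ m1 _ m2)
      (hcr _ m1 _ m3) g23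
  -- a line of another class
  obtain ⟨v, hv, _⟩ := exists_third (c i) (c i)
  obtain ⟨j, hj⟩ := h.exists_class v
  have hji : c j ≠ c i := by rw [hj]; exact hv
  have hji2 : c j ≠ c i2 := by rw [hj, hi2]; exact hv
  have hin : ∀ l, c l = c i → u l ∈ Submodule.span ℂ ({u i, u i'} : Set E) →
      ‖⟪e0, u l⟫_ℂ‖ ^ 2 = 1 / 2 ∧ ‖⟪e1, u l⟫_ℂ‖ ^ 2 = 1 / 2 := fun l hl hmem =>
    split_half g0 g1 g01 (h.unit l) (hspan _ hmem)
      (h.cross l j (by rw [hl]; exact hji.symm)) (gj j hji)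
  have hin' : ∀ l, c l = c i → u l ∈ Submodule.span ℂ ({e2, e3} : Set E) →
      ‖⟪e2, u l⟫_ℂ‖ ^ 2 = 1 / 2 ∧ ‖⟪e3, u l⟫_ℂ‖ ^ 2 = 1 / 2 := fun l hl hmem =>
    split_half g2 g3 g23 (h.unit l) hmem
      (h.cross l j (by rw [hl]; exact hji.symm)) (gj' j hji2)
  have nz : ∀ z : ℂ, ‖z‖ ^ 2 = 1 / 2 → z ≠ 0 := by
    intro z hz h0
    rw [h0, norm_zero] at hz
    norm_num at hz
  refine ⟨![e0, e1, e2, e3], typed_of_coords horth hE ?_ ?_ ?_ ?_⟩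
  · intro l hl
    change (‖⟪e0, u l⟫_ℂ‖ ^ 2 = 1 / 2 ∧ ‖⟪e1, u l⟫_ℂ‖ ^ 2 = 1 / 2 ∧ ⟪e2, u l⟫_ℂ = 0 ∧
        ⟪e3, u l⟫_ℂ = 0) ∨
      (⟪e0, u l⟫_ℂ = 0 ∧ ⟪e1, u l⟫_ℂ = 0 ∧ ‖⟪e2, u l⟫_ℂ‖ ^ 2 = 1 / 2 ∧
        ‖⟪e3, u l⟫_ℂ‖ ^ 2 = 1 / 2)
    rcases h.dichotomy hc hne h1 hl with h2 | h2
    · left
      obtain ⟨a1, a2⟩ := hin l hl h2
      exact ⟨a1, a2, hs _ _ (hcr _ h2 _ m2), hs _ _ (hcr _ h2 _ m3)⟩
    · right
      have a1 : ⟪e0, u l⟫_ℂ = 0 := inner_span_zero' h2.1 h2.2 m0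
      have a2 : ⟪e1, u l⟫_ℂ = 0 := inner_span_zero' h2.1 h2.2 m1
      have a3 : u l ∈ Submodule.span ℂ ({e2, e3} : Set E) := by
        rw [Submodule.mem_span_pair]
        refine ⟨⟪e2, u l⟫_ℂ, ⟪e3, u l⟫_ℂ, ?_⟩
        have h3 : u l = ⟪e0, u l⟫_ℂ • e0 + ⟪e1, u l⟫_ℂ • e1 + ⟪e2, u l⟫_ℂ • e2 +
          ⟪e3, u l⟫_ℂ • e3 := expand horth hE (u l)
        rw [a1, a2, zero_smul, zero_smul, add_zero, zero_add] at h3
        exact h3.symm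
      obtain ⟨a4, a5⟩ := hin' l hl a3
      exact ⟨a1, a2, a4, a5⟩
  · intro l hl
    exact ⟨gj l hl, gj' l (by rw [hi2]; exact hl)⟩
  · refine ⟨i, rfl, ?_⟩
    exact nz _ (hin i rfl (Submodule.subset_span (by simp))).1
  · refine ⟨i2, hi2, ?_⟩
    exact nz _ (hin' i2 hi2 n2).1

end Pool.Agent.H284_net4
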