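import Mathlib
import Pool.Agent.H284_net4.CaseB

/-!
# Classification: a class of pairwise orthogonal lines
-/

set_option autoImplicit false

open Finset
open scoped InnerProductSpace

namespace Pool.Agent.H284_net4

variable {ι : Type*} [Fintype ι] {E : Type*} [NormedAddCommGroup E] [InnerProductSpace ℂ E]
variable {u : ι → E} {c : ι → Fin 3} {d : ℕ}

/-- Two lines of two classes differ by a reflection in a line of the third class. -/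
lemma MetNet.exists_refl (h : MetNet u c d) {v : Fin 3} {j j' : ι} (hj : c j ≠ v)
    (hj' : c j' ≠ v) (hjj : c j ≠ c j') :
    ∃ l, c l = v ∧ ∃ b : ℂ, ‖b‖ = 1 ∧ u j' = b • refl (u l) (u j) := by
  obtain ⟨l, hl, hmem⟩ := h.net j j' hjj v
  have hlj : c l ≠ c j := by rw [hl]; exact hj.symm
  have hlj' : c l ≠ c j' := by rw [hl]; exact hj'.symm
  have hmem' : u j' ∈ Submodule.span ℂ ({u l, u j} : Set E) := by
    rw [Submodule.mem_span_pair] at hmem ⊢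
    obtain ⟨a, b, hab⟩ := hmem
    have hb : b ≠ 0 := by
      intro h0
      rw [h0, zero_smul, add_zero] at hab
      have h1 := h.indep l j (fun h' => hlj (by rw [h']))
      rw [LinearIndependent.pair_iff] at h1
      have h2 := h1 1 (-a) (by rw [← hab]; module)
      exact one_ne_zero h2.1
    refine ⟨b⁻¹, -(b⁻¹ * a), ?_⟩
    have h2 : b⁻¹ • u l + (-(b⁻¹ * a)) • u j = (b⁻¹ * b) • u j' := by
      rw [← hab]
      module
    rw [h2, inv_mul_cancel₀ hb, one_smul]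
  obtain ⟨b, hb, hw⟩ := third_eq (h.unit l) (h.unit j) (h.unit j') (h.cross l j hlj)
    (h.cross l j' hlj') (h.cross j j' hjj) hmem'
  exact ⟨l, hl, b, hb, hw⟩

lemma pm_lemma {r : ℝ} (hr2 : r ^ 2 = 1 / 2) {β x0 x1 : ℂ} (hβ : ‖β‖ = 1)
    (h0 : x0 = β / 2 ∨ x0 = -(β / 2)) (h1 : x1 = β / 2 ∨ x1 = -(β / 2)) :
    (((r : ℂ) * (x0 + x1) = 0 ∧ ‖(r : ℂ) * (x0 - x1)‖ ^ 2 = 1 / 2) ∨
      (‖(r : ℂ) * (x0 + x1)‖ ^ 2 = 1 / 2 ∧ (r : ℂ) * (x0 - x1) = 0)) := by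
  have hn : ‖(r : ℂ) * β‖ ^ 2 = 1 / 2 := by
    rw [norm_mul, hβ, mul_one, Complex.norm_real, Real.norm_eq_abs, sq_abs, hr2]
  have hn' : ‖(r : ℂ) * (-β)‖ ^ 2 = 1 / 2 := by
    rw [mul_neg, norm_neg, hn]
  rcases h0 with rfl | rfl <;> rcases h1 with rfl | rfl
  · right
    refine ⟨?_, by ring⟩
    have : β / 2 + β / 2 = β := by ring
    rw [this, hn]
  · left
    refine ⟨by ring, ?_⟩
    have : β / 2 - -(β / 2) = β := by ring
    rw [this, hn]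
  · left
    refine ⟨by ring, ?_⟩
    have : -(β / 2) - β / 2 = -β := by ring
    rw [this, hn']
  · right
    refine ⟨?_, by ring⟩
    have : -(β / 2) + -(β / 2) = -β := by ring
    rw [this, hn']

lemma orth_change {b : Fin 4 → E} (hb : Orthonormal ℂ b) {r : ℝ} (hr2 : r ^ 2 = 1 / 2) :
    Orthonormal ℂ ![(r : ℂ) • (b 0 + b 1), (r : ℂ) • (b 0 - b 1), (r : ℂ) • (b 2 + b 3),
      (r : ℂ) • (b 2 - b 3)] := by
  have hr2C : (r : ℂ) * r = 1 / 2 := by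
    rw [← Complex.ofReal_mul, ← sq, hr2]
    norm_num
  have h1 : ∀ a, ⟪b a, b a⟫_ℂ = 1 := fun a => inner_self_one (hb.1 a)
  have h0 : ∀ a a', a ≠ a' → ⟪b a, b a'⟫_ℂ = 0 := fun a a' haa => hb.2 haa
  have h01 := h0 0 1 (by decide)
  have h02 := h0 0 2 (by decide)
  have h03 := h0 0 3 (by decide)
  have h12 := h0 1 2 (by decide)
  have h13 := h0 1 3 (by decide)
  have h23 := h0 2 3 (by decide)
  have h10 := h0 1 0 (by decide)
  have h32 := h0 3 2 (by decide)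
  apply orthonormal_four
  · apply norm_one_of_inner
    rw [inner_smul_left, inner_smul_right, inner_add_left, inner_add_right, inner_add_right,
      h1, h1, h01, h10, Complex.conj_ofReal]
    linear_combination 2 * hr2C
  · apply norm_one_of_inner
    rw [inner_smul_left, inner_smul_right, inner_sub_left, inner_sub_right, inner_sub_right,
      h1, h1, h01, h10, Complex.conj_ofReal]
    linear_combination 2 * hr2C
  · apply norm_one_of_inner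
    rw [inner_smul_left, inner_smul_right, inner_add_left, inner_add_right, inner_add_right,
      h1, h1, h23, h32, Complex.conj_ofReal]
    linear_combination 2 * hr2C
  · apply norm_one_of_inner
    rw [inner_smul_left, inner_smul_right, inner_sub_left, inner_sub_right, inner_sub_right,
      h1, h1, h23, h32, Complex.conj_ofReal]
    linear_combination 2 * hr2C
  · rw [inner_smul_left, inner_smul_right, inner_add_left, inner_sub_right, inner_sub_right,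
      h1, h1, h01, h10]
    ring
  · rw [inner_smul_left, inner_smul_right, inner_add_left, inner_add_right, inner_add_right,
      h02, h03, h12, h13]
    ring
  · rw [inner_smul_left, inner_smul_right, inner_add_left, inner_sub_right, inner_sub_right,
      h02, h03, h12, h13]
    ring
  · rw [inner_smul_left, inner_smul_right, inner_sub_left, inner_add_right, inner_add_right,
      h02, h03, h12, h13]
    ring
  · rw [inner_smul_left, inner_smul_right, inner_sub_left, inner_sub_right, inner_sub_right,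
      h02, h03, h12, h13]
    ring
  · rw [inner_smul_left, inner_smul_right, inner_add_left, inner_sub_right, inner_sub_right,
      h1, h1, h23, h32]
    ring

/-- Case A: a class of pairwise orthogonal lines. -/
theorem MetNet.typed_of_orth (h : MetNet u c d) (hE : Module.finrank ℂ E = 4) (v : Fin 3)
    (ho : ∀ i i', c i = v → c i' = v → i ≠ i' → ⟪u i, u i'⟫_ℂ = 0) :
    ∃ e, Typed u c v e := by
  classical
  have hs : ∀ x y : E, ⟪x, y⟫_ℂ = 0 → ⟪y, x⟫_ℂ = 0 := by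
    intro x y hxy
    rw [← inner_conj_symm, hxy, map_zero]
  -- `d` is four
  have hd : d = 4 := by
    obtain ⟨i, hi⟩ := h.exists_class v
    have h2 := h.tight v (u i)
    rw [Finset.sum_eq_single i] at h2
    · rw [inner_self_one (h.unit i), one_smul] at h2
      have h3 : (1 - (d : ℂ) / 4) • u i = 0 := by
        rw [sub_smul, one_smul, ← h2, sub_self]
      rcases smul_eq_zero.mp h3 with h4 | h4
      · have h5 : (d : ℂ) = 4 := by linear_combination (-4) * h4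
        exact_mod_cast h5
      · have := h.unit i
        rw [h4, norm_zero] at this
        exact absurd this zero_ne_one
    · intro b hb hb2
      rw [ho b i (mem_filter.mp hb).2 hi hb2, zero_smul]
    · intro hn
      exact (hn (mem_filter.mpr ⟨mem_univ i, hi⟩)).elim
  obtain ⟨σ⟩ : Nonempty (Fin 4 ≃ {i // i ∈ univ.filter (fun i => c i = v)}) :=
    ⟨(Finset.equivFinOfCardEq (by rw [h.card v, hd])).symm⟩
  have hσv : ∀ a, c (σ a : ι) = v := fun a => (mem_filter.mp (σ a).2).2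
  have hσs : ∀ l, c l = v → ∃ a, (σ a : ι) = l := fun l hl =>
    ⟨σ.symm ⟨l, mem_filter.mpr ⟨mem_univ l, hl⟩⟩, by simp⟩
  have hσi : ∀ a a', a ≠ a' → (σ a : ι) ≠ σ a' := fun a a' haa h' =>
    haa (σ.injective (Subtype.ext h'))
  obtain ⟨w, hw, _⟩ := exists_third v v
  obtain ⟨j0, hj0⟩ := h.exists_class w
  have hph : ∀ a : Fin 4, ∃ ω : ℂ, ‖ω‖ = 1 ∧
      ⟪u j0, ω • u (σ a : ι)⟫_ℂ = ((‖⟪u j0, u (σ a : ι)⟫_ℂ‖ : ℝ) : ℂ) :=
    fun a => exists_phase _ _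
  choose ω hω1 hω2 using hph
  have hω0 : ∀ a, ω a ≠ 0 := by
    intro a h0
    have := hω1 a
    rw [h0, norm_zero] at this
    exact zero_ne_one this
  obtain ⟨b, hbdef⟩ : ∃ b : Fin 4 → E, ∀ a, b a = ω a • u (σ a : ι) := ⟨_, fun _ => rfl⟩
  have hborth : Orthonormal ℂ b := by
    constructor
    · intro a
      rw [hbdef, norm_smul, hω1, h.unit, one_mul]
    · intro a a' haa
      change ⟪b a, b a'⟫_ℂ = 0
      rw [hbdef, hbdef, inner_smul_left, inner_smul_right,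
        ho _ _ (hσv a) (hσv a') (hσi a a' haa)]
      ring
  have hbrefl : ∀ a x, refl (u (σ a : ι)) x = refl (b a) x := by
    intro a x
    rw [hbdef, refl_smul_left (hω1 a)]
  -- the sign structure
  obtain ⟨S, hS⟩ : ∃ S : E → Prop, ∀ x, S x ↔ ∃ β : ℂ, ‖β‖ = 1 ∧
      ∀ a, ⟪b a, x⟫_ℂ = β / 2 ∨ ⟪b a, x⟫_ℂ = -(β / 2) := ⟨_, fun _ => Iff.rfl⟩
  have hS0 : S (u j0) := by
    rw [hS]
    refine ⟨1, by simp, fun a => Or.inl ?_⟩
    have h1 : ⟪u j0, b a⟫_ℂ = ((1 / 2 : ℝ) : ℂ) := by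
      rw [hbdef, hω2, sq_half (norm_nonneg _) (h.cross _ _ (by rw [hj0, hσv]; exact hw))]
    rw [← inner_conj_symm, h1, Complex.conj_ofReal]
    push_cast
    ring
  have hSr : ∀ (x : E) (a : Fin 4) (γ : ℂ), ‖γ‖ = 1 → S x → S (γ • refl (b a) x) := by
    intro x a γ hγ hx
    rw [hS] at hx ⊢
    obtain ⟨β, hβ, hx⟩ := hx
    refine ⟨γ * β, by rw [norm_mul, hγ, hβ, one_mul], fun a' => ?_⟩
    rw [inner_smul_right, refl, inner_sub_right, inner_smul_right]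
    by_cases haa : a' = a
    · rw [haa, inner_self_one (hborth.1 a)]
      rcases hx a with h1 | h1
      · right
        rw [h1]
        ring
      · left
        rw [h1]
        ring
    · have h2 : ⟪b a', b a⟫_ℂ = 0 := hborth.2 haa
      rw [h2, mul_zero, sub_zero]
      rcases hx a' with h1 | h1
      · left
        rw [h1]
        ring
      · right
        rw [h1]
        ring
  have hSstep : ∀ j j', c j ≠ v → c j' ≠ v → c j ≠ c j' → S (u j) → S (u j') := by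
    intro j j' hj hj' hjj hSj
    obtain ⟨l, hl, γ, hγ, e⟩ := h.exists_refl hj hj' hjj
    obtain ⟨a, rfl⟩ := hσs l hl
    rw [e, hbrefl]
    exact hSr _ _ _ hγ hSj
  have hSall : ∀ j, c j ≠ v → S (u j) := by
    intro j hj
    have hj0v : c j0 ≠ v := by rw [hj0]; exact hw
    by_cases hjj : c j0 = c j
    · obtain ⟨v', hv', hv''⟩ := exists_third v (c j0)
      obtain ⟨j1, hj1⟩ := h.exists_class v'
      have g1 : c j1 ≠ v := by rw [hj1]; exact hv'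
      have g2 : c j0 ≠ c j1 := by rw [hj1]; exact hv''.symm
      have g3 : c j1 ≠ c j := by rw [← hjj]; exact g2.symm
      exact hSstep j1 j g1 hj g3 (hSstep j0 j1 hj0v g1 g2 hS0)
    · exact hSstep j0 j hj0v hj hjj hS0
  obtain ⟨r, hr, hr2⟩ : ∃ r : ℝ, 0 < r ∧ r ^ 2 = 1 / 2 :=
    ⟨Real.sqrt (1 / 2), Real.sqrt_pos.mpr (by norm_num), Real.sq_sqrt (by norm_num)⟩
  have hcs : ∀ x y z : E, ⟪(r : ℂ) • (x + y), z⟫_ℂ = (r : ℂ) * (⟪x, z⟫_ℂ + ⟪y, z⟫_ℂ) := by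
    intro x y z
    rw [inner_smul_left, inner_add_left, Complex.conj_ofReal]
  have hcs' : ∀ x y z : E, ⟪(r : ℂ) • (x - y), z⟫_ℂ = (r : ℂ) * (⟪x, z⟫_ℂ - ⟪y, z⟫_ℂ) := by
    intro x y z
    rw [inner_smul_left, inner_sub_left, Complex.conj_ofReal]
  have hbl : ∀ a a', a ≠ a' → ⟪b a, u (σ a' : ι)⟫_ℂ = 0 := by
    intro a a' haa
    rw [hbdef, inner_smul_left, ho _ _ (hσv a) (hσv a') (hσi a a' haa), mul_zero]
  have hbl1 : ∀ a, ‖⟪b a, u (σ a : ι)⟫_ℂ‖ = 1 := by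
    intro a
    rw [hbdef, inner_smul_left, inner_self_one (h.unit _), mul_one, Complex.norm_conj, hω1]
  have hhalf : ∀ z : ℂ, ‖z‖ = 1 → ‖(r : ℂ) * z‖ ^ 2 = 1 / 2 := by
    intro z hz
    rw [norm_mul, hz, mul_one, Complex.norm_real, Real.norm_eq_abs, sq_abs, hr2]
  have nz : ∀ z : ℂ, ‖z‖ ^ 2 = 1 / 2 → z ≠ 0 := by
    intro z hz h0
    rw [h0, norm_zero] at hz
    norm_num at hz
  have hcoord : ∀ l, c l = v →
      (‖⟪(r : ℂ) • (b 0 + b 1), u l⟫_ℂ‖ ^ 2 = 1 / 2 ∧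
        ‖⟪(r : ℂ) • (b 0 - b 1), u l⟫_ℂ‖ ^ 2 = 1 / 2 ∧
        ⟪(r : ℂ) • (b 2 + b 3), u l⟫_ℂ = 0 ∧ ⟪(r : ℂ) • (b 2 - b 3), u l⟫_ℂ = 0) ∨
      (⟪(r : ℂ) • (b 0 + b 1), u l⟫_ℂ = 0 ∧ ⟪(r : ℂ) • (b 0 - b 1), u l⟫_ℂ = 0 ∧
        ‖⟪(r : ℂ) • (b 2 + b 3), u l⟫_ℂ‖ ^ 2 = 1 / 2 ∧
        ‖⟪(r : ℂ) • (b 2 - b 3), u l⟫_ℂ‖ ^ 2 = 1 / 2) := by
    intro l hl
    obtain ⟨a, rfl⟩ := hσs l hl
    rw [hcs, hcs', hcs, hcs']
    fin_cases a
    · left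
      change ‖(r : ℂ) * (⟪b 0, u (σ 0 : ι)⟫_ℂ + ⟪b 1, u (σ 0 : ι)⟫_ℂ)‖ ^ 2 = 1 / 2 ∧
        ‖(r : ℂ) * (⟪b 0, u (σ 0 : ι)⟫_ℂ - ⟪b 1, u (σ 0 : ι)⟫_ℂ)‖ ^ 2 = 1 / 2 ∧
        (r : ℂ) * (⟪b 2, u (σ 0 : ι)⟫_ℂ + ⟪b 3, u (σ 0 : ι)⟫_ℂ) = 0 ∧
        (r : ℂ) * (⟪b 2, u (σ 0 : ι)⟫_ℂ - ⟪b 3, u (σ 0 : ι)⟫_ℂ) = 0
      rw [hbl 1 0 (by decide), hbl 2 0 (by decide), hbl 3 0 (by decide), add_zero, sub_zero,
        add_zero, sub_zero, mul_zero]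
      exact ⟨hhalf _ (hbl1 0), hhalf _ (hbl1 0), rfl, rfl⟩
    · left
      change ‖(r : ℂ) * (⟪b 0, u (σ 1 : ι)⟫_ℂ + ⟪b 1, u (σ 1 : ι)⟫_ℂ)‖ ^ 2 = 1 / 2 ∧
        ‖(r : ℂ) * (⟪b 0, u (σ 1 : ι)⟫_ℂ - ⟪b 1, u (σ 1 : ι)⟫_ℂ)‖ ^ 2 = 1 / 2 ∧
        (r : ℂ) * (⟪b 2, u (σ 1 : ι)⟫_ℂ + ⟪b 3, u (σ 1 : ι)⟫_ℂ) = 0 ∧
        (r : ℂ) * (⟪b 2, u (σ 1 : ι)⟫_ℂ - ⟪b 3, u (σ 1 : ι)⟫_ℂ) = 0
      rw [hbl 0 1 (by decide), hbl 2 1 (by decide), hbl 3 1 (by decide), zero_add, zero_sub,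
        add_zero, sub_zero, mul_zero]
      exact ⟨hhalf _ (hbl1 1), hhalf _ (by rw [norm_neg]; exact hbl1 1), rfl, rfl⟩
    · right
      change (r : ℂ) * (⟪b 0, u (σ 2 : ι)⟫_ℂ + ⟪b 1, u (σ 2 : ι)⟫_ℂ) = 0 ∧
        (r : ℂ) * (⟪b 0, u (σ 2 : ι)⟫_ℂ - ⟪b 1, u (σ 2 : ι)⟫_ℂ) = 0 ∧
        ‖(r : ℂ) * (⟪b 2, u (σ 2 : ι)⟫_ℂ + ⟪b 3, u (σ 2 : ι)⟫_ℂ)‖ ^ 2 = 1 / 2 ∧
        ‖(r : ℂ) * (⟪b 2, u (σ 2 : ι)⟫_ℂ - ⟪b 3, u (σ 2 : ι)⟫_ℂ)‖ ^ 2 = 1 / 2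
      rw [hbl 0 2 (by decide), hbl 1 2 (by decide), hbl 3 2 (by decide), add_zero, sub_zero,
        add_zero, sub_zero, mul_zero]
      exact ⟨rfl, rfl, hhalf _ (hbl1 2), hhalf _ (hbl1 2)⟩
    · right
      change (r : ℂ) * (⟪b 0, u (σ 3 : ι)⟫_ℂ + ⟪b 1, u (σ 3 : ι)⟫_ℂ) = 0 ∧
        (r : ℂ) * (⟪b 0, u (σ 3 : ι)⟫_ℂ - ⟪b 1, u (σ 3 : ι)⟫_ℂ) = 0 ∧
        ‖(r : ℂ) * (⟪b 2, u (σ 3 : ι)⟫_ℂ + ⟪b 3, u (σ 3 : ι)⟫_ℂ)‖ ^ 2 = 1 / 2 ∧
        ‖(r : ℂ) * (⟪b 2, u (σ 3 : ι)⟫_ℂ - ⟪b 3, u (σ 3 : ι)⟫_ℂ)‖ ^ 2 = 1 / 2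
      rw [hbl 0 3 (by decide), hbl 1 3 (by decide), hbl 2 3 (by decide), add_zero, sub_zero,
        zero_add, zero_sub, mul_zero]
      exact ⟨rfl, rfl, hhalf _ (hbl1 3), hhalf _ (by rw [norm_neg]; exact hbl1 3)⟩
  refine ⟨_, typed_of_coords (orth_change hborth hr2) hE hcoord ?_ ?_ ?_⟩
  · intro l hl
    obtain ⟨β, hβ, hx⟩ := (hS _).mp (hSall l hl)
    constructor
    · change (⟪(r : ℂ) • (b 0 + b 1), u l⟫_ℂ = 0 ∧
          ‖⟪(r : ℂ) • (b 0 - b 1), u l⟫_ℂ‖ ^ 2 = 1 / 2) ∨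
        (‖⟪(r : ℂ) • (b 0 + b 1), u l⟫_ℂ‖ ^ 2 = 1 / 2 ∧ ⟪(r : ℂ) • (b 0 - b 1), u l⟫_ℂ = 0)
      rw [hcs, hcs']
      exact pm_lemma hr2 hβ (hx 0) (hx 1)
    · change (⟪(r : ℂ) • (b 2 + b 3), u l⟫_ℂ = 0 ∧
          ‖⟪(r : ℂ) • (b 2 - b 3), u l⟫_ℂ‖ ^ 2 = 1 / 2) ∨
        (‖⟪(r : ℂ) • (b 2 + b 3), u l⟫_ℂ‖ ^ 2 = 1 / 2 ∧ ⟪(r : ℂ) • (b 2 - b 3), u l⟫_ℂ = 0)
      rw [hcs, hcs']
      exact pm_lemma hr2 hβ (hx 2) (hx 3)
  · refine ⟨σ 0, hσv 0, ?_⟩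
    change ⟪(r : ℂ) • (b 0 + b 1), u (σ 0 : ι)⟫_ℂ ≠ 0
    rw [hcs, hbl 1 0 (by decide), add_zero]
    exact nz _ (hhalf _ (hbl1 0))
  · refine ⟨σ 2, hσv 2, ?_⟩
    change ⟪(r : ℂ) • (b 2 + b 3), u (σ 2 : ι)⟫_ℂ ≠ 0
    rw [hcs, hbl 3 2 (by decide), add_zero]
    exact nz _ (hhalf _ (hbl1 2))

/-- Every metric net in `ℂ ^ 4` has a typed frame. -/
theorem MetNet.exists_typed (h : MetNet u c d) (hE : Module.finrank ℂ E = 4) :
    ∃ v e, Typed u c v e := by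
  by_cases ho : ∀ i i', c i = 0 → c i' = 0 → i ≠ i' → ⟪u i, u i'⟫_ℂ = 0
  · obtain ⟨e, he⟩ := h.typed_of_orth hE 0 ho
    exact ⟨0, e, he⟩
  · have : ∃ i i', c i = 0 ∧ c i' = 0 ∧ i ≠ i' ∧ ⟪u i, u i'⟫_ℂ ≠ 0 := by
      by_contra hcon
      apply ho
      intro i i' hi hi' hne
      by_contra h1
      exact hcon ⟨i, i', hi, hi', hne, h1⟩
    obtain ⟨i, i', hi, hi', hne, h1⟩ := this
    obtain ⟨e, he⟩ := h.typed_of_nonorth hE (by rw [hi, hi']) hne h1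
    exact ⟨c i, e, he⟩

end Pool.Agent.H284_net4
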