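import Mathlib

/-!
# Finite multiplicatively closed sets of complex numbers are groups of roots of unity
-/

set_option autoImplicit false

namespace Pool.Agent.H284_net4

lemma roots_of_closed {G : Set ℂ} (hfin : G.Finite) (h0 : (0 : ℂ) ∉ G) (h1 : (1 : ℂ) ∈ G)
    (hmul : ∀ x ∈ G, ∀ y ∈ G, x * y ∈ G) (hinv : ∀ x ∈ G, x⁻¹ ∈ G) :
    ∃ n : ℕ, 1 ≤ n ∧ ∀ ζ : ℂ, ζ ∈ G ↔ ζ ^ n = 1 := by
  let H : Subgroup ℂˣ :=
    { carrier := {g | (g : ℂ) ∈ G}
      mul_mem' := fun {a b} ha hb => by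
        change ((a * b : ℂˣ) : ℂ) ∈ G
        rw [Units.val_mul]
        exact hmul _ ha _ hb
      one_mem' := by
        change ((1 : ℂˣ) : ℂ) ∈ G
        rw [Units.val_one]
        exact h1
      inv_mem' := fun {a} ha => by
        change ((a⁻¹ : ℂˣ) : ℂ) ∈ G
        rw [Units.val_inv_eq_inv_val]
        exact hinv _ ha }
  have hH : ∀ g : ℂˣ, g ∈ H ↔ (g : ℂ) ∈ G := fun g => Iff.rfl
  have hHfin : (H : Set ℂˣ).Finite := by
    have h2 : (H : Set ℂˣ) = (fun g : ℂˣ => (g : ℂ)) ⁻¹' G := rfl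
    rw [h2]
    exact hfin.preimage (fun x _ y _ hxy => Units.ext hxy)
  have : Finite H := hHfin.to_subtype
  have hn : Nat.card H ≠ 0 := Nat.card_pos.ne'
  have : NeZero (Nat.card H) := ⟨hn⟩
  have hle : H ≤ rootsOfUnity (Nat.card H) ℂ := by
    intro g hg
    rw [mem_rootsOfUnity]
    have h2 : (⟨g, hg⟩ : H) ^ Nat.card H = 1 := pow_card_eq_one'
    exact congrArg Subtype.val h2
  have heq : H = rootsOfUnity (Nat.card H) ℂ := by
    apply Subgroup.eq_of_le_of_card_ge hle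
    exact card_rootsOfUnity ℂ (Nat.card H)
  refine ⟨Nat.card H, Nat.one_le_iff_ne_zero.mpr hn, fun ζ => ⟨fun hζ => ?_, fun hζ => ?_⟩⟩
  · have hz : ζ ≠ 0 := fun h => h0 (h ▸ hζ)
    have h2 : Units.mk0 ζ hz ∈ H := by
      rw [hH]
      exact hζ
    have h3 := hle h2
    rw [mem_rootsOfUnity] at h3
    have h4 := congrArg Units.val h3
    simpa using h4
  · have hz : ζ ≠ 0 := by
      rintro rfl
      rw [zero_pow hn] at hζ
      exact zero_ne_one hζ
    have h2 : Units.mk0 ζ hz ∈ rootsOfUnity (Nat.card H) ℂ := by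
      rw [mem_rootsOfUnity]
      apply Units.ext
      simpa using hζ
    rw [← heq, hH] at h2
    exact h2

end Pool.Agent.H284_net4
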