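import Mathlib
import Pool.Agent.H284_net4.CaseA
import Pool.Agent.H284_net4.Roots

/-!
# From typed frames to the types of the classes
-/

set_option autoImplicit false

open Finset
open scoped InnerProductSpace

namespace Pool.Agent.H284_net4

variable {ι : Type*} [Fintype ι] {E : Type*} [NormedAddCommGroup E] [InnerProductSpace ℂ E]
variable {u : ι → E} {c : ι → Fin 3} {d : ℕ} {e : Fin 4 → E}

/-- Every line of the class `z` is of one of the types `a p` and `b q`. -/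
def Sp (u : ι → E) (c : ι → Fin 3) (e : Fin 4 → E) (z : Fin 3) (a p b q : Fin 4) : Prop :=
  ∀ l, c l = z →
    (⟪e a, u l⟫_ℂ ≠ 0 ∧ ⟪e p, u l⟫_ℂ ≠ 0 ∧ ⟪e b, u l⟫_ℂ = 0 ∧ ⟪e q, u l⟫_ℂ = 0) ∨
    (⟪e a, u l⟫_ℂ = 0 ∧ ⟪e p, u l⟫_ℂ = 0 ∧ ⟪e b, u l⟫_ℂ ≠ 0 ∧ ⟪e q, u l⟫_ℂ ≠ 0)

/-- A line of the class `x` is spanned by `e a - ζ • e b`. -/
def Has (u : ι → E) (c : ι → Fin 3) (e : Fin 4 → E) (x : Fin 3) (a b : Fin 4) (ζ : ℂ) : Prop :=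
  ∃ l, c l = x ∧ ∃ t : ℂ, t ≠ 0 ∧ u l = t • (e a - ζ • e b)

lemma Sp.comm {z : Fin 3} {a p b q : Fin 4} (h : Sp u c e z a p b q) : Sp u c e z b q a p := by
  intro l hl
  rcases h l hl with ⟨h1, h2, h3, h4⟩ | ⟨h1, h2, h3, h4⟩
  · exact Or.inr ⟨h3, h4, h1, h2⟩
  · exact Or.inl ⟨h3, h4, h1, h2⟩

lemma Sp.swap {z : Fin 3} {a p b q : Fin 4} (h : Sp u c e z a p b q) : Sp u c e z p a q b := by
  intro l hl
  rcases h l hl with ⟨h1, h2, h3, h4⟩ | ⟨h1, h2, h3, h4⟩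
  · exact Or.inl ⟨h2, h1, h4, h3⟩
  · exact Or.inr ⟨h2, h1, h4, h3⟩

lemma Sp.swap' {z : Fin 3} {a p b q : Fin 4} (h : Sp u c e z a p b q) : Sp u c e z a p q b := by
  intro l hl
  rcases h l hl with ⟨h1, h2, h3, h4⟩ | ⟨h1, h2, h3, h4⟩
  · exact Or.inl ⟨h1, h2, h4, h3⟩
  · exact Or.inr ⟨h1, h2, h4, h3⟩

lemma Has.swap {x : Fin 3} {a b : Fin 4} {ζ : ℂ} (hζ : ζ ≠ 0) (h : Has u c e x a b ζ) :
    Has u c e x b a ζ⁻¹ := by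
  obtain ⟨l, hl, t, ht, hu⟩ := h
  refine ⟨l, hl, -(t * ζ), neg_ne_zero.mpr (mul_ne_zero ht hζ), ?_⟩
  have h1 : (-(t * ζ)) • (e b - ζ⁻¹ • e a) = (t * (ζ * ζ⁻¹)) • e a - (t * ζ) • e b := by module
  rw [hu, h1, mul_inv_cancel₀ hζ]
  module

omit [Fintype ι] in
lemma inner_pair (he : Orthonormal ℂ e) {a b : Fin 4} (hab : a ≠ b) (t ζ : ℂ) :
    ⟪e a, t • (e a - ζ • e b)⟫_ℂ = t ∧ ⟪e b, t • (e a - ζ • e b)⟫_ℂ = -(t * ζ) ∧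
      ∀ q, q ≠ a → q ≠ b → ⟪e q, t • (e a - ζ • e b)⟫_ℂ = 0 := by
  have h1 : ∀ a, ⟪e a, e a⟫_ℂ = 1 := fun a => inner_self_one (he.1 a)
  have h0 : ∀ a a', a ≠ a' → ⟪e a, e a'⟫_ℂ = 0 := fun a a' haa => he.2 haa
  refine ⟨?_, ?_, fun q hqa hqb => ?_⟩
  · rw [inner_smul_right, inner_sub_right, inner_smul_right, h1, h0 a b hab]
    ring
  · rw [inner_smul_right, inner_sub_right, inner_smul_right, h1, h0 b a hab.symm]
    ring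
  · rw [inner_smul_right, inner_sub_right, inner_smul_right, h0 q a hqa, h0 q b hqb]
    ring

/-- The triangle relation. -/
lemma MetNet.tri (h : MetNet u c d) (he : Orthonormal ℂ e) {a b p q : Fin 4} (hab : a ≠ b)
    (hap : a ≠ p) (haq : a ≠ q) (hbp : b ≠ p) (hbq : b ≠ q) (hpq : p ≠ q) {x y z : Fin 3}
    (hxy : x ≠ y) (Hz : Sp u c e z a p b q) {ζ ξ : ℂ} (H1 : Has u c e x a b ζ)
    (H2 : Has u c e y b p ξ) : Has u c e z a p (ζ * ξ) := by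
  obtain ⟨l1, hl1, t1, ht1, e1⟩ := H1
  obtain ⟨l2, hl2, t2, ht2, e2⟩ := H2
  obtain ⟨l3, hl3, hmem⟩ := h.net l1 l2 (by rw [hl1, hl2]; exact hxy) z
  rw [Submodule.mem_span_pair] at hmem
  obtain ⟨α, β, hαβ⟩ := hmem
  obtain ⟨f1, f2, f3⟩ := inner_pair he hab t1 ζ
  obtain ⟨g1, g2, g3⟩ := inner_pair he hbp t2 ξ
  rw [← e1] at f1 f2 f3
  rw [← e2] at g1 g2 g3
  have hw : ∀ r, ⟪e r, u l3⟫_ℂ = α * ⟪e r, u l1⟫_ℂ + β * ⟪e r, u l2⟫_ℂ := by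
    intro r
    rw [← hαβ, inner_add_right, inner_smul_right, inner_smul_right]
  rcases Hz l3 hl3 with ⟨k1, k2, k3, k4⟩ | ⟨k1, k2, k3, k4⟩
  · rw [hw, f1, g3 a hab hap, mul_zero, add_zero] at k1
    rw [hw, f2, g1] at k3
    refine ⟨l3, hl3, α * t1, k1, ?_⟩
    have k5 : β * t2 = α * t1 * ζ := by linear_combination k3
    rw [← hαβ, e1, e2]
    have k6 : α • t1 • (e a - ζ • e b) + β • t2 • (e b - ξ • e p) =
        (α * t1) • (e a - ζ • e b) + (β * t2) • (e b - ξ • e p) := by module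
    rw [k6, k5]
    module
  · exfalso
    apply k4
    rw [hw, f3 q haq.symm hbq.symm, g3 q hbq.symm hpq.symm]
    ring

/-- The lines in the classes different from `v`. -/
def Wt (u : ι → E) (e : Fin 4 → E) (l : ι) : Prop :=
  ((⟪e 0, u l⟫_ℂ = 0 ∧ ⟪e 1, u l⟫_ℂ ≠ 0) ∨ (⟪e 0, u l⟫_ℂ ≠ 0 ∧ ⟪e 1, u l⟫_ℂ = 0)) ∧
  ((⟪e 2, u l⟫_ℂ = 0 ∧ ⟪e 3, u l⟫_ℂ ≠ 0) ∨ (⟪e 2, u l⟫_ℂ ≠ 0 ∧ ⟪e 3, u l⟫_ℂ = 0))

omit [Fintype ι] in
lemma Typed.wt {v : Fin 3} (ht : Typed u c v e) {l : ι} (hl : c l ≠ v) : Wt u e l := by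
  obtain ⟨a, b, ha, hb, ζ, t, hζ, ht0, hu⟩ := ht.line_w l hl
  have hζ0 : ζ ≠ 0 := by
    rintro rfl
    rw [norm_zero] at hζ
    exact zero_ne_one hζ
  have hne : -(t * ζ) ≠ 0 := neg_ne_zero.mpr (mul_ne_zero ht0 hζ0)
  rcases ha with rfl | rfl <;> rcases hb with rfl | rfl
  · obtain ⟨f1, f2, f3⟩ := inner_pair ht.orth (a := 0) (b := 2) (by decide) t ζ
    rw [← hu] at f1 f2 f3
    exact ⟨Or.inr ⟨by rw [f1]; exact ht0, f3 1 (by decide) (by decide)⟩,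
      Or.inr ⟨by rw [f2]; exact hne, f3 3 (by decide) (by decide)⟩⟩
  · obtain ⟨f1, f2, f3⟩ := inner_pair ht.orth (a := 0) (b := 3) (by decide) t ζ
    rw [← hu] at f1 f2 f3
    exact ⟨Or.inr ⟨by rw [f1]; exact ht0, f3 1 (by decide) (by decide)⟩,
      Or.inl ⟨f3 2 (by decide) (by decide), by rw [f2]; exact hne⟩⟩
  · obtain ⟨f1, f2, f3⟩ := inner_pair ht.orth (a := 1) (b := 2) (by decide) t ζ
    rw [← hu] at f1 f2 f3
    exact ⟨Or.inl ⟨f3 0 (by decide) (by decide), by rw [f1]; exact ht0⟩,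
      Or.inr ⟨by rw [f2]; exact hne, f3 3 (by decide) (by decide)⟩⟩
  · obtain ⟨f1, f2, f3⟩ := inner_pair ht.orth (a := 1) (b := 3) (by decide) t ζ
    rw [← hu] at f1 f2 f3
    exact ⟨Or.inl ⟨f3 0 (by decide) (by decide), by rw [f1]; exact ht0⟩,
      Or.inl ⟨f3 2 (by decide) (by decide), by rw [f2]; exact hne⟩⟩

omit [Fintype ι] in
lemma Typed.sp {v : Fin 3} (ht : Typed u c v e) : Sp u c e v 0 1 2 3 := by
  intro l hl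
  rcases ht.line_v l hl with ⟨ζ, t, hζ, ht0, hu⟩ | ⟨ζ, t, hζ, ht0, hu⟩
  · left
    have hζ0 : ζ ≠ 0 := by
      rintro rfl
      rw [norm_zero] at hζ
      exact zero_ne_one hζ
    obtain ⟨f1, f2, f3⟩ := inner_pair ht.orth (a := 0) (b := 1) (by decide) t ζ
    rw [← hu] at f1 f2 f3
    exact ⟨by rw [f1]; exact ht0, by rw [f2]; exact neg_ne_zero.mpr (mul_ne_zero ht0 hζ0),
      f3 2 (by decide) (by decide), f3 3 (by decide) (by decide)⟩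
  · right
    have hζ0 : ζ ≠ 0 := by
      rintro rfl
      rw [norm_zero] at hζ
      exact zero_ne_one hζ
    obtain ⟨f1, f2, f3⟩ := inner_pair ht.orth (a := 2) (b := 3) (by decide) t ζ
    rw [← hu] at f1 f2 f3
    exact ⟨f3 0 (by decide) (by decide), f3 1 (by decide) (by decide),
      by rw [f1]; exact ht0, by rw [f2]; exact neg_ne_zero.mpr (mul_ne_zero ht0 hζ0)⟩

/-- A line of the class `x` has zero coordinates `a` and `b`. -/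
def Qz (u : ι → E) (c : ι → Fin 3) (e : Fin 4 → E) (x : Fin 3) (a b : Fin 4) : Prop :=
  ∃ l, c l = x ∧ ⟪e a, u l⟫_ℂ = 0 ∧ ⟪e b, u l⟫_ℂ = 0

/-- A type occurs in one class only. -/
lemma MetNet.type_unique (h : MetNet u c d) {v : Fin 3} (Hv : Sp u c e v 0 1 2 3)
    {a b : Fin 4} (ha : a = 0 ∨ a = 1) (hb : b = 2 ∨ b = 3) {x y : Fin 3}
    (hx : Qz u c e x a b) (hy : Qz u c e y a b) : x = y := by
  by_contra hxy
  obtain ⟨l1, hl1, f1, f2⟩ := hx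
  obtain ⟨l2, hl2, g1, g2⟩ := hy
  obtain ⟨l3, hl3, hmem⟩ := h.net l1 l2 (by rw [hl1, hl2]; exact hxy) v
  rw [Submodule.mem_span_pair] at hmem
  obtain ⟨α, β, hαβ⟩ := hmem
  have hw : ∀ r, ⟪e r, u l3⟫_ℂ = α * ⟪e r, u l1⟫_ℂ + β * ⟪e r, u l2⟫_ℂ := by
    intro r
    rw [← hαβ, inner_add_right, inner_smul_right, inner_smul_right]
  have h1 : ⟪e a, u l3⟫_ℂ = 0 := by rw [hw, f1, g1]; ring
  have h2 : ⟪e b, u l3⟫_ℂ = 0 := by rw [hw, f2, g2]; ring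
  rcases Hv l3 hl3 with ⟨k1, k2, k3, k4⟩ | ⟨k1, k2, k3, k4⟩
  · rcases ha with rfl | rfl
    · exact k1 h1
    · exact k2 h1
  · rcases hb with rfl | rfl
    · exact k3 h2
    · exact k4 h2

lemma MetNet.type_left (h : MetNet u c d) {v : Fin 3} (ht : Typed u c v e)
    {a a' b : Fin 4} (ha : (a = 0 ∧ a' = 1) ∨ (a = 1 ∧ a' = 0)) (hb : b = 2 ∨ b = 3)
    {x y : Fin 3} (hxv : x ≠ v) (hyv : y ≠ v) (hxy : x ≠ y) (hx : Qz u c e x a b) :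
    Qz u c e y a' b := by
  obtain ⟨l2, hl2, ζ, t, hζ, ht0, hu⟩ := ht.ex01
  obtain ⟨f1, f2, f3⟩ := inner_pair ht.orth (a := 0) (b := 1) (by decide) t ζ
  rw [← hu] at f1 f2 f3
  obtain ⟨l1, hl1, g1, g2⟩ := hx
  obtain ⟨l3, hl3, hmem⟩ := h.net l1 l2 (by rw [hl1, hl2]; exact hxv) y
  rw [Submodule.mem_span_pair] at hmem
  obtain ⟨α, β, hαβ⟩ := hmem
  have hw : ∀ r, ⟪e r, u l3⟫_ℂ = α * ⟪e r, u l1⟫_ℂ + β * ⟪e r, u l2⟫_ℂ := by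
    intro r
    rw [← hαβ, inner_add_right, inner_smul_right, inner_smul_right]
  have hb2 : ⟪e b, u l2⟫_ℂ = 0 := by
    rcases hb with rfl | rfl
    · exact f3 2 (by decide) (by decide)
    · exact f3 3 (by decide) (by decide)
  have h2 : ⟪e b, u l3⟫_ℂ = 0 := by rw [hw, g2, hb2]; ring
  have ha0 : a = 0 ∨ a = 1 := by
    rcases ha with ⟨rfl, rfl⟩ | ⟨rfl, rfl⟩
    · exact Or.inl rfl
    · exact Or.inr rfl
  have h3 : ⟪e a, u l3⟫_ℂ ≠ 0 := fun h4 =>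
    hxy (h.type_unique ht.sp ha0 hb ⟨l1, hl1, g1, g2⟩ ⟨l3, hl3, h4, h2⟩)
  have h5 := (ht.wt (l := l3) (by rw [hl3]; exact hyv)).1
  refine ⟨l3, hl3, ?_, h2⟩
  rcases ha with ⟨rfl, rfl⟩ | ⟨rfl, rfl⟩
  · rcases h5 with h6 | h6
    · exact absurd h6.1 h3
    · exact h6.2
  · rcases h5 with h6 | h6
    · exact h6.1
    · exact absurd h6.2 h3

lemma MetNet.type_right (h : MetNet u c d) {v : Fin 3} (ht : Typed u c v e)
    {a b b' : Fin 4} (ha : a = 0 ∨ a = 1) (hb : (b = 2 ∧ b' = 3) ∨ (b = 3 ∧ b' = 2))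
    {x y : Fin 3} (hxv : x ≠ v) (hyv : y ≠ v) (hxy : x ≠ y) (hx : Qz u c e x a b) :
    Qz u c e y a b' := by
  obtain ⟨l2, hl2, ζ, t, hζ, ht0, hu⟩ := ht.ex23
  obtain ⟨f1, f2, f3⟩ := inner_pair ht.orth (a := 2) (b := 3) (by decide) t ζ
  rw [← hu] at f1 f2 f3
  obtain ⟨l1, hl1, g1, g2⟩ := hx
  obtain ⟨l3, hl3, hmem⟩ := h.net l1 l2 (by rw [hl1, hl2]; exact hxv) y
  rw [Submodule.mem_span_pair] at hmem
  obtain ⟨α, β, hαβ⟩ := hmem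
  have hw : ∀ r, ⟪e r, u l3⟫_ℂ = α * ⟪e r, u l1⟫_ℂ + β * ⟪e r, u l2⟫_ℂ := by
    intro r
    rw [← hαβ, inner_add_right, inner_smul_right, inner_smul_right]
  have ha2 : ⟪e a, u l2⟫_ℂ = 0 := by
    rcases ha with rfl | rfl
    · exact f3 0 (by decide) (by decide)
    · exact f3 1 (by decide) (by decide)
  have h2 : ⟪e a, u l3⟫_ℂ = 0 := by rw [hw, g1, ha2]; ring
  have hb0 : b = 2 ∨ b = 3 := by
    rcases hb with ⟨rfl, rfl⟩ | ⟨rfl, rfl⟩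
    · exact Or.inl rfl
    · exact Or.inr rfl
  have h3 : ⟪e b, u l3⟫_ℂ ≠ 0 := fun h4 =>
    hxy (h.type_unique ht.sp ha hb0 ⟨l1, hl1, g1, g2⟩ ⟨l3, hl3, h2, h4⟩)
  have h5 := (ht.wt (l := l3) (by rw [hl3]; exact hyv)).2
  refine ⟨l3, hl3, h2, ?_⟩
  rcases hb with ⟨rfl, rfl⟩ | ⟨rfl, rfl⟩
  · rcases h5 with h6 | h6
    · exact absurd h6.1 h3
    · exact h6.2
  · rcases h5 with h6 | h6
    · exact h6.1
    · exact absurd h6.2 h3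

/-- The types of the three classes. -/
lemma MetNet.exists_types (h : MetNet u c d) {v : Fin 3} (ht : Typed u c v e) :
    ∃ w1 w2 : Fin 3, w1 ≠ v ∧ w2 ≠ v ∧ w1 ≠ w2 ∧ Sp u c e v 0 1 2 3 ∧
      Sp u c e w1 0 2 1 3 ∧ Sp u c e w2 0 3 1 2 ∧
      (∃ l, c l = w1 ∧ ⟪e 0, u l⟫_ℂ ≠ 0 ∧ ⟪e 2, u l⟫_ℂ ≠ 0) := by
  -- the type `02` occurs in a class
  have hstart : ∃ w1, w1 ≠ v ∧ Qz u c e w1 1 3 := by
    obtain ⟨x, hx, _⟩ := exists_third v v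
    obtain ⟨y, hyv, hyx⟩ := exists_third v x
    obtain ⟨j, hj⟩ := h.exists_class x
    have hw := ht.wt (l := j) (by rw [hj]; exact hx)
    obtain ⟨h1, h2⟩ := hw
    rcases h1 with h1 | h1 <;> rcases h2 with h2 | h2
    · -- zeros 0, 2
      have g1 : Qz u c e x 0 2 := ⟨j, hj, h1.1, h2.1⟩
      have g2 : Qz u c e y 1 2 :=
        h.type_left ht (Or.inl ⟨rfl, rfl⟩) (Or.inl rfl) hx hyv hyx.symm g1
      exact ⟨x, hx, h.type_right ht (Or.inr rfl) (Or.inl ⟨rfl, rfl⟩) hyv hx hyx g2⟩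
    · have g1 : Qz u c e x 0 3 := ⟨j, hj, h1.1, h2.2⟩
      exact ⟨y, hyv, h.type_left ht (Or.inl ⟨rfl, rfl⟩) (Or.inr rfl) hx hyv hyx.symm g1⟩
    · have g1 : Qz u c e x 1 2 := ⟨j, hj, h1.2, h2.1⟩
      exact ⟨y, hyv, h.type_right ht (Or.inr rfl) (Or.inl ⟨rfl, rfl⟩) hx hyv hyx.symm g1⟩
    · exact ⟨x, hx, j, hj, h1.2, h2.2⟩
  obtain ⟨w1, hw1, q13⟩ := hstart
  obtain ⟨w2, hw2v, hw21⟩ := exists_third v w1
  have q03 : Qz u c e w2 0 3 :=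
    h.type_left ht (Or.inr ⟨rfl, rfl⟩) (Or.inr rfl) hw1 hw2v hw21.symm q13
  have q12 : Qz u c e w2 1 2 :=
    h.type_right ht (Or.inr rfl) (Or.inr ⟨rfl, rfl⟩) hw1 hw2v hw21.symm q13
  have q02 : Qz u c e w1 0 2 :=
    h.type_left ht (Or.inr ⟨rfl, rfl⟩) (Or.inl rfl) hw2v hw1 hw21 q12
  refine ⟨w1, w2, hw1, hw2v, hw21.symm, ht.sp, ?_, ?_, ?_⟩
  · intro l hl
    obtain ⟨h1, h2⟩ := ht.wt (l := l) (by rw [hl]; exact hw1)
    rcases h1 with h1 | h1 <;> rcases h2 with h2 | h2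
    · exact Or.inr ⟨h1.1, h2.1, h1.2, h2.2⟩
    · exact absurd (h.type_unique ht.sp (Or.inl rfl) (Or.inr rfl) q03 ⟨l, hl, h1.1, h2.2⟩) hw21
    · exact absurd (h.type_unique ht.sp (Or.inr rfl) (Or.inl rfl) q12 ⟨l, hl, h1.2, h2.1⟩) hw21
    · exact Or.inl ⟨h1.1, h2.1, h1.2, h2.2⟩
  · intro l hl
    obtain ⟨h1, h2⟩ := ht.wt (l := l) (by rw [hl]; exact hw2v)
    rcases h1 with h1 | h1 <;> rcases h2 with h2 | h2
    · exact absurd (h.type_unique ht.sp (Or.inl rfl) (Or.inl rfl) ⟨l, hl, h1.1, h2.1⟩ q02) hw21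
    · exact Or.inr ⟨h1.1, h2.2, h1.2, h2.1⟩
    · exact Or.inl ⟨h1.1, h2.2, h1.2, h2.1⟩
    · exact absurd (h.type_unique ht.sp (Or.inr rfl) (Or.inr rfl) ⟨l, hl, h1.2, h2.2⟩ q13) hw21
  · obtain ⟨l, hl, g1, g2⟩ := q13
    obtain ⟨h1, h2⟩ := ht.wt (l := l) (by rw [hl]; exact hw1)
    refine ⟨l, hl, ?_, ?_⟩
    · rcases h1 with h1 | h1
      · exact absurd g1 h1.2
      · exact h1.1
    · rcases h2 with h2 | h2
      · exact absurd g2 h2.2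
      · exact h2.1

end Pool.Agent.H284_net4
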