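import Mathlib
import Pool.Agent.H284_net4.Types

/-!
# The standard form of a metric net
-/

set_option autoImplicit false

open Finset
open scoped InnerProductSpace

namespace Pool.Agent.H284_net4

variable {ι : Type*} [Fintype ι] {E : Type*} [NormedAddCommGroup E] [InnerProductSpace ℂ E]
variable {u : ι → E} {c : ι → Fin 3} {d : ℕ} {e : Fin 4 → E}

omit [Fintype ι] in
lemma has_scale {μ : Fin 4 → ℂ} (hμ : ∀ a, μ a ≠ 0) {x : Fin 3} {a p : Fin 4} {g : ℂ} :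
    Has u c (fun a => μ a • e a) x a p g ↔ Has u c e x a p (g * μ p / μ a) := by
  constructor
  · rintro ⟨l, hl, t, ht, hu⟩
    refine ⟨l, hl, t * μ a, mul_ne_zero ht (hμ a), ?_⟩
    have h1 : (t * μ a) • (e a - (g * μ p / μ a) • e p) =
        (t * μ a) • e a - (t * (μ a * (g * μ p / μ a))) • e p := by module
    rw [hu, h1, mul_div_cancel₀ _ (hμ a)]
    module
  · rintro ⟨l, hl, t, ht, hu⟩
    refine ⟨l, hl, t / μ a, div_ne_zero ht (hμ a), ?_⟩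
    have h1 : (t / μ a) • (μ a • e a - g • μ p • e p) =
        (t / μ a * μ a) • e a - (t / μ a * (g * μ p)) • e p := by module
    change u l = (t / μ a) • (μ a • e a - g • μ p • e p)
    rw [hu, h1, div_mul_cancel₀ _ (hμ a)]
    have h2 : t / μ a * (g * μ p) = t * (g * μ p / μ a) := by ring
    rw [h2]
    module

/-- The triangle relation in a rescaled basis. -/
lemma MetNet.tri' (h : MetNet u c d) (he : Orthonormal ℂ e) {μ : Fin 4 → ℂ}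
    (hμ : ∀ a, μ a ≠ 0) {a b p q : Fin 4} (hd : a ≠ b ∧ a ≠ p ∧ a ≠ q ∧ b ≠ p ∧ b ≠ q ∧ p ≠ q)
    {x y z : Fin 3} (hxy : x ≠ y) (Hz : Sp u c e z a p b q) {ζ ξ : ℂ}
    (H1 : Has u c (fun a => μ a • e a) x a b ζ) (H2 : Has u c (fun a => μ a • e a) y b p ξ) :
    Has u c (fun a => μ a • e a) z a p (ζ * ξ) := by
  rw [has_scale hμ] at H1 H2 ⊢
  have h1 := h.tri he hd.1 hd.2.1 hd.2.2.1 hd.2.2.2.1 hd.2.2.2.2.1 hd.2.2.2.2.2 hxy Hz H1 H2
  have h2 : ζ * μ b / μ a * (ξ * μ p / μ b) = ζ * ξ * μ p / μ a := by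
    have := hμ a
    have := hμ b
    field_simp
  rwa [h2] at h1

omit [Fintype ι] in
lemma supp_form (he : Orthonormal ℂ e) (hE : Module.finrank ℂ E = 4) {a p b q : Fin 4}
    (hd : a ≠ b ∧ a ≠ p ∧ a ≠ q ∧ b ≠ p ∧ b ≠ q ∧ p ≠ q) {w : E} (h1 : ⟪e a, w⟫_ℂ ≠ 0)
    (h2 : ⟪e p, w⟫_ℂ ≠ 0) (h3 : ⟪e b, w⟫_ℂ = 0) (h4 : ⟪e q, w⟫_ℂ = 0) :
    ∃ ζ t : ℂ, ζ ≠ 0 ∧ t ≠ 0 ∧ w = t • (e a - ζ • e p) := by
  refine ⟨-(⟪e p, w⟫_ℂ / ⟪e a, w⟫_ℂ), ⟪e a, w⟫_ℂ, neg_ne_zero.mpr (div_ne_zero h2 h1), h1, ?_⟩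
  obtain ⟨ζ, hζ⟩ : ∃ ζ, ζ = -(⟪e p, w⟫_ℂ / ⟪e a, w⟫_ℂ) := ⟨_, rfl⟩
  obtain ⟨t, ht⟩ : ∃ t, t = ⟪e a, w⟫_ℂ := ⟨_, rfl⟩
  rw [← hζ, ← ht]
  obtain ⟨hab, hap, haq, hbp, hbq, hpq⟩ := hd
  obtain ⟨f1, f2, f3⟩ := inner_pair he hap t ζ
  have hz : ∀ r, ⟪e r, w - t • (e a - ζ • e p)⟫_ℂ = 0 := by
    intro r
    have hr : r = a ∨ r = p ∨ r = b ∨ r = q := by omega
    rw [inner_sub_right]
    rcases hr with rfl | rfl | rfl | rfl
    · rw [f1, ht, sub_self]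
    · rw [f2, hζ, ht]
      field_simp
      ring
    · rw [f3 r hab.symm hbp, h3, sub_zero]
    · rw [f3 r haq.symm hpq.symm, h4, sub_zero]
  have h5 := expand he hE (w - t • (e a - ζ • e p))
  rw [hz, hz, hz, hz] at h5
  rw [← sub_eq_zero, h5]
  module

lemma exists_perm (v w1 w2 : Fin 3) (h1 : w1 ≠ v) (h2 : w2 ≠ v) (h3 : w1 ≠ w2) :
    ∃ σ : Equiv.Perm (Fin 3), σ v = 0 ∧ σ w1 = 1 ∧ σ w2 = 2 := by
  revert v w1 w2
  decide

/-- The standard form: up to the choice of a basis and the names of the classes, the lines are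
those of the arrangement `Q_n`. -/
theorem MetNet.exists_std (h : MetNet u c d) (hE : Module.finrank ℂ E = 4) {v : Fin 3}
    (ht : Typed u c v e) :
    ∃ n : ℕ, 2 ≤ n ∧ ∃ b : Fin 4 → E, LinearIndependent ℂ b ∧ ∃ σ : Equiv.Perm (Fin 3),
      (∀ l, ∃ p ∈ pairs (σ (c l)), ∃ ζ t : ℂ, ζ ^ n = 1 ∧ t ≠ 0 ∧
        u l = t • (b p.1 - ζ • b p.2)) ∧
      (∀ x, ∀ p ∈ pairs (σ x), ∀ ζ : ℂ, ζ ^ n = 1 → ∃ l, c l = x ∧ ∃ t : ℂ, t ≠ 0 ∧
        u l = t • (b p.1 - ζ • b p.2)) := by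
  classical
  have he := ht.orth
  obtain ⟨w1, w2, hw1, hw2, hw12, Sv, Sw1, Sw2, l02, hl02, k0, k2⟩ := h.exists_types ht
  -- three lines
  obtain ⟨l01, hl01, z0, t1, hz0, ht1, hu1⟩ := ht.ex01
  obtain ⟨l23, hl23, w0, t3, hw0, ht3, hu3⟩ := ht.ex23
  have nz : ∀ ζ : ℂ, ‖ζ‖ = 1 → ζ ≠ 0 := by
    rintro ζ hζ rfl
    rw [norm_zero] at hζ
    exact zero_ne_one hζ
  have hz0' := nz _ hz0
  have hw0' := nz _ hw0
  have hk : ⟪e 1, u l02⟫_ℂ = 0 ∧ ⟪e 3, u l02⟫_ℂ = 0 := by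
    rcases Sw1 l02 hl02 with ⟨_, _, g3, g4⟩ | ⟨g1, _, _, _⟩
    · exact ⟨g3, g4⟩
    · exact absurd g1 k0
  obtain ⟨y0, t2, hy0, ht2, hu2⟩ := supp_form he hE (a := 0) (p := 2) (b := 1) (q := 3)
    (by decide) k0 k2 hk.1 hk.2
  -- the new basis
  obtain ⟨μ, hμdef⟩ : ∃ μ : Fin 4 → ℂ, μ = ![1, z0, y0, y0 * w0] := ⟨_, rfl⟩
  have hμ0 : μ 0 = 1 := by rw [hμdef]; rfl
  have hμ1 : μ 1 = z0 := by rw [hμdef]; rfl
  have hμ2 : μ 2 = y0 := by rw [hμdef]; rfl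
  have hμ3 : μ 3 = y0 * w0 := by rw [hμdef]; rfl
  have hμ : ∀ a, μ a ≠ 0 := by
    intro a
    fin_cases a
    · change μ 0 ≠ 0
      rw [hμ0]; exact one_ne_zero
    · change μ 1 ≠ 0
      rw [hμ1]; exact hz0'
    · change μ 2 ≠ 0
      rw [hμ2]; exact hy0
    · change μ 3 ≠ 0
      rw [hμ3]; exact mul_ne_zero hy0 hw0'
  obtain ⟨b, hb⟩ : ∃ b : Fin 4 → E, b = fun a => μ a • e a := ⟨_, rfl⟩
  have tri : ∀ a b' p q : Fin 4, (a ≠ b' ∧ a ≠ p ∧ a ≠ q ∧ b' ≠ p ∧ b' ≠ q ∧ p ≠ q) →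
      ∀ x y z : Fin 3, x ≠ y → Sp u c e z a p b' q → ∀ ζ ξ : ℂ, Has u c b x a b' ζ →
      Has u c b y b' p ξ → Has u c b z a p (ζ * ξ) := by
    intro a b' p q hd x y z hxy Hz ζ ξ H1 H2
    rw [hb] at H1 H2 ⊢
    exact h.tri' he hμ hd hxy Hz H1 H2
  -- the lines with value one
  have A01 : Has u c b v 0 1 1 := by
    rw [hb, has_scale hμ, hμ0, hμ1, one_mul, div_one]
    exact ⟨l01, hl01, t1, ht1, hu1⟩
  have A02 : Has u c b w1 0 2 1 := by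
    rw [hb, has_scale hμ, hμ0, hμ2, one_mul, div_one]
    exact ⟨l02, hl02, t2, ht2, hu2⟩
  have A23 : Has u c b v 2 3 1 := by
    rw [hb, has_scale hμ, hμ2, hμ3, one_mul, mul_div_cancel_left₀ _ hy0]
    exact ⟨l23, hl23, t3, ht3, hu3⟩
  have A10 : Has u c b v 1 0 1 := by
    have := A01.swap one_ne_zero
    rwa [inv_one] at this
  have A32 : Has u c b v 3 2 1 := by
    have := A23.swap one_ne_zero
    rwa [inv_one] at this
  have A20 : Has u c b w1 2 0 1 := by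
    have := A02.swap one_ne_zero
    rwa [inv_one] at this
  have A12 : Has u c b w2 1 2 1 := by
    have := tri 1 0 2 3 (by decide) v w1 w2 hw1.symm Sw2.comm 1 1 A10 A02
    rwa [one_mul] at this
  have A21 : Has u c b w2 2 1 1 := by
    have := A12.swap one_ne_zero
    rwa [inv_one] at this
  -- all types have the same set of values
  have e02 : ∀ g, Has u c b v 0 1 g → Has u c b w1 0 2 g := by
    intro g hg
    have := tri 0 1 2 3 (by decide) v w2 w1 hw2.symm Sw1 g 1 hg A12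
    rwa [mul_one] at this
  have e02' : ∀ g, Has u c b w1 0 2 g → Has u c b v 0 1 g := by
    intro g hg
    have := tri 0 2 1 3 (by decide) w1 w2 v hw12 Sv g 1 hg A21
    rwa [mul_one] at this
  have e03 : ∀ g, Has u c b w1 0 2 g → Has u c b w2 0 3 g := by
    intro g hg
    have := tri 0 2 3 1 (by decide) w1 v w2 hw1 Sw2.swap' g 1 hg A23
    rwa [mul_one] at this
  have e03' : ∀ g, Has u c b w2 0 3 g → Has u c b w1 0 2 g := by
    intro g hg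
    have := tri 0 3 2 1 (by decide) w2 v w1 hw2 Sw1.swap' g 1 hg A32
    rwa [mul_one] at this
  have e12 : ∀ g, Has u c b w1 0 2 g → Has u c b w2 1 2 g := by
    intro g hg
    have := tri 1 0 2 3 (by decide) v w1 w2 hw1.symm Sw2.comm 1 g A10 hg
    rwa [one_mul] at this
  have e12' : ∀ g, Has u c b w2 1 2 g → Has u c b w1 0 2 g := by
    intro g hg
    have := tri 0 1 2 3 (by decide) v w2 w1 hw2.symm Sw1 1 g A01 hg
    rwa [one_mul] at this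
  have e13 : ∀ g, Has u c b w2 1 2 g → Has u c b w1 1 3 g := by
    intro g hg
    have := tri 1 2 3 0 (by decide) w2 v w1 hw2 Sw1.comm.swap' g 1 hg A23
    rwa [mul_one] at this
  have e13' : ∀ g, Has u c b w1 1 3 g → Has u c b w2 1 2 g := by
    intro g hg
    have := tri 1 3 2 0 (by decide) w1 v w2 hw1 Sw2.comm.swap' g 1 hg A32
    rwa [mul_one] at this
  have e23 : ∀ g, Has u c b w2 0 3 g → Has u c b v 2 3 g := by
    intro g hg
    have := tri 2 0 3 1 (by decide) w1 w2 v hw12 Sv.comm 1 g A20 hg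
    rwa [one_mul] at this
  have e23' : ∀ g, Has u c b v 2 3 g → Has u c b w2 0 3 g := by
    intro g hg
    have := tri 0 2 3 1 (by decide) w1 v w2 hw1 Sw2.swap' 1 g A02 hg
    rwa [one_mul] at this
  -- the group
  obtain ⟨G, hG⟩ : ∃ G : Set ℂ, ∀ g, g ∈ G ↔ Has u c b v 0 1 g := ⟨_, fun _ => Iff.rfl⟩
  have hfin : G.Finite := by
    apply (Set.finite_range (fun l : ι => -(⟪e 1, u l⟫_ℂ / ⟪e 0, u l⟫_ℂ) * (μ 0 / μ 1))).subset
    intro g hg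
    rw [hG, hb, has_scale hμ] at hg
    obtain ⟨l, hl, t, ht0, hu⟩ := hg
    refine ⟨l, ?_⟩
    obtain ⟨f1, f2, _⟩ := inner_pair he (a := 0) (b := 1) (by decide) t (g * μ 1 / μ 0)
    rw [← hu] at f1 f2
    change -(⟪e 1, u l⟫_ℂ / ⟪e 0, u l⟫_ℂ) * (μ 0 / μ 1) = g
    rw [f1, f2]
    have g0 := hμ 0
    have g1 := hμ 1
    field_simp
  have hG0 : (0 : ℂ) ∉ G := by
    intro h0
    rw [hG, hb, has_scale hμ] at h0
    obtain ⟨l, hl, t, ht0, hu⟩ := h0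
    obtain ⟨f1, f2, _⟩ := inner_pair he (a := 0) (b := 1) (by decide) t (0 * μ 1 / μ 0)
    rw [← hu] at f1 f2
    rw [zero_mul, zero_div, mul_zero, neg_zero] at f2
    rcases Sv l hl with ⟨_, g2, _, _⟩ | ⟨g1, _, _, _⟩
    · exact g2 f2
    · rw [f1] at g1
      exact ht0 g1
  obtain ⟨n, hn1, hn⟩ := roots_of_closed hfin hG0 ((hG 1).mpr A01)
    (fun x hx y hy => by
      rw [hG] at hx hy ⊢
      exact e02' _ (tri 0 1 2 3 (by decide) v w2 w1 hw2.symm Sw1 x y hx (e12 _ (e02 _ hy))))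
    (fun x hx => by
      have hx0 : x ≠ 0 := fun h' => hG0 (h' ▸ hx)
      rw [hG] at hx ⊢
      have h1 := tri 1 0 2 3 (by decide) v w1 w2 hw1.symm Sw2.comm x⁻¹ 1 (hx.swap hx0) A02
      rw [mul_one] at h1
      exact e02' _ (e12' _ h1))
  have G01 : ∀ g, Has u c b v 0 1 g ↔ g ^ n = 1 := fun g => by rw [← hG, hn]
  have G02 : ∀ g, Has u c b w1 0 2 g ↔ g ^ n = 1 := fun g =>
    ⟨fun h' => (G01 g).mp (e02' g h'), fun h' => e02 g ((G01 g).mpr h')⟩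
  have G03 : ∀ g, Has u c b w2 0 3 g ↔ g ^ n = 1 := fun g =>
    ⟨fun h' => (G02 g).mp (e03' g h'), fun h' => e03 g ((G02 g).mpr h')⟩
  have G12 : ∀ g, Has u c b w2 1 2 g ↔ g ^ n = 1 := fun g =>
    ⟨fun h' => (G02 g).mp (e12' g h'), fun h' => e12 g ((G02 g).mpr h')⟩
  have G13 : ∀ g, Has u c b w1 1 3 g ↔ g ^ n = 1 := fun g =>
    ⟨fun h' => (G12 g).mp (e13' g h'), fun h' => e13 g ((G12 g).mpr h')⟩
  have G23 : ∀ g, Has u c b v 2 3 g ↔ g ^ n = 1 := fun g =>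
    ⟨fun h' => (G03 g).mp (e23' g h'), fun h' => e23 g ((G03 g).mpr h')⟩
  -- the form of one line
  have form : ∀ a p b' q : Fin 4, (a ≠ b' ∧ a ≠ p ∧ a ≠ q ∧ b' ≠ p ∧ b' ≠ q ∧ p ≠ q) →
      ∀ l, ⟪e a, u l⟫_ℂ ≠ 0 → ⟪e p, u l⟫_ℂ ≠ 0 → ⟪e b', u l⟫_ℂ = 0 → ⟪e q, u l⟫_ℂ = 0 →
      ∃ ζ t : ℂ, t ≠ 0 ∧ u l = t • (b a - ζ • b p) := by
    intro a p b' q hd l g1 g2 g3 g4
    obtain ⟨ζ, t, hζ, ht0, hu⟩ := supp_form he hE hd g1 g2 g3 g4
    refine ⟨ζ * μ a / μ p, t / μ a, div_ne_zero ht0 (hμ a), ?_⟩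
    rw [hb]
    change u l = (t / μ a) • (μ a • e a - (ζ * μ a / μ p) • μ p • e p)
    have h1 : (t / μ a) • (μ a • e a - (ζ * μ a / μ p) • μ p • e p) =
        (t / μ a * μ a) • e a - (t / μ a * (ζ * μ a / μ p * μ p)) • e p := by module
    rw [h1, div_mul_cancel₀ _ (hμ a), div_mul_cancel₀ _ (hμ p), hu]
    have h2 : t / μ a * (ζ * μ a) = t * ζ := by
      have := hμ a
      field_simp
    rw [h2]
    module
  have hbli : LinearIndependent ℂ b := by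
    rw [hb]
    have h1 := he.linearIndependent.units_smul (fun a => Units.mk0 (μ a) (hμ a))
    exact h1
  -- the lines of the class `v`
  have hclv : ∀ l, c l = v → (∃ ζ t : ℂ, ζ ^ n = 1 ∧ t ≠ 0 ∧ u l = t • (b 0 - ζ • b 1)) ∨
      (∃ ζ t : ℂ, ζ ^ n = 1 ∧ t ≠ 0 ∧ u l = t • (b 2 - ζ • b 3)) := by
    intro l hl
    rcases Sv l hl with ⟨g1, g2, g3, g4⟩ | ⟨g1, g2, g3, g4⟩
    · obtain ⟨ζ, t, ht0, hu⟩ := form 0 1 2 3 (by decide) l g1 g2 g3 g4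
      exact Or.inl ⟨ζ, t, (G01 ζ).mp ⟨l, hl, t, ht0, hu⟩, ht0, hu⟩
    · obtain ⟨ζ, t, ht0, hu⟩ := form 2 3 0 1 (by decide) l g3 g4 g1 g2
      exact Or.inr ⟨ζ, t, (G23 ζ).mp ⟨l, hl, t, ht0, hu⟩, ht0, hu⟩
  have hn2 : 2 ≤ n := by
    by_contra hcon
    have hn1' : n = 1 := by omega
    have hpar : ∀ x : E, ∀ l l' : ι, (∃ t : ℂ, t ≠ 0 ∧ u l = t • x) →
        (∃ t : ℂ, t ≠ 0 ∧ u l' = t • x) → l = l' := by
      rintro x l l' ⟨t, ht0, hu⟩ ⟨t', ht0', hu'⟩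
      by_contra hne
      have h1 := h.indep l l' hne
      rw [LinearIndependent.pair_iff] at h1
      have h2 := h1 t' (-t) (by rw [hu, hu']; module)
      exact ht0' h2.1
    have hsub : (univ.filter (fun i => c i = v)) ⊆ {l01, l23} := by
      intro l hl
      have hl' := (mem_filter.mp hl).2
      rw [mem_insert, mem_singleton]
      have g1 : ∀ ζ : ℂ, ζ ^ n = 1 → ζ = 1 := by
        intro ζ hζ
        rwa [hn1', pow_one] at hζ
      have q1 : ∃ t : ℂ, t ≠ 0 ∧ u l01 = t • (b 0 - (1 : ℂ) • b 1) := by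
        rcases hclv l01 hl01 with ⟨ζ, t, hζ, ht0, hu⟩ | ⟨ζ, t, hζ, ht0, hu⟩
        · rw [g1 ζ hζ] at hu
          exact ⟨t, ht0, hu⟩
        · exfalso
          obtain ⟨f1, f2, f3⟩ := inner_pair he (a := 0) (b := 1) (by decide) t1 z0
          rw [← hu1] at f1
          rw [hu, hb] at f1
          change ⟪e 0, t • (μ 2 • e 2 - ζ • μ 3 • e 3)⟫_ℂ = t1 at f1
          rw [inner_smul_right, inner_sub_right, inner_smul_right, inner_smul_right,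
            inner_smul_right, he.2 (by decide : (0 : Fin 4) ≠ 2),
            he.2 (by decide : (0 : Fin 4) ≠ 3)] at f1
          apply ht1
          rw [← f1]
          ring
      have q3 : ∃ t : ℂ, t ≠ 0 ∧ u l23 = t • (b 2 - (1 : ℂ) • b 3) := by
        rcases hclv l23 hl23 with ⟨ζ, t, hζ, ht0, hu⟩ | ⟨ζ, t, hζ, ht0, hu⟩
        · exfalso
          obtain ⟨f1, f2, f3⟩ := inner_pair he (a := 2) (b := 3) (by decide) t3 w0
          rw [← hu3] at f1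
          rw [hu, hb] at f1
          change ⟪e 2, t • (μ 0 • e 0 - ζ • μ 1 • e 1)⟫_ℂ = t3 at f1
          rw [inner_smul_right, inner_sub_right, inner_smul_right, inner_smul_right,
            inner_smul_right, he.2 (by decide : (2 : Fin 4) ≠ 0),
            he.2 (by decide : (2 : Fin 4) ≠ 1)] at f1
          apply ht3
          rw [← f1]
          ring
        · rw [g1 ζ hζ] at hu
          exact ⟨t, ht0, hu⟩
      rcases hclv l hl' with ⟨ζ, t, hζ, ht0, hu⟩ | ⟨ζ, t, hζ, ht0, hu⟩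
      · left
        rw [g1 ζ hζ] at hu
        exact hpar _ _ _ ⟨t, ht0, hu⟩ q1
      · right
        rw [g1 ζ hζ] at hu
        exact hpar _ _ _ ⟨t, ht0, hu⟩ q3
    have h1 := card_le_card hsub
    rw [h.card v] at h1
    have h2 := card_le_two (a := l01) (b := l23)
    have h3 := h.four
    omega
  obtain ⟨σ, s0, s1, s2⟩ := exists_perm v w1 w2 hw1 hw2 hw12
  have hcls : ∀ x : Fin 3, x = v ∨ x = w1 ∨ x = w2 := by
    intro x
    omega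
  refine ⟨n, hn2, b, hbli, σ, ?_, ?_⟩
  · intro l
    rcases hcls (c l) with hl | hl | hl
    · rw [hl, s0]
      rcases hclv l hl with h1 | h1
      · exact ⟨(0, 1), by decide, h1⟩
      · exact ⟨(2, 3), by decide, h1⟩
    · rw [hl, s1]
      rcases Sw1 l hl with ⟨g1, g2, g3, g4⟩ | ⟨g1, g2, g3, g4⟩
      · obtain ⟨ζ, t, ht0, hu⟩ := form 0 2 1 3 (by decide) l g1 g2 g3 g4
        exact ⟨(0, 2), by decide, ζ, t, (G02 ζ).mp ⟨l, hl, t, ht0, hu⟩, ht0, hu⟩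
      · obtain ⟨ζ, t, ht0, hu⟩ := form 1 3 0 2 (by decide) l g3 g4 g1 g2
        exact ⟨(1, 3), by decide, ζ, t, (G13 ζ).mp ⟨l, hl, t, ht0, hu⟩, ht0, hu⟩
    · rw [hl, s2]
      rcases Sw2 l hl with ⟨g1, g2, g3, g4⟩ | ⟨g1, g2, g3, g4⟩
      · obtain ⟨ζ, t, ht0, hu⟩ := form 0 3 1 2 (by decide) l g1 g2 g3 g4
        exact ⟨(0, 3), by decide, ζ, t, (G03 ζ).mp ⟨l, hl, t, ht0, hu⟩, ht0, hu⟩
      · obtain ⟨ζ, t, ht0, hu⟩ := form 1 2 0 3 (by decide) l g3 g4 g1 g2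
        exact ⟨(1, 2), by decide, ζ, t, (G12 ζ).mp ⟨l, hl, t, ht0, hu⟩, ht0, hu⟩
  · intro x p hp ζ hζ
    rcases hcls x with rfl | rfl | rfl
    · rw [s0] at hp
      have hp' : p = (0, 1) ∨ p = (2, 3) := by simpa [pairs] using hp
      rcases hp' with rfl | rfl
      · exact (G01 ζ).mpr hζ
      · exact (G23 ζ).mpr hζ
    · rw [s1] at hp
      have hp' : p = (0, 2) ∨ p = (1, 3) := by simpa [pairs] using hp
      rcases hp' with rfl | rfl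
      · exact (G02 ζ).mpr hζ
      · exact (G13 ζ).mpr hζ
    · rw [s2] at hp
      have hp' : p = (0, 3) ∨ p = (1, 2) := by simpa [pairs] using hp
      rcases hp' with rfl | rfl
      · exact (G03 ζ).mpr hζ
      · exact (G12 ζ).mpr hζ

end Pool.Agent.H284_net4
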