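import Mathlib
import Pool.Agent.H284_beta.Vec

/-!
# Radial isotropic position with unit vectors and Hilbert–Schmidt norms, in any dimension
-/

set_option autoImplicit false

open Matrix Finset
open scoped ComplexOrder
open Pool.Agent.H284_beta

namespace Pool.Agent.H284_net4

variable {ℓ : ℕ}

/-- Squared modulus of the hermitian product. -/
noncomputable def ov (x y : Fin ℓ → ℂ) : ℝ := ‖star x ⬝ᵥ y‖ ^ 2

lemma ov_nonneg (x y : Fin ℓ → ℂ) : 0 ≤ ov x y := sq_nonneg _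

lemma ov_comm (x y : Fin ℓ → ℂ) : ov x y = ov y x := by
  unfold ov
  have h : star y ⬝ᵥ x = star (star x ⬝ᵥ y) := by rw [star_dotProduct]
  rw [h, norm_star]

lemma ov_self {x : Fin ℓ → ℂ} (h : star x ⬝ᵥ x = 1) : ov x x = 1 := by
  unfold ov
  rw [h]
  simp

/-- Radial isotropic position with unit vectors. -/
theorem exists_unit_frame {ι : Type*} [Fintype ι] [DecidableEq ι] (hℓ : 0 < ℓ)
    (f : ι → (Fin ℓ → ℂ))
    (hspan : Submodule.span ℂ (Set.range f) = ⊤)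
    (hf0 : ∀ i, f i ≠ 0) (w : ι → ℝ) (hpos : ∀ i, 0 < w i)
    (hsum : ∑ i, w i = ℓ)
    (hst : ∀ W : Submodule ℂ (Fin ℓ → ℂ), W ≠ ⊤ → (∃ i, f i ∈ W) →
      wt f w W < Module.finrank ℂ W) :
    ∃ (B : Matrix (Fin ℓ) (Fin ℓ) ℂ) (s : ι → ℝ), IsUnit B.det ∧ (∀ i, 0 < s i) ∧
      (∀ i, star ((s i : ℂ) • (B *ᵥ f i)) ⬝ᵥ ((s i : ℂ) • (B *ᵥ f i)) = 1) ∧
      ∑ i, (w i : ℂ) • vecMulVec ((s i : ℂ) • (B *ᵥ f i))
        (star ((s i : ℂ) • (B *ᵥ f i))) = 1 := by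
  obtain ⟨ε, hε, hw, hst'⟩ := exists_eps f w hpos hst
  obtain ⟨y, hy, hyw⟩ := exists_isotropic hℓ f hspan hf0 w ε hε hw
    hsum hst'
  have hpd := gramSum_posDef f hspan y hy
  obtain ⟨B, hB⟩ := exists_factor hpd
  have hAu : IsUnit (gramSum f y).det := (isUnit_iff_isUnit_det _).1 hpd.isUnit
  have hBB : Bᴴ * B * gramSum f y = 1 := by rw [← hB, nonsing_inv_mul _ hAu]
  have hBdet : IsUnit B.det := by
    have h1 : IsUnit (Bᴴ * B).det := by
      rw [← hB]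
      exact (isUnit_nonsing_inv_det_iff).2 hAu
    rw [det_mul] at h1
    exact isUnit_of_mul_isUnit_right h1
  have hBAB : B * gramSum f y * Bᴴ = 1 := by
    have h1 : Bᴴ * (B * gramSum f y) = 1 := by rw [← Matrix.mul_assoc]; exact hBB
    exact mul_eq_one_comm.mp h1
  -- norm of `B f i`
  have hnorm : ∀ i, star (B *ᵥ f i) ⬝ᵥ (B *ᵥ f i) = ((w i / y i : ℝ) : ℂ) := by
    intro i
    have h1 : star (B *ᵥ f i) ⬝ᵥ (B *ᵥ f i) = star (f i) ⬝ᵥ ((gramSum f y)⁻¹ *ᵥ f i) := by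
      rw [hB, ← mulVec_mulVec, dotProduct_mulVec (star (f i)), vecMul_conjTranspose, star_star]
    rw [h1, invForm_eq hpd]
    congr 1
    rw [← hyw i]
    field_simp [(hy i).ne']
  refine ⟨B, fun i => Real.sqrt (y i / w i), hBdet, fun i => Real.sqrt_pos.mpr
    (div_pos (hy i) (hpos i)), fun i => ?_, ?_⟩
  · rw [star_smul, smul_dotProduct, dotProduct_smul, hnorm, Complex.star_def,
      Complex.conj_ofReal]
    simp only [smul_eq_mul]
    rw [← Complex.ofReal_mul, ← Complex.ofReal_mul, ← Complex.ofReal_one]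
    congr 1
    rw [← mul_assoc, Real.mul_self_sqrt (div_pos (hy i) (hpos i)).le]
    have h1 := (hy i).ne'
    have h2 := (hpos i).ne'
    field_simp
  · rw [← hBAB, gramSum, Matrix.mul_sum, Matrix.sum_mul]
    refine sum_congr rfl (fun i _ => ?_)
    rw [Matrix.mul_smul, Matrix.smul_mul, star_smul, Complex.star_def, Complex.conj_ofReal,
      smul_vecMulVec, vecMulVec_smul, smul_smul, smul_smul]
    have h3 : B * vecMulVec (f i) (star (f i)) * Bᴴ = vecMulVec (B *ᵥ f i) (star (B *ᵥ f i)) := by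
      rw [mul_vecMulVec, vecMulVec_mul, star_mulVec]
    rw [h3]
    congr 1
    rw [← Complex.ofReal_mul, ← Complex.ofReal_mul]
    congr 1
    rw [mul_assoc, Real.mul_self_sqrt (div_pos (hy i) (hpos i)).le]
    have h2 := (hpos i).ne'
    field_simp

variable {ι : Type*}

/-- The squared Hilbert–Schmidt norm. -/
noncomputable def hs (M : Matrix (Fin ℓ) (Fin ℓ) ℂ) : ℝ := ∑ a, ∑ b, ‖M a b‖ ^ 2

lemma hs_nonneg (M : Matrix (Fin ℓ) (Fin ℓ) ℂ) : 0 ≤ hs M :=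
  sum_nonneg (fun _ _ => sum_nonneg (fun _ _ => sq_nonneg _))

lemma eq_zero_of_hs {M : Matrix (Fin ℓ) (Fin ℓ) ℂ} (h : hs M = 0) : M = 0 := by
  ext a b
  have h1 := (sum_eq_zero_iff_of_nonneg (fun a _ => sum_nonneg (fun b _ => sq_nonneg _))).mp h a
    (mem_univ a)
  have h2 := (sum_eq_zero_iff_of_nonneg (fun b _ => sq_nonneg _)).mp h1 b (mem_univ b)
  simpa using h2

lemma hs_eq {M : Matrix (Fin ℓ) (Fin ℓ) ℂ} (hM : Mᴴ = M) : (hs M : ℂ) = trace (M * M) := by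
  have h1 : trace (M * M) = trace (M * Mᴴ) := by rw [hM]
  rw [h1, hs, trace]
  push_cast
  refine sum_congr rfl (fun a _ => ?_)
  rw [diag_apply, mul_apply]
  refine sum_congr rfl (fun b _ => ?_)
  rw [conjTranspose_apply, Complex.star_def, Complex.mul_conj']

/-- The rank one matrix `x x^*`. -/
noncomputable def pr (x : Fin ℓ → ℂ) : Matrix (Fin ℓ) (Fin ℓ) ℂ := vecMulVec x (star x)

lemma pr_herm (x : Fin ℓ → ℂ) : (pr x)ᴴ = pr x := by
  rw [pr, conjTranspose_vecMulVec, star_star]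

lemma pr_mulVec (x v : Fin ℓ → ℂ) : pr x *ᵥ v = (star x ⬝ᵥ v) • x := by
  rw [pr, vecMulVec_mulVec]
  ext a
  simp [mul_comm]

lemma trace_pr (x : Fin ℓ → ℂ) : trace (pr x) = star x ⬝ᵥ x := by
  rw [pr, trace_vecMulVec, dotProduct_comm]

lemma trace_pr_mul (x y : Fin ℓ → ℂ) : trace (pr x * pr y) = (ov x y : ℂ) := by
  rw [pr, pr, vecMulVec_mul_vecMulVec, trace_vecMulVec, ov]
  have h : star x ⬝ᵥ y = star (star y ⬝ᵥ x) := by rw [star_dotProduct]
  rw [dotProduct_comm, smul_dotProduct, smul_eq_mul, h, norm_star, Complex.star_def,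
    Complex.conj_mul']
  push_cast
  rfl

/-- The weighted sum of rank one matrices. -/
noncomputable def ns (u : ι → Fin ℓ → ℂ) (m : ι → ℝ) (s : Finset ι) :
    Matrix (Fin ℓ) (Fin ℓ) ℂ := ∑ i ∈ s, (m i : ℂ) • pr (u i)

lemma ns_herm (u : ι → Fin ℓ → ℂ) (m : ι → ℝ) (s : Finset ι) : (ns u m s)ᴴ = ns u m s := by
  rw [ns, conjTranspose_sum]
  refine sum_congr rfl (fun i _ => ?_)
  rw [conjTranspose_smul, pr_herm, Complex.star_def, Complex.conj_ofReal]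

lemma trace_ns (u : ι → Fin ℓ → ℂ) (m : ι → ℝ) (s : Finset ι)
    (hu : ∀ i ∈ s, star (u i) ⬝ᵥ u i = 1) : trace (ns u m s) = ((∑ i ∈ s, m i : ℝ) : ℂ) := by
  rw [ns, trace_sum]
  push_cast
  refine sum_congr rfl (fun i hi => ?_)
  rw [trace_smul, trace_pr, hu i hi, smul_eq_mul, mul_one]

lemma trace_ns_mul (u : ι → Fin ℓ → ℂ) (m : ι → ℝ) (s : Finset ι) :
    trace (ns u m s * ns u m s) =
      ((∑ i ∈ s, ∑ j ∈ s, m i * m j * ov (u i) (u j) : ℝ) : ℂ) := by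
  rw [ns, sum_mul_sum, trace_sum]
  push_cast
  refine sum_congr rfl (fun i _ => ?_)
  rw [trace_sum]
  refine sum_congr rfl (fun j _ => ?_)
  rw [smul_mul_smul_comm, trace_smul, trace_pr_mul, smul_eq_mul]

lemma hs_sub_one (u : ι → Fin ℓ → ℂ) (m : ι → ℝ) (s : Finset ι)
    (hu : ∀ i ∈ s, star (u i) ⬝ᵥ u i = 1) (κ : ℝ) :
    hs (ns u m s - (κ : ℂ) • 1) =
      ∑ i ∈ s, ∑ j ∈ s, m i * m j * ov (u i) (u j) - 2 * κ * ∑ i ∈ s, m i + ℓ * κ ^ 2 := by
  have hM : (ns u m s - (κ : ℂ) • 1)ᴴ = ns u m s - (κ : ℂ) • 1 := by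
    rw [conjTranspose_sub, ns_herm, conjTranspose_smul, conjTranspose_one, Complex.star_def,
      Complex.conj_ofReal]
  have h1 := hs_eq hM
  have h2 : (ns u m s - (κ : ℂ) • 1) * (ns u m s - (κ : ℂ) • 1) =
      ns u m s * ns u m s - (2 * κ : ℂ) • ns u m s + ((κ : ℂ) ^ 2) • 1 := by
    rw [sub_mul, mul_sub, mul_sub, smul_mul_assoc, mul_smul_comm, one_mul, mul_one, smul_mul_assoc,
      one_mul]
    module
  rw [h2, trace_add, trace_sub, trace_smul, trace_smul, trace_one, trace_ns u m s hu,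
    trace_ns_mul] at h1
  simp only [Fintype.card_fin, smul_eq_mul] at h1
  have h3 : ((hs (ns u m s - (κ : ℂ) • 1) : ℝ) : ℂ) =
      ((∑ i ∈ s, ∑ j ∈ s, m i * m j * ov (u i) (u j) - 2 * κ * ∑ i ∈ s, m i + ℓ * κ ^ 2 : ℝ) :
        ℂ) := by
    rw [h1]
    push_cast
    ring
  exact_mod_cast h3


/-- Distance to a multiple of a projection. -/
lemma hs_sub_proj (u : ι → Fin ℓ → ℂ) (m : ι → ℝ) (s : Finset ι)
    (hu : ∀ i ∈ s, star (u i) ⬝ᵥ u i = 1) (κ : ℝ) {Q : Matrix (Fin ℓ) (Fin ℓ) ℂ}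
    (hQ : Qᴴ = Q) (hQQ : Q * Q = Q) (hNQ : ns u m s * Q = ns u m s) (r : ℝ)
    (htr : trace Q = (r : ℂ)) :
    hs (ns u m s - (κ : ℂ) • Q) =
      ∑ i ∈ s, ∑ j ∈ s, m i * m j * ov (u i) (u j) - 2 * κ * ∑ i ∈ s, m i + r * κ ^ 2 := by
  have hM : (ns u m s - (κ : ℂ) • Q)ᴴ = ns u m s - (κ : ℂ) • Q := by
    rw [conjTranspose_sub, ns_herm, conjTranspose_smul, hQ, Complex.star_def, Complex.conj_ofReal]
  have h1 := hs_eq hM
  have h5 : Q * ns u m s = ns u m s := by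
    have := congrArg conjTranspose hNQ
    rwa [conjTranspose_mul, ns_herm, hQ] at this
  have h2 : (ns u m s - (κ : ℂ) • Q) * (ns u m s - (κ : ℂ) • Q) =
      ns u m s * ns u m s - (2 * κ : ℂ) • ns u m s + ((κ : ℂ) ^ 2) • Q := by
    rw [sub_mul, mul_sub, mul_sub, smul_mul_assoc, mul_smul_comm, hNQ, smul_mul_assoc,
      mul_smul_comm, h5, hQQ]
    module
  rw [h2, trace_add, trace_sub, trace_smul, trace_smul, htr, trace_ns u m s hu,
    trace_ns_mul] at h1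
  simp only [smul_eq_mul] at h1
  have h3 : ((hs (ns u m s - (κ : ℂ) • Q) : ℝ) : ℂ) =
      ((∑ i ∈ s, ∑ j ∈ s, m i * m j * ov (u i) (u j) - 2 * κ * ∑ i ∈ s, m i + r * κ ^ 2 : ℝ) :
        ℂ) := by
    rw [h1]
    push_cast
    ring
  exact_mod_cast h3

end Pool.Agent.H284_net4
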