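import Mathlib
import Pool.Agent.H284_net4.Mat

/-!
# Nets of vectors in `ℂ ^ 4`: combinatorics
-/

set_option autoImplicit false

open Matrix Finset
open Pool.Agent.H284_beta

namespace Pool.Agent.H284_net4

variable {ι : Type*} [Fintype ι] [DecidableEq ι] {k : ℕ}

/-- A net of vectors (normals of planes) in `ℂ ^ 4` which is not a cone: `k` classes of `d` vectors
each, and the plane spanned by two vectors of different classes contains exactly one vector of
each class. -/
structure VNet (f : ι → (Fin 4 → ℂ)) (c : ι → Fin k) (d : ℕ) : Prop where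
  three : 3 ≤ k
  indep : ∀ i j, i ≠ j → LinearIndependent ℂ ![f i, f j]
  card : ∀ v, (univ.filter (fun i => c i = v)).card = d
  net : ∀ i j, c i ≠ c j → ∀ v, ∃! l, l ∈ vecLine f i j ∧ c l = v
  span : Submodule.span ℂ (Set.range f) = ⊤

variable {f : ι → (Fin 4 → ℂ)} {c : ι → Fin k} {d : ℕ}

lemma ne_of_class {i j : ι} (h : c i ≠ c j) : i ≠ j := fun hij => h (by rw [hij])

lemma VNet.linSp (h : VNet f c d) : IsLinSp (vecLine f) := isLinSp_vecLine f h.indep

lemma VNet.mem_sub (h : VNet f c d) {W : Submodule ℂ (Fin 4 → ℂ)} {i j l : ι} (hi : f i ∈ W)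
    (hj : f j ∈ W) (hl : l ∈ vecLine f i j) : f l ∈ W := by
  have h1 := mem_vecLine.mp hl
  refine Submodule.span_le.mpr ?_ h1
  intro z hz
  simp only [Set.mem_insert_iff, Set.mem_singleton_iff] at hz
  rcases hz with rfl | rfl
  · exact hi
  · exact hj

lemma VNet.exists_other (h : VNet f c d) (u v : Fin k) : ∃ w : Fin k, w ≠ u ∧ w ≠ v := by
  have h3 := h.three
  have h1 : ({u, v} : Finset (Fin k)).card < (univ : Finset (Fin k)).card := by
    rw [card_univ, Fintype.card_fin]
    exact lt_of_le_of_lt card_le_two (by omega)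
  obtain ⟨w, _, hw⟩ := exists_mem_notMem_of_card_lt_card h1
  simp only [mem_insert, mem_singleton, not_or] at hw
  exact ⟨w, hw.1, hw.2⟩

/-- If `l` is the third element on the line of `i` and `j`, then `j` is the third element on the
line of `i` and `l`. -/
lemma VNet.swap (h : VNet f c d) {i j l : ι} (hij : i ≠ j) (hil : i ≠ l)
    (hl : l ∈ vecLine f i j) : vecLine f i l = vecLine f i j := by
  have hL := h.linSp
  exact hL.eq_of_mem i j i l hij hil (hL.left_mem i j hij) hl

open Classical in
/-- The number of elements of the class `v` in a subspace. -/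
noncomputable def cnt (f : ι → (Fin 4 → ℂ)) (c : ι → Fin k) (W : Submodule ℂ (Fin 4 → ℂ))
    (v : Fin k) : ℕ := (univ.filter (fun i => f i ∈ W ∧ c i = v)).card

lemma VNet.cnt_le_of (h : VNet f c d) {W : Submodule ℂ (Fin 4 → ℂ)} {i : ι} (hi : f i ∈ W)
    {v w : Fin k} (hv : v ≠ c i) (hw : w ≠ c i) : cnt f c W v ≤ cnt f c W w := by
  classical
  by_cases hvw : v = w
  · rw [hvw]
  have key : ∀ j, ∃ l, (f j ∈ W ∧ c j = v) → (l ∈ vecLine f i j ∧ c l = w) := by
    intro j
    by_cases hj : f j ∈ W ∧ c j = v
    · obtain ⟨l, hl, _⟩ := h.net i j (by rw [hj.2]; exact hv.symm) w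
      exact ⟨l, fun _ => hl⟩
    · exact ⟨j, fun h => absurd h hj⟩
  choose g hg using key
  unfold cnt
  apply card_le_card_of_injOn g
  · intro j hj
    rw [mem_coe, mem_filter] at hj
    have h1 := hg j hj.2
    rw [mem_coe, mem_filter]
    exact ⟨mem_univ _, h.mem_sub hi hj.2.1 h1.1, h1.2⟩
  · intro j hj j' hj' hjj
    rw [mem_coe, mem_filter] at hj hj'
    have h1 := hg j hj.2
    have h2 := hg j' hj'.2
    have hij : i ≠ j := by
      rintro rfl
      exact hv hj.2.2.symm
    have hij' : i ≠ j' := by
      rintro rfl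
      exact hv hj'.2.2.symm
    have hil : i ≠ g j := by
      intro h'
      rw [← h'] at h1
      exact hw h1.2.symm
    have e1 := h.swap hij hil h1.1
    have e2 := h.swap hij' (by rw [← hjj]; exact hil) h2.1
    have m1 : j ∈ vecLine f i (g j) := by rw [e1]; exact h.linSp.right_mem i j hij
    have m2 : j' ∈ vecLine f i (g j) := by rw [hjj, e2]; exact h.linSp.right_mem i j' hij'
    have hcl : c i ≠ c (g j) := by rw [h1.2]; exact hw.symm
    exact (h.net i (g j) hcl v).unique ⟨m1, hj.2.2⟩ ⟨m2, hj'.2.2⟩

lemma VNet.cnt_eq_of (h : VNet f c d) {W : Submodule ℂ (Fin 4 → ℂ)} {i : ι} (hi : f i ∈ W)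
    {v w : Fin k} (hv : v ≠ c i) (hw : w ≠ c i) : cnt f c W v = cnt f c W w :=
  le_antisymm (h.cnt_le_of hi hv hw) (h.cnt_le_of hi hw hv)

/-- A subspace which meets two classes meets all classes in the same number of elements. -/
lemma VNet.cnt_eq (h : VNet f c d) {W : Submodule ℂ (Fin 4 → ℂ)} {i j : ι} (hi : f i ∈ W)
    (hj : f j ∈ W) (hij : c i ≠ c j) (v w : Fin k) : cnt f c W v = cnt f c W w := by
  obtain ⟨x, hxi, hxj⟩ := h.exists_other (c i) (c j)
  have key : ∀ v, cnt f c W v = cnt f c W x := by
    intro v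
    by_cases hv : v = c i
    · exact h.cnt_eq_of hj (by rw [hv]; exact hij) hxj
    · exact h.cnt_eq_of hi hv hxi
  rw [key v, key w]

/-- A proper subspace which meets two classes contains at most half of each class. -/
lemma VNet.two_cnt_le (h : VNet f c d) {W : Submodule ℂ (Fin 4 → ℂ)} {i j : ι} (hi : f i ∈ W)
    (hj : f j ∈ W) (hij : c i ≠ c j) (hW : W ≠ ⊤) (v0 : Fin k) : 2 * cnt f c W v0 ≤ d := by
  classical
  obtain ⟨a, ha⟩ : ∃ a, f a ∉ W := by
    by_contra hcon
    push Not at hcon
    apply hW
    rw [eq_top_iff, ← h.span, Submodule.span_le]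
    rintro _ ⟨b, rfl⟩
    exact hcon b
  obtain ⟨v, hv, _⟩ := h.exists_other (c a) (c a)
  obtain ⟨w, hw, hwv⟩ := h.exists_other (c a) v
  have key : ∀ j, ∃ l, (f j ∈ W ∧ c j = v) → (l ∈ vecLine f a j ∧ c l = w) := by
    intro j
    by_cases hj : f j ∈ W ∧ c j = v
    · obtain ⟨l, hl, _⟩ := h.net a j (by rw [hj.2]; exact hv.symm) w
      exact ⟨l, fun _ => hl⟩
    · exact ⟨j, fun h => absurd h hj⟩
  choose g hg using key
  have h1 : cnt f c W v ≤ (univ.filter (fun i => f i ∉ W ∧ c i = w)).card := by
    unfold cnt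
    apply card_le_card_of_injOn g
    · intro j hj
      rw [mem_coe, mem_filter] at hj
      have h1 := hg j hj.2
      rw [mem_coe, mem_filter]
      refine ⟨mem_univ _, fun hgW => ha ?_, h1.2⟩
      have haj : a ≠ j := by
        rintro rfl
        exact ha hj.2.1
      have hjl : j ≠ g j := by
        intro h'
        have h2 := h1.2
        rw [← h', hj.2.2] at h2
        exact hwv h2.symm
      have e1 := h.linSp.eq_of_mem a j j (g j) haj hjl (h.linSp.right_mem a j haj) h1.1
      have m1 : a ∈ vecLine f j (g j) := by rw [e1]; exact h.linSp.left_mem a j haj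
      exact h.mem_sub hj.2.1 hgW m1
    · intro j hj j' hj' hjj
      rw [mem_coe, mem_filter] at hj hj'
      have h1 := hg j hj.2
      have h2 := hg j' hj'.2
      have hij : a ≠ j := by
        rintro rfl
        exact hv hj.2.2.symm
      have hij' : a ≠ j' := by
        rintro rfl
        exact hv hj'.2.2.symm
      have hil : a ≠ g j := by
        intro h'
        rw [← h'] at h1
        exact hw h1.2.symm
      have e1 := h.swap hij hil h1.1
      have e2 := h.swap hij' (by rw [← hjj]; exact hil) h2.1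
      have m1 : j ∈ vecLine f a (g j) := by rw [e1]; exact h.linSp.right_mem a j hij
      have m2 : j' ∈ vecLine f a (g j) := by rw [hjj, e2]; exact h.linSp.right_mem a j' hij'
      have hcl : c a ≠ c (g j) := by rw [h1.2]; exact hw.symm
      exact (h.net a (g j) hcl v).unique ⟨m1, hj.2.2⟩ ⟨m2, hj'.2.2⟩
  have h2 : cnt f c W w + (univ.filter (fun i => f i ∉ W ∧ c i = w)).card = d := by
    rw [← h.card w]
    unfold cnt
    rw [← card_union_of_disjoint]
    · congr 1
      ext i
      simp only [mem_union, mem_filter, mem_univ, true_and]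
      tauto
    · rw [disjoint_filter]
      tauto
  have h3 := h.cnt_eq hi hj hij v w
  have h4 := h.cnt_eq hi hj hij v0 w
  omega

lemma VNet.d_pos (h : VNet f c d) : 0 < d := by
  rcases Nat.eq_zero_or_pos d with h0 | h0
  · exfalso
    have hempty : IsEmpty ι := by
      constructor
      intro i
      have h1 := h.card (c i)
      rw [h0, card_eq_zero] at h1
      have h2 : i ∈ univ.filter (fun j => c j = c i) := mem_filter.mpr ⟨mem_univ i, rfl⟩
      rw [h1] at h2
      exact absurd h2 (notMem_empty i)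
    have h1 := h.span
    rw [Set.range_eq_empty, Submodule.span_empty] at h1
    have h2 := congrArg (fun W : Submodule ℂ (Fin 4 → ℂ) => Module.finrank ℂ W) h1
    simp only [finrank_bot, finrank_top, Module.finrank_fin_fun] at h2
    omega
  · exact h0

lemma VNet.exists_class (h : VNet f c d) (v : Fin k) : ∃ i, c i = v := by
  have h1 := h.d_pos
  rw [← h.card v, card_pos] at h1
  obtain ⟨i, hi⟩ := h1
  exact ⟨i, (mem_filter.mp hi).2⟩

lemma VNet.ne_zero (h : VNet f c d) (i : ι) : f i ≠ 0 := by
  obtain ⟨w, hw, _⟩ := h.exists_other (c i) (c i)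
  obtain ⟨j, hj⟩ := h.exists_class w
  have hij : i ≠ j := by
    rintro rfl
    exact hw hj.symm
  exact (h.indep i j hij).ne_zero 0

/-- A net which is not a cone has at least four elements in each class. -/
lemma VNet.four_le (h : VNet f c d) : 4 ≤ d := by
  classical
  have h3 := h.three
  obtain ⟨i, hi⟩ := h.exists_class ⟨0, by omega⟩
  obtain ⟨j, hj⟩ := h.exists_class ⟨1, by omega⟩
  have hij : c i ≠ c j := by
    rw [hi, hj]
    intro h'
    have := congrArg Fin.val h'
    simp at this
  -- first the plane of two vectors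
  have hW : Submodule.span ℂ ({f i, f j} : Set (Fin 4 → ℂ)) ≠ ⊤ := by
    intro h'
    have h1 := finrank_span_pair (h.indep i j (ne_of_class hij))
    rw [h', finrank_top, Module.finrank_fin_fun] at h1
    omega
  have m1 : f i ∈ Submodule.span ℂ ({f i, f j} : Set (Fin 4 → ℂ)) :=
    Submodule.subset_span (by simp)
  have m2 : f j ∈ Submodule.span ℂ ({f i, f j} : Set (Fin 4 → ℂ)) :=
    Submodule.subset_span (by simp)
  have h1 := h.two_cnt_le m1 m2 hij hW (c i)
  have h2 : 1 ≤ cnt f c (Submodule.span ℂ ({f i, f j} : Set (Fin 4 → ℂ))) (c i) := by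
    unfold cnt
    exact card_pos.mpr ⟨i, mem_filter.mpr ⟨mem_univ i, m1, rfl⟩⟩
  -- a second element of the class of `j`
  obtain ⟨j', hj', hjj⟩ : ∃ j', c j' = c j ∧ j' ≠ j := by
    have h4 : 1 < (univ.filter (fun l => c l = c j)).card := by rw [h.card]; omega
    obtain ⟨b, hb, hbj⟩ := exists_mem_ne h4 j
    exact ⟨b, (mem_filter.mp hb).2, hbj⟩
  set W := Submodule.span ℂ ({f i, f j, f j'} : Set (Fin 4 → ℂ)) with hWdef
  have hW' : W ≠ ⊤ := by
    intro h'
    have h5 : Module.finrank ℂ W ≤ 3 := by
      have h6 := finrank_span_finset_le_card (R := ℂ) ({f i, f j, f j'} : Finset (Fin 4 → ℂ))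
      have h7 : (({f i, f j, f j'} : Finset (Fin 4 → ℂ)) : Set (Fin 4 → ℂ)) =
          {f i, f j, f j'} := by simp
      rw [Set.finrank, h7] at h6
      exact h6.trans card_le_three
    rw [h', finrank_top, Module.finrank_fin_fun] at h5
    omega
  have n1 : f i ∈ W := Submodule.subset_span (by simp)
  have n2 : f j ∈ W := Submodule.subset_span (by simp)
  have n3 : f j' ∈ W := Submodule.subset_span (by simp)
  have h5 := h.two_cnt_le n1 n2 hij hW' (c j)
  have h6 : 2 ≤ cnt f c W (c j) := by
    unfold cnt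
    have h7 : ({j, j'} : Finset ι) ⊆ univ.filter (fun i => f i ∈ W ∧ c i = c j) := by
      intro x hx
      simp only [mem_insert, mem_singleton] at hx
      rcases hx with rfl | rfl
      · exact mem_filter.mpr ⟨mem_univ _, n2, rfl⟩
      · exact mem_filter.mpr ⟨mem_univ _, n3, hj'⟩
    have h8 := card_le_card h7
    rwa [card_pair hjj.symm] at h8
  omega

/-- The number of elements in a subspace. -/
lemma VNet.card_mem (h : VNet f c d) (W : Submodule ℂ (Fin 4 → ℂ))
    [DecidablePred (fun i => f i ∈ W)] :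
    (univ.filter (fun i => f i ∈ W)).card = ∑ v, cnt f c W v := by
  classical
  rw [card_eq_sum_card_fiberwise (f := c) (t := univ) (fun _ _ => mem_coe.mpr (mem_univ _))]
  refine sum_congr rfl (fun v _ => ?_)
  unfold cnt
  rw [filter_filter]
  congr 1
  ext i
  simp

/-- Strict stability of the equal weights. -/
lemma VNet.wt_lt (h : VNet f c d) (W : Submodule ℂ (Fin 4 → ℂ)) (hW : W ≠ ⊤)
    (hi : ∃ i, f i ∈ W) :
    wt f (fun _ => (4 : ℝ) / (k * d)) W < Module.finrank ℂ W := by
  classical
  obtain ⟨i, hi⟩ := hi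
  have hk3 : (3 : ℝ) ≤ k := by exact_mod_cast h.three
  have hd4 : (4 : ℝ) ≤ d := by exact_mod_cast h.four_le
  have hr4 : Module.finrank ℂ W < 4 := by
    have := Submodule.finrank_lt hW
    rwa [Module.finrank_fin_fun] at this
  have hr0 : 0 < Module.finrank ℂ W := by
    rw [Module.finrank_pos_iff]
    exact ⟨⟨⟨f i, hi⟩, 0, fun h' => h.ne_zero i (congrArg Subtype.val h')⟩⟩
  have hwt : wt f (fun _ => (4 : ℝ) / (k * d)) W =
      ((univ.filter (fun i => f i ∈ W)).card : ℝ) * (4 / (k * d)) := by
    unfold wt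
    rw [sum_const, nsmul_eq_mul]
  rw [hwt]
  have hkd : (0 : ℝ) < k * d := by positivity
  -- the plane of two vectors in `W`
  have hpair : ∀ j, f j ∈ W → i ≠ j → Submodule.span ℂ ({f i, f j} : Set (Fin 4 → ℂ)) ≤ W := by
    intro j hj _
    rw [Submodule.span_le]
    intro z hz
    simp only [Set.mem_insert_iff, Set.mem_singleton_iff] at hz
    rcases hz with rfl | rfl
    · exact hi
    · exact hj
  have hr1 : (1 : ℝ) ≤ Module.finrank ℂ W := by exact_mod_cast hr0
  by_cases hone : ∀ j, f j ∈ W → j = i
  · -- only one vector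
    have h1 : (univ.filter (fun i => f i ∈ W)).card ≤ 1 := by
      rw [card_le_one]
      intro a ha b hb
      rw [hone a (mem_filter.mp ha).2, hone b (mem_filter.mp hb).2]
    have h2 : ((univ.filter (fun i => f i ∈ W)).card : ℝ) ≤ 1 := by exact_mod_cast h1
    have h3 : (4 : ℝ) / (k * d) < 1 := by
      rw [div_lt_one hkd]
      nlinarith
    have h4 : (0 : ℝ) ≤ 4 / (k * d) := by positivity
    nlinarith
  · push Not at hone
    obtain ⟨j, hj, hji⟩ := hone
    have hr2 : 2 ≤ Module.finrank ℂ W := by
      have h3 := Submodule.finrank_mono (hpair j hj hji.symm)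
      rwa [finrank_span_pair (h.indep i j hji.symm)] at h3
    have hr2' : (2 : ℝ) ≤ Module.finrank ℂ W := by exact_mod_cast hr2
    by_cases hc : ∀ j, f j ∈ W → c j = c i
    · -- only one class
      have h1 : (univ.filter (fun i => f i ∈ W)).card ≤ d := by
        rw [← h.card (c i)]
        apply card_le_card
        intro a ha
        exact mem_filter.mpr ⟨mem_univ a, hc a (mem_filter.mp ha).2⟩
      have h2 : ((univ.filter (fun i => f i ∈ W)).card : ℝ) ≤ d := by exact_mod_cast h1
      have h3 : ((univ.filter (fun i => f i ∈ W)).card : ℝ) * (4 / (k * d)) ≤ 4 / 3 := by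
        calc ((univ.filter (fun i => f i ∈ W)).card : ℝ) * (4 / (k * d))
            ≤ d * (4 / (k * d)) := mul_le_mul_of_nonneg_right h2 (by positivity)
          _ = 4 / k := by field_simp
          _ ≤ 4 / 3 := by
            apply div_le_div_of_nonneg_left (by norm_num) (by norm_num) hk3
      linarith
    · push Not at hc
      obtain ⟨a, ha, hai⟩ := hc
      have hcard : (univ.filter (fun i => f i ∈ W)).card = k * cnt f c W (c i) := by
        rw [h.card_mem W, sum_congr rfl (fun v _ => h.cnt_eq hi ha hai.symm v (c i))]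
        simp
      have hle := h.two_cnt_le hi ha hai.symm hW (c i)
      have hle' : 2 * (cnt f c W (c i) : ℝ) ≤ d := by exact_mod_cast hle
      rw [hcard]
      push_cast
      have h3 : (k : ℝ) * (cnt f c W (c i) : ℝ) * (4 / (k * d)) = 4 * cnt f c W (c i) / d := by
        field_simp
      rw [h3]
      rcases Nat.lt_or_ge 2 (Module.finrank ℂ W) with hlt | hge
      · have h4 : (3 : ℝ) ≤ Module.finrank ℂ W := by exact_mod_cast hlt
        have h5 : 4 * (cnt f c W (c i) : ℝ) / d ≤ 2 := by
          rw [div_le_iff₀ (by linarith)]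
          linarith
        linarith
      · -- a plane: one vector in each class
        have hW2 : Submodule.span ℂ ({f i, f a} : Set (Fin 4 → ℂ)) = W := by
          apply Submodule.eq_of_le_of_finrank_eq (hpair a ha (ne_of_class hai.symm))
          rw [finrank_span_pair (h.indep i a (ne_of_class hai.symm))]
          omega
        have h4 : cnt f c W (c i) ≤ 1 := by
          unfold cnt
          rw [card_le_one]
          intro x hx y hy
          obtain ⟨_, hx1, hx2⟩ := mem_filter.mp hx
          obtain ⟨_, hy1, hy2⟩ := mem_filter.mp hy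
          rw [← hW2] at hx1 hy1
          exact (h.net i a hai.symm (c i)).unique ⟨mem_vecLine.mpr hx1, hx2⟩
            ⟨mem_vecLine.mpr hy1, hy2⟩
        have h5 : (cnt f c W (c i) : ℝ) ≤ 1 := by exact_mod_cast h4
        have h6 : 4 * (cnt f c W (c i) : ℝ) / d ≤ 1 := by
          rw [div_le_iff₀ (by linarith)]
          linarith
        linarith

end Pool.Agent.H284_net4
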