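import Mathlib
import Pool.Agent.H284_net4.Mat

/-!
# Projections onto planes
-/

set_option autoImplicit false

open Matrix Finset

namespace Pool.Agent.H284_net4

variable {ℓ : ℕ}

lemma star_dot_self (q : Fin ℓ → ℂ) : star q ⬝ᵥ q = ((∑ a, ‖q a‖ ^ 2 : ℝ) : ℂ) := by
  rw [dotProduct]
  push_cast
  refine sum_congr rfl (fun a _ => ?_)
  rw [Pi.star_apply, Complex.star_def, Complex.conj_mul']

lemma star_dot_swap (x y : Fin ℓ → ℂ) : star x ⬝ᵥ y = star (star y ⬝ᵥ x) := by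
  rw [star_dotProduct]

/-- A nonzero vector can be normalised. -/
lemma exists_unit {v : Fin ℓ → ℂ} (hv : v ≠ 0) :
    ∃ t : ℝ, 0 < t ∧ star ((t : ℂ) • v) ⬝ᵥ ((t : ℂ) • v) = 1 := by
  have hpos : 0 < ∑ a, ‖v a‖ ^ 2 := by
    obtain ⟨a, ha⟩ := Function.ne_iff.mp hv
    refine lt_of_lt_of_le ?_ (single_le_sum (f := fun a => ‖v a‖ ^ 2) (fun _ _ => sq_nonneg _)
      (mem_univ a))
    have : 0 < ‖v a‖ := norm_pos_iff.mpr ha
    positivity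
  set r : ℝ := ∑ a, ‖v a‖ ^ 2 with hr
  refine ⟨(Real.sqrt r)⁻¹, inv_pos.mpr (Real.sqrt_pos.mpr hpos), ?_⟩
  rw [star_smul, smul_dotProduct, dotProduct_smul, star_dot_self, Complex.star_def,
    Complex.conj_ofReal, ← hr]
  simp only [smul_eq_mul]
  rw [← Complex.ofReal_mul, ← Complex.ofReal_mul, ← Complex.ofReal_one]
  congr 1
  rw [← mul_assoc, ← mul_inv, Real.mul_self_sqrt hpos.le]
  exact inv_mul_cancel₀ hpos.ne'

lemma pr_mul_pr (x y : Fin ℓ → ℂ) (h : star x ⬝ᵥ y = 0) : pr x * pr y = 0 := by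
  rw [pr, pr, vecMulVec_mul_vecMulVec, h]
  simp

lemma pr_mul_self {x : Fin ℓ → ℂ} (h : star x ⬝ᵥ x = 1) : pr x * pr x = pr x := by
  rw [pr, vecMulVec_mul_vecMulVec, h]
  simp

/-- The orthogonal projection onto a plane. -/
lemma exists_proj {x y : Fin ℓ → ℂ} (hxy : LinearIndependent ℂ ![x, y]) :
    ∃ Q : Matrix (Fin ℓ) (Fin ℓ) ℂ, Qᴴ = Q ∧ Q * Q = Q ∧ trace Q = ((2 : ℝ) : ℂ) ∧
      ∀ a b : ℂ, Q *ᵥ (a • x + b • y) = a • x + b • y := by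
  have hx : x ≠ 0 := hxy.ne_zero 0
  obtain ⟨t, ht, hte⟩ := exists_unit hx
  obtain ⟨e, he⟩ : ∃ e : Fin ℓ → ℂ, e = (t : ℂ) • x := ⟨_, rfl⟩
  rw [← he] at hte
  have htc : (t : ℂ) ≠ 0 := by exact_mod_cast ht.ne'
  obtain ⟨w, hw⟩ : ∃ w : Fin ℓ → ℂ, w = y - (star e ⬝ᵥ y) • e := ⟨_, rfl⟩
  have hw0 : w ≠ 0 := by
    intro h0
    rw [LinearIndependent.pair_iff] at hxy
    have h1 := hxy (-((star e ⬝ᵥ y) * t)) 1 (by
      rw [one_smul, neg_smul, mul_smul, ← he]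
      rw [hw] at h0
      rw [neg_add_eq_sub]
      exact h0)
    exact one_ne_zero h1.2
  obtain ⟨r, hr, hre⟩ := exists_unit hw0
  obtain ⟨e', he'⟩ : ∃ e' : Fin ℓ → ℂ, e' = (r : ℂ) • w := ⟨_, rfl⟩
  rw [← he'] at hre
  have hrc : (r : ℂ) ≠ 0 := by exact_mod_cast hr.ne'
  have hew : star e ⬝ᵥ w = 0 := by
    rw [hw, dotProduct_sub, dotProduct_smul, hte]
    simp
  have hee' : star e ⬝ᵥ e' = 0 := by
    rw [he', dotProduct_smul, hew, smul_zero]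
  have he'e : star e' ⬝ᵥ e = 0 := by
    rw [star_dot_swap, hee', star_zero]
  have hQe : (pr e + pr e') *ᵥ e = e := by
    rw [add_mulVec, pr_mulVec, pr_mulVec, hte, he'e]
    simp
  have hQe' : (pr e + pr e') *ᵥ e' = e' := by
    rw [add_mulVec, pr_mulVec, pr_mulVec, hre, hee']
    simp
  have hxe : x = (t : ℂ)⁻¹ • e := by
    rw [he, smul_smul, inv_mul_cancel₀ htc, one_smul]
  have hye : y = (r : ℂ)⁻¹ • e' + (star e ⬝ᵥ y) • e := by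
    rw [he', smul_smul, inv_mul_cancel₀ hrc, one_smul, hw]
    simp
  refine ⟨pr e + pr e', ?_, ?_, ?_, ?_⟩
  · rw [conjTranspose_add, pr_herm, pr_herm]
  · rw [add_mul, mul_add, mul_add, pr_mul_self hte, pr_mul_self hre, pr_mul_pr e e' hee',
      pr_mul_pr e' e he'e]
    simp
  · rw [trace_add, trace_pr, trace_pr, hte, hre]
    push_cast
    ring
  · intro a b
    have h1 : a • x + b • y = (a * (t : ℂ)⁻¹ + b * (star e ⬝ᵥ y)) • e + (b * (r : ℂ)⁻¹) • e' := by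
      rw [hxe]
      nth_rewrite 1 [hye]
      module
    rw [h1, mulVec_add, mulVec_smul, mulVec_smul, hQe, hQe']

lemma pr_mul_of_fix {Q : Matrix (Fin ℓ) (Fin ℓ) ℂ} (hQ : Qᴴ = Q) {v : Fin ℓ → ℂ}
    (hv : Q *ᵥ v = v) : pr v * Q = pr v := by
  rw [pr, vecMulVec_mul]
  congr 1
  have h1 : star v ᵥ* Q = star (Qᴴ *ᵥ v) := by
    rw [star_mulVec, conjTranspose_conjTranspose]
  rw [h1, hQ, hv]

lemma quad_pr (x y : Fin ℓ → ℂ) : star x ⬝ᵥ (pr y *ᵥ x) = (ov y x : ℂ) := by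
  rw [pr_mulVec, dotProduct_smul, smul_eq_mul, ov]
  have h : star x ⬝ᵥ y = star (star y ⬝ᵥ x) := star_dot_swap x y
  rw [h, Complex.star_def, Complex.mul_conj']
  push_cast
  rfl

lemma quad_ns {ι : Type*} (u : ι → Fin ℓ → ℂ) (m : ι → ℝ) (s : Finset ι) (x : Fin ℓ → ℂ) :
    star x ⬝ᵥ (ns u m s *ᵥ x) = ((∑ i ∈ s, m i * ov (u i) x : ℝ) : ℂ) := by
  rw [ns, sum_mulVec, dotProduct_sum]
  push_cast
  refine sum_congr rfl (fun i _ => ?_)
  rw [smul_mulVec, dotProduct_smul, quad_pr, smul_eq_mul]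

end Pool.Agent.H284_net4
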