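import Mathlib
import Pool.Agent.H284_net4.Comb
import Pool.Agent.H284_net4.Plane

/-!
# Nets in `ℂ ^ 4` in isotropic position: equality everywhere
-/

set_option autoImplicit false

open Matrix Finset
open Pool.Agent.H284_beta

namespace Pool.Agent.H284_net4

variable {ι : Type*} [Fintype ι] [DecidableEq ι] {k : ℕ}
variable {f : ι → (Fin 4 → ℂ)} {c : ι → Fin k} {d : ℕ}

/-- The base flats. -/
noncomputable def flats (f : ι → (Fin 4 → ℂ)) (c : ι → Fin k) : Finset (Finset ι) :=
  (lines (vecLine f)).filter (fun X => ∃ i ∈ X, ∃ j ∈ X, c i ≠ c j)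

lemma mem_flats {X : Finset ι} :
    X ∈ flats f c ↔ X ∈ lines (vecLine f) ∧ ∃ i ∈ X, ∃ j ∈ X, c i ≠ c j := by
  rw [flats, mem_filter]

lemma VNet.line_mem_flats (h : VNet f c d) {i j : ι} (hij : c i ≠ c j) :
    vecLine f i j ∈ flats f c :=
  mem_flats.mpr ⟨line_mem_lines (ne_of_class hij), i, h.linSp.left_mem i j (ne_of_class hij), j,
    h.linSp.right_mem i j (ne_of_class hij), hij⟩

lemma VNet.eq_of_mem_flats (h : VNet f c d) {X : Finset ι} (hX : X ∈ flats f c) {i j : ι}
    (hij : i ≠ j) (hi : i ∈ X) (hj : j ∈ X) : vecLine f i j = X :=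
  h.linSp.eq_line (mem_flats.mp hX).1 hij hi hj

lemma VNet.eq_of_class (h : VNet f c d) {X : Finset ι} (hX : X ∈ flats f c) {i j : ι}
    (hi : i ∈ X) (hj : j ∈ X) (hij : c i = c j) : i = j := by
  obtain ⟨_, a, ha, b, hb, hab⟩ := mem_flats.mp hX
  have h1 := h.eq_of_mem_flats hX (ne_of_class hab) ha hb
  rw [← h1] at hi hj
  exact (h.net a b hab (c i)).unique ⟨hi, rfl⟩ ⟨hj, hij.symm⟩

lemma VNet.card_flat (h : VNet f c d) {X : Finset ι} (hX : X ∈ flats f c) : X.card = k := by
  obtain ⟨_, a, ha, b, hb, hab⟩ := mem_flats.mp hX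
  have h1 := h.eq_of_mem_flats hX (ne_of_class hab) ha hb
  have h2 : X.card = (univ : Finset (Fin k)).card := by
    apply card_bij (fun i _ => c i)
    · exact fun _ _ => mem_univ _
    · exact fun i hi j hj hij => h.eq_of_class hX hi hj hij
    · intro v _
      obtain ⟨l, ⟨hl, hlv⟩, _⟩ := h.net a b hab v
      rw [h1] at hl
      exact ⟨l, hl, hlv⟩
  rw [h2, card_univ, Fintype.card_fin]

/-- Double counting over the base flats of a function on pairs from different classes. -/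
lemma VNet.sum_pairs (h : VNet f c d) (F : ι → ι → ℝ) (hF : ∀ i j, c i = c j → F i j = 0) :
    ∑ X ∈ flats f c, ∑ i ∈ X, ∑ j ∈ X, F i j = ∑ i, ∑ j, F i j := by
  have h1 : ∀ X ∈ flats f c, ∑ i ∈ X, ∑ j ∈ X, F i j =
      ∑ i, ∑ j, (if i ∈ X ∧ j ∈ X then F i j else 0) := by
    intro X _
    rw [← sum_subset (subset_univ X)]
    · refine sum_congr rfl (fun i hi => ?_)
      rw [← sum_subset (subset_univ X)]
      · exact sum_congr rfl (fun j hj => by simp [hi, hj])
      · intro j _ hj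
        simp [hj]
    · intro i _ hi
      simp [hi]
  rw [sum_congr rfl h1, sum_comm]
  refine sum_congr rfl (fun i _ => ?_)
  rw [sum_comm]
  refine sum_congr rfl (fun j _ => ?_)
  rw [← sum_filter, sum_const, nsmul_eq_mul]
  by_cases hij : c i = c j
  · rw [hF i j hij, mul_zero]
  · have h2 : (flats f c).filter (fun X => i ∈ X ∧ j ∈ X) = {vecLine f i j} := by
      ext X
      simp only [mem_filter, mem_singleton]
      constructor
      · rintro ⟨hX, hi, hj⟩
        exact (h.eq_of_mem_flats hX (ne_of_class hij) hi hj).symm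
      · rintro rfl
        exact ⟨h.line_mem_flats hij, h.linSp.left_mem i j (ne_of_class hij),
          h.linSp.right_mem i j (ne_of_class hij)⟩
    rw [h2]
    simp

lemma sum_eq_sum_class {M : Type*} [AddCommMonoid M] (c : ι → Fin k) (F : ι → M) :
    ∑ v, ∑ i ∈ univ.filter (fun i => c i = v), F i = ∑ i, F i :=
  sum_fiberwise_of_maps_to (fun _ _ => mem_univ _) F

lemma sum_same_class (c : ι → Fin k) (G : ι → ι → ℝ) :
    ∑ i, ∑ j, (if c i = c j then G i j else 0) =
      ∑ v, ∑ i ∈ univ.filter (fun i => c i = v), ∑ j ∈ univ.filter (fun i => c i = v), G i j := by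
  rw [← sum_eq_sum_class c]
  refine sum_congr rfl (fun v _ => sum_congr rfl (fun i hi => ?_))
  rw [← sum_filter]
  have h1 : univ.filter (fun j => c i = c j) = univ.filter (fun i => c i = v) := by
    have h2 := (mem_filter.mp hi).2
    ext j
    simp only [mem_filter, h2, mem_univ, true_and]
    tauto
  rw [h1]

lemma VNet.card_all (h : VNet f c d) : (Fintype.card ι : ℝ) = k * d := by
  have h1 : Fintype.card ι = k * d := by
    rw [← card_univ, card_eq_sum_card_fiberwise (f := c) (t := univ)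
      (fun _ _ => mem_coe.mpr (mem_univ _)), sum_congr rfl (fun v _ => h.card v)]
    simp
  exact_mod_cast h1

lemma VNet.card_flats (h : VNet f c d) :
    ((flats f c).card : ℝ) * ((k : ℝ) * (k - 1)) = (k * (k - 1)) * (d : ℝ) ^ 2 := by
  have h1 := h.sum_pairs (fun i j => if c i = c j then 0 else 1) (fun i j hij => by simp [hij])
  have h2 : ∀ X ∈ flats f c, ∑ i ∈ X, ∑ j ∈ X, (if c i = c j then (0 : ℝ) else 1) =
      (k : ℝ) * (k - 1) := by
    intro X hX
    have h3 : ∀ i ∈ X, ∑ j ∈ X, (if c i = c j then (0 : ℝ) else 1) = (k : ℝ) - 1 := by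
      intro i hi
      have h4 : ∀ j ∈ X, (if c i = c j then (0 : ℝ) else 1) = 1 - (if j = i then 1 else 0) := by
        intro j hj
        by_cases hji : j = i
        · rw [hji]; simp
        · have : c i ≠ c j := fun h' => hji (h.eq_of_class hX hi hj h').symm
          simp [this, hji]
      rw [sum_congr rfl h4, sum_sub_distrib, sum_const, nsmul_eq_mul, mul_one, h.card_flat hX,
        sum_ite_eq' X i (fun _ => (1 : ℝ))]
      simp [hi]
    rw [sum_congr rfl h3, sum_const, nsmul_eq_mul, h.card_flat hX]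
  have h3 : ∑ i, ∑ j, (if c i = c j then (0 : ℝ) else 1) = (k * (k - 1)) * (d : ℝ) ^ 2 := by
    have h4 : ∀ i, ∑ j, (if c i = c j then (0 : ℝ) else 1) = k * d - d := by
      intro i
      have h5 : ∀ j, (if c i = c j then (0 : ℝ) else 1) = 1 - (if c j = c i then 1 else 0) := by
        intro j
        by_cases hji : c i = c j
        · simp [hji]
        · have : ¬ c j = c i := fun h' => hji h'.symm
          simp [hji, this]
      rw [sum_congr rfl (fun j _ => h5 j), sum_sub_distrib, sum_const, nsmul_eq_mul, mul_one,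
        card_univ, h.card_all, ← sum_filter, sum_const, nsmul_eq_mul, mul_one, h.card (c i)]
    rw [sum_congr rfl (fun i _ => h4 i), sum_const, nsmul_eq_mul, card_univ, h.card_all]
    ring
  rw [sum_congr rfl h2, h3, sum_const, nsmul_eq_mul] at h1
  exact h1

lemma pair_map {B : Matrix (Fin 4) (Fin 4) ℂ} (hB : IsUnit B.det) {x y : Fin 4 → ℂ}
    (hxy : LinearIndependent ℂ ![x, y]) : LinearIndependent ℂ ![B *ᵥ x, B *ᵥ y] := by
  have hBinj : Function.Injective (B.mulVecLin) := by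
    rw [Matrix.coe_mulVecLin]
    exact Matrix.mulVec_injective_of_isUnit ((isUnit_iff_isUnit_det B).2 hB)
  have h1 := hxy.map' B.mulVecLin (LinearMap.ker_eq_bot.mpr hBinj)
  have h2 : ⇑B.mulVecLin ∘ ![x, y] = ![B *ᵥ x, B *ᵥ y] := by
    funext i
    fin_cases i <;> rfl
  rwa [h2] at h1

lemma pair_smul {x y : Fin 4 → ℂ} (hxy : LinearIndependent ℂ ![x, y]) {a b : ℂ} (ha : a ≠ 0)
    (hb : b ≠ 0) : LinearIndependent ℂ ![a • x, b • y] := by
  rw [LinearIndependent.pair_iff] at hxy ⊢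
  intro s t hst
  have h2 := hxy (s * a) (t * b) (by rw [mul_smul, mul_smul]; exact hst)
  exact ⟨(mul_eq_zero.mp h2.1).resolve_right ha, (mul_eq_zero.mp h2.2).resolve_right hb⟩

/-- In isotropic position equality holds everywhere; in particular there are three classes. -/
theorem VNet.core (h : VNet f c d) :
    ∃ (B : Matrix (Fin 4) (Fin 4) ℂ) (s : ι → ℝ) (u : ι → Fin 4 → ℂ), IsUnit B.det ∧
      (∀ i, 0 < s i) ∧ (∀ i, u i = (s i : ℂ) • (B *ᵥ f i)) ∧ (∀ i, star (u i) ⬝ᵥ u i = 1) ∧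
      k = 3 ∧
      (∀ v, ns u (fun _ => 1) (univ.filter (fun i => c i = v)) = (((d : ℝ) / 4 : ℝ) : ℂ) • 1) ∧
      (∀ X ∈ flats f c, ∀ i ∈ X, ∑ j ∈ X, ov (u j) (u i) = 3 / 2) := by
  classical
  have hk3 : (3 : ℝ) ≤ k := by exact_mod_cast h.three
  have hd4 : (4 : ℝ) ≤ d := by exact_mod_cast h.four_le
  have hkd : (0 : ℝ) < k * d := by positivity
  obtain ⟨B, s, hB, hs0, hu, hiso⟩ := exists_unit_frame (by norm_num) f h.span h.ne_zero
    (fun _ => (4 : ℝ) / (k * d)) (fun _ => by positivity)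
    (by
      rw [sum_const, nsmul_eq_mul, card_univ, h.card_all]
      field_simp
      norm_num)
    h.wt_lt
  obtain ⟨u, hudef⟩ : ∃ u : ι → Fin 4 → ℂ, ∀ i, u i = (s i : ℂ) • (B *ᵥ f i) :=
    ⟨_, fun _ => rfl⟩
  have hu' : ∀ i, star (u i) ⬝ᵥ u i = 1 := fun i => by rw [hudef]; exact hu i
  set M : ι → ℝ := fun _ => 1 with hM
  -- the total frame operator
  have hall : ns u M univ = ((k * d / 4 : ℝ) : ℂ) • 1 := by
    rw [← hiso, ns, smul_sum]
    refine sum_congr rfl (fun i _ => ?_)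
    rw [smul_smul, pr, hudef]
    congr 1
    rw [← Complex.ofReal_mul]
    congr 1
    simp only [hM]
    field_simp
  have htot : ∑ i, ∑ j, M i * M j * ov (u i) (u j) = (k : ℝ) ^ 2 * (d : ℝ) ^ 2 / 4 := by
    have h1 := trace_ns_mul u M univ
    rw [hall, smul_mul_smul_comm, trace_smul, mul_one, trace_one] at h1
    simp only [Fintype.card_fin, smul_eq_mul] at h1
    have h2 : (((k * d / 4 : ℝ) : ℂ)) * ((k * d / 4 : ℝ) : ℂ) * ((4 : ℕ) : ℂ) =
        (((k : ℝ) ^ 2 * (d : ℝ) ^ 2 / 4 : ℝ) : ℂ) := by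
      push_cast
      ring
    rw [h2] at h1
    exact_mod_cast h1.symm
  -- projections onto the planes of the flats
  have hQ : ∀ X ∈ flats f c, ∃ Q : Matrix (Fin 4) (Fin 4) ℂ, Qᴴ = Q ∧ Q * Q = Q ∧
      trace Q = ((2 : ℝ) : ℂ) ∧ ∀ i ∈ X, Q *ᵥ u i = u i := by
    intro X hX
    obtain ⟨i, j, hij, hXeq⟩ := mem_lines.mp (mem_flats.mp hX).1
    have hsi : (s i : ℂ) ≠ 0 := by exact_mod_cast (hs0 i).ne'
    have hsj : (s j : ℂ) ≠ 0 := by exact_mod_cast (hs0 j).ne'
    have hli : LinearIndependent ℂ ![u i, u j] := by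
      rw [hudef, hudef]
      exact pair_smul (pair_map hB (h.indep i j hij)) hsi hsj
    obtain ⟨Q, h1, h2, h3, h4⟩ := exists_proj hli
    refine ⟨Q, h1, h2, h3, fun l hl => ?_⟩
    rw [← hXeq, mem_vecLine, Submodule.mem_span_pair] at hl
    obtain ⟨a, b, hab⟩ := hl
    have h5 : u l = ((s l : ℂ) * a / (s i : ℂ)) • u i + ((s l : ℂ) * b / (s j : ℂ)) • u j := by
      rw [hudef l, hudef i, hudef j, ← hab, mulVec_add, mulVec_smul, mulVec_smul, smul_add,
        smul_smul, smul_smul, smul_smul, smul_smul]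
      congr 2
      · field_simp
      · field_simp
    rw [h5]
    exact h4 _ _
  choose! Q hQ1 hQ2 hQ3 hQ4 using hQ
  have hclass : ∀ v : Fin k, ∑ i ∈ univ.filter (fun i => c i = v), M i = d := by
    intro v
    simp only [hM]
    rw [sum_const, nsmul_eq_mul, mul_one, h.card v]
  have hflat : ∀ X ∈ flats f c, ∑ i ∈ X, M i = k := by
    intro X hX
    simp only [hM]
    rw [sum_const, nsmul_eq_mul, mul_one, h.card_flat hX]
  have hv : ∀ v : Fin k, hs (ns u M (univ.filter (fun i => c i = v)) -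
      (((d : ℝ) / 4 : ℝ) : ℂ) • 1) =
      ∑ i ∈ univ.filter (fun i => c i = v), ∑ j ∈ univ.filter (fun i => c i = v),
        M i * M j * ov (u i) (u j) - (d : ℝ) ^ 2 / 4 := by
    intro v
    rw [hs_sub_one u M _ (fun i _ => hu' i), hclass v]
    push_cast
    ring
  have hXs : ∀ X ∈ flats f c, hs (ns u M X - (((k : ℝ) / 2 : ℝ) : ℂ) • Q X) =
      ∑ i ∈ X, ∑ j ∈ X, M i * M j * ov (u i) (u j) - (k : ℝ) ^ 2 / 2 := by
    intro X hX
    have h1 : ns u M X * Q X = ns u M X := by
      rw [ns, sum_mul]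
      refine sum_congr rfl (fun i hi => ?_)
      rw [smul_mul_assoc, pr_mul_of_fix (hQ1 X hX) (hQ4 X hX i hi)]
    rw [hs_sub_proj u M X (fun i _ => hu' i) _ (hQ1 X hX) (hQ2 X hX) h1 2 (hQ3 X hX),
      hflat X hX]
    ring
  -- splitting into equal and different classes
  have hsplit : ∀ X : Finset ι, ∑ i ∈ X, ∑ j ∈ X, M i * M j * ov (u i) (u j) =
      ∑ i ∈ X, ∑ j ∈ X, (if c i = c j then M i * M j * ov (u i) (u j) else 0) +
      ∑ i ∈ X, ∑ j ∈ X, (if c i = c j then 0 else M i * M j * ov (u i) (u j)) := by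
    intro X
    rw [← sum_add_distrib]
    refine sum_congr rfl (fun i _ => ?_)
    rw [← sum_add_distrib]
    refine sum_congr rfl (fun j _ => ?_)
    split_ifs <;> ring
  have hdiag : ∀ X ∈ flats f c,
      ∑ i ∈ X, ∑ j ∈ X, (if c i = c j then M i * M j * ov (u i) (u j) else 0) = k := by
    intro X hX
    have h1 : ∀ i ∈ X, ∑ j ∈ X, (if c i = c j then M i * M j * ov (u i) (u j) else 0) = 1 := by
      intro i hi
      rw [sum_eq_single i]
      · simp [hM, ov_self (hu' i)]
      · intro j hj hji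
        have : c i ≠ c j := fun h' => hji (h.eq_of_class hX hi hj h').symm
        simp [this]
      · intro hn
        exact absurd hi hn
    rw [sum_congr rfl h1, sum_const, nsmul_eq_mul, mul_one, h.card_flat hX]
  have hcross := h.sum_pairs (fun i j => if c i = c j then 0 else M i * M j * ov (u i) (u j))
    (fun i j hij => by simp [hij])
  have htotal : ∑ v : Fin k, hs (ns u M (univ.filter (fun i => c i = v)) -
      (((d : ℝ) / 4 : ℝ) : ℂ) • 1) +
      ∑ X ∈ flats f c, hs (ns u M X - (((k : ℝ) / 2 : ℝ) : ℂ) • Q X) =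
        k * (3 - k) * (d : ℝ) ^ 2 / 4 := by
    have h1 : ∀ X ∈ flats f c, hs (ns u M X - (((k : ℝ) / 2 : ℝ) : ℂ) • Q X) =
        ∑ i ∈ X, ∑ j ∈ X, (if c i = c j then 0 else M i * M j * ov (u i) (u j)) +
          (k - (k : ℝ) ^ 2 / 2) := by
      intro X hX
      rw [hXs X hX, hsplit X, hdiag X hX]
      ring
    rw [sum_congr rfl h1, sum_add_distrib, hcross, sum_congr rfl (fun v _ => hv v),
      sum_sub_distrib]
    have h2 := sum_same_class c (fun i j => M i * M j * ov (u i) (u j))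
    rw [← h2]
    have h3 := hsplit univ
    rw [htot] at h3
    have h4 := h.card_flats
    have h5 : ((flats f c).card : ℝ) = (d : ℝ) ^ 2 := by
      have h6 : (k : ℝ) * (k - 1) ≠ 0 := by
        have : (0 : ℝ) < (k : ℝ) * (k - 1) := by nlinarith
        exact this.ne'
      apply mul_right_cancel₀ h6
      rw [h4]
      ring
    simp only [sum_const, card_univ, Fintype.card_fin, nsmul_eq_mul]
    rw [h5]
    linarith
  have hnn1 : 0 ≤ ∑ v : Fin k, hs (ns u M (univ.filter (fun i => c i = v)) -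
      (((d : ℝ) / 4 : ℝ) : ℂ) • 1) := sum_nonneg (fun _ _ => hs_nonneg _)
  have hnn2 : 0 ≤ ∑ X ∈ flats f c, hs (ns u M X - (((k : ℝ) / 2 : ℝ) : ℂ) • Q X) :=
    sum_nonneg (fun _ _ => hs_nonneg _)
  have hk : k = 3 := by
    have h1 : (k : ℝ) ≤ 3 := by
      by_contra hcon
      push Not at hcon
      have h2 : (k : ℝ) * (3 - k) * (d : ℝ) ^ 2 / 4 < 0 := by
        have h3 : (0 : ℝ) < (k : ℝ) * (k - 3) * (d : ℝ) ^ 2 := by
          have : (0 : ℝ) < k - 3 := by linarith
          positivity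
        nlinarith
      linarith
    have h2 : k ≤ 3 := by exact_mod_cast h1
    exact le_antisymm h2 h.three
  have hkr : (k : ℝ) = 3 := by exact_mod_cast hk
  have hz1 : ∑ v : Fin k, hs (ns u M (univ.filter (fun i => c i = v)) -
      (((d : ℝ) / 4 : ℝ) : ℂ) • 1) = 0 := by
    rw [hkr] at htotal
    rw [hkr] at hnn2
    linarith
  have hz2 : ∑ X ∈ flats f c, hs (ns u M X - (((k : ℝ) / 2 : ℝ) : ℂ) • Q X) = 0 := by
    have h1 : (k : ℝ) * (3 - k) * (d : ℝ) ^ 2 / 4 = 0 := by rw [hkr]; ring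
    linarith
  refine ⟨B, s, u, hB, hs0, hudef, hu', hk, fun v => ?_, fun X hX i hi => ?_⟩
  · have h1 := (sum_eq_zero_iff_of_nonneg (fun v _ => hs_nonneg _)).mp hz1 v (mem_univ v)
    exact sub_eq_zero.mp (eq_zero_of_hs h1)
  · have h1 := (sum_eq_zero_iff_of_nonneg (fun X _ => hs_nonneg _)).mp hz2 X hX
    have h2 := sub_eq_zero.mp (eq_zero_of_hs h1)
    have h3 := quad_ns u M X (u i)
    rw [h2, smul_mulVec, hQ4 X hX i hi, dotProduct_smul, hu' i] at h3
    simp only [hM, one_mul, smul_eq_mul, mul_one] at h3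
    have h4 : ((k : ℝ) / 2) = ∑ j ∈ X, ov (u j) (u i) := by exact_mod_cast h3
    rw [← h4, hkr]

end Pool.Agent.H284_net4
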