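import Mathlib
import Pool.Agent.H284_net4.Iso
import Pool.Agent.H284_net4.Met

/-!
# From a net of vectors to a metric net
-/

set_option autoImplicit false

open Matrix Finset
open Pool.Agent.H284_beta
open scoped InnerProductSpace

namespace Pool.Agent.H284_net4

variable {ι : Type*} [Fintype ι] [DecidableEq ι] {k : ℕ}

/-- There are exactly three classes. -/
theorem VNet.k_eq {f : ι → (Fin 4 → ℂ)} {c : ι → Fin k} {d : ℕ} (h : VNet f c d) : k = 3 := by
  obtain ⟨_, _, _, _, _, _, _, hk, _, _⟩ := h.core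
  exact hk

lemma inner_lp (x y : Fin 4 → ℂ) :
    ⟪(WithLp.toLp 2 x : EuclideanSpace ℂ (Fin 4)), WithLp.toLp 2 y⟫_ℂ = star x ⬝ᵥ y := by
  rw [EuclideanSpace.inner_eq_star_dotProduct, dotProduct_comm]

/-- The linear equivalence given by an invertible matrix. -/
noncomputable def lin (B : Matrix (Fin 4) (Fin 4) ℂ) (hB : IsUnit B.det) :
    (Fin 4 → ℂ) ≃ₗ[ℂ] EuclideanSpace ℂ (Fin 4) :=
  (Matrix.toLinearEquiv (Pi.basisFun ℂ (Fin 4)) B hB).trans
    (WithLp.linearEquiv 2 ℂ (Fin 4 → ℂ)).symm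

lemma lin_apply (B : Matrix (Fin 4) (Fin 4) ℂ) (hB : IsUnit B.det) (x : Fin 4 → ℂ) :
    lin B hB x = WithLp.toLp 2 (B *ᵥ x) := by
  rw [lin, LinearEquiv.trans_apply]
  rw [Matrix.toLinearEquiv_apply]
  simp [Matrix.toLin_eq_toLin', Matrix.toLin'_apply]

/-- A net of vectors in isotropic position is a metric net. -/
theorem VNet.exists_metNet {f : ι → (Fin 4 → ℂ)} {c : ι → Fin 3} {d : ℕ} (h : VNet f c d) :
    ∃ (T : (Fin 4 → ℂ) ≃ₗ[ℂ] EuclideanSpace ℂ (Fin 4)) (s : ι → ℝ), (∀ i, 0 < s i) ∧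
      MetNet (fun i => (s i : ℂ) • T (f i)) c d := by
  obtain ⟨B, s, u, hB, hs, hu, hu1, _, hclass, hflat⟩ := h.core
  have hU : ∀ i, (s i : ℂ) • lin B hB (f i) = WithLp.toLp 2 (u i) := by
    intro i
    rw [lin_apply, hu, WithLp.toLp_smul]
  refine ⟨lin B hB, s, hs, ?_⟩
  have hfun : (fun i => (s i : ℂ) • lin B hB (f i)) =
      (fun i => (WithLp.toLp 2 (u i) : EuclideanSpace ℂ (Fin 4))) := funext hU
  have hsC : ∀ i, (s i : ℂ) ≠ 0 := fun i => by exact_mod_cast (hs i).ne'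
  have hov : ∀ i j, ‖⟪(WithLp.toLp 2 (u i) : EuclideanSpace ℂ (Fin 4)),
      WithLp.toLp 2 (u j)⟫_ℂ‖ ^ 2 = ov (u i) (u j) := by
    intro i j
    rw [inner_lp, ov]
  refine ⟨h.four_le, h.card, ?_, ?_, ?_, ?_, ?_⟩
  · intro i
    rw [hU]
    have h1 : ⟪(WithLp.toLp 2 (u i) : EuclideanSpace ℂ (Fin 4)), WithLp.toLp 2 (u i)⟫_ℂ = 1 := by
      rw [inner_lp, hu1]
    rw [norm_eq_sqrt_re_inner (𝕜 := ℂ), h1]
    simp
  · intro i j hij
    have h1 := (h.indep i j hij)
    rw [LinearIndependent.pair_iff] at h1 ⊢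
    intro a b hab
    have h2 : lin B hB ((a * (s i : ℂ)) • f i + (b * (s j : ℂ)) • f j) = 0 := by
      rw [map_add, map_smul, map_smul, mul_smul, mul_smul]
      exact hab
    have h3 := (LinearEquiv.map_eq_zero_iff _).mp h2
    obtain ⟨h4, h5⟩ := h1 _ _ h3
    exact ⟨(mul_eq_zero.mp h4).resolve_right (hsC i), (mul_eq_zero.mp h5).resolve_right (hsC j)⟩
  · intro i j hij
    rw [hU, hU, hov]
    have hX := h.line_mem_flats hij
    obtain ⟨v, hv⟩ : ∃ v : Fin 3, v ≠ c i ∧ v ≠ c j := h.exists_other (c i) (c j)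
    obtain ⟨l, ⟨hl, hlv⟩, _⟩ := h.net i j hij v
    have hne := ne_of_class hij
    have hli : l ≠ i := by
      intro h'
      rw [h'] at hlv
      exact hv.1 hlv.symm
    have hlj : l ≠ j := by
      intro h'
      rw [h'] at hlv
      exact hv.2 hlv.symm
    have hiX : i ∈ vecLine f i j := h.linSp.left_mem i j hne
    have hjX : j ∈ vecLine f i j := h.linSp.right_mem i j hne
    have hsub : ({i, j, l} : Finset ι) ⊆ vecLine f i j := by
      intro x hx
      rw [mem_insert, mem_insert, mem_singleton] at hx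
      rcases hx with rfl | rfl | rfl
      · exact hiX
      · exact hjX
      · exact hl
    have hcard : ({i, j, l} : Finset ι).card = 3 := by
      rw [card_eq_three]
      exact ⟨i, j, l, hne, hli.symm, hlj.symm, rfl⟩
    have hXeq : vecLine f i j = {i, j, l} :=
      (eq_of_subset_of_card_le hsub (by rw [hcard, h.card_flat hX])).symm
    have h1 := hflat _ hX i hiX
    have h2 := hflat _ hX j hjX
    have h3 := hflat _ hX l hl
    have hsum : ∀ F : ι → ℝ, ∑ x ∈ vecLine f i j, F x = F i + F j + F l := by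
      intro F
      rw [hXeq, sum_insert, sum_insert, sum_singleton]
      · ring
      · rw [mem_singleton]
        exact hlj.symm
      · rw [mem_insert, mem_singleton, not_or]
        exact ⟨hne, hli.symm⟩
    rw [hsum] at h1 h2 h3
    rw [ov_self (hu1 i)] at h1
    rw [ov_self (hu1 j)] at h2
    rw [ov_self (hu1 l)] at h3
    rw [ov_comm (u j) (u i)] at h1
    rw [ov_comm (u l) (u i)] at h1
    rw [ov_comm (u l) (u j)] at h2
    linarith
  · intro i j hij v
    obtain ⟨l, ⟨hl, hlv⟩, _⟩ := h.net i j hij v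
    refine ⟨l, hlv, ?_⟩
    have h1 := mem_vecLine.mp hl
    rw [Submodule.mem_span_pair] at h1 ⊢
    obtain ⟨a, b, hab⟩ := h1
    refine ⟨(s l : ℂ) * a * (s i : ℂ)⁻¹, (s l : ℂ) * b * (s j : ℂ)⁻¹, ?_⟩
    have g1 : (s l : ℂ) * a * (s i : ℂ)⁻¹ * (s i : ℂ) = (s l : ℂ) * a := by
      rw [mul_assoc, inv_mul_cancel₀ (hsC i), mul_one]
    have g2 : (s l : ℂ) * b * (s j : ℂ)⁻¹ * (s j : ℂ) = (s l : ℂ) * b := by
      rw [mul_assoc, inv_mul_cancel₀ (hsC j), mul_one]
    rw [← hab, map_add, map_smul, map_smul, smul_smul, smul_smul, g1, g2]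
    module
  · intro v x
    have h1 := congrArg (fun M => M *ᵥ (WithLp.ofLp x)) (hclass v)
    simp only [ns, sum_mulVec, smul_mulVec, one_mulVec, pr_mulVec, Complex.ofReal_one,
      one_smul] at h1
    have h2 := congrArg (WithLp.toLp 2) h1
    have h3 : ∀ i, ⟪(s i : ℂ) • lin B hB (f i), x⟫_ℂ • ((s i : ℂ) • lin B hB (f i)) =
        WithLp.toLp 2 ((star (u i) ⬝ᵥ WithLp.ofLp x) • u i) := by
      intro i
      rw [hU, WithLp.toLp_smul]
      congr 1
      exact inner_lp (u i) (WithLp.ofLp x)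
    rw [sum_congr rfl (fun i _ => h3 i), ← WithLp.toLp_sum, h2, WithLp.toLp_smul]
    push_cast
    rfl

end Pool.Agent.H284_net4
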