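import Mathlib
import Pool.Agent.H284_net4.ToMet
import Pool.Agent.H284_net4.Std

/-!
# Classification of the nets of vectors in `ℂ ^ 4`
-/

set_option autoImplicit false

open Finset

namespace Pool.Agent.H284_net4

variable {ι : Type*} [Fintype ι] [DecidableEq ι]

/-- Every net of vectors in `ℂ ^ 4` (three classes, not a cone) is the net of vectors of the
arrangement `Q_n`, up to a change of basis, rescaling of the vectors and the names of the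
classes. -/
theorem VNet.classify {f : ι → (Fin 4 → ℂ)} {c : ι → Fin 3} {d : ℕ} (h : VNet f c d) :
    ∃ n : ℕ, 2 ≤ n ∧ ∃ b : Fin 4 → (Fin 4 → ℂ), LinearIndependent ℂ b ∧
      ∃ σ : Equiv.Perm (Fin 3),
      (∀ l, ∃ p ∈ pairs (σ (c l)), ∃ ζ t : ℂ, ζ ^ n = 1 ∧ t ≠ 0 ∧
        f l = t • (b p.1 - ζ • b p.2)) ∧
      (∀ x, ∀ p ∈ pairs (σ x), ∀ ζ : ℂ, ζ ^ n = 1 → ∃ l, c l = x ∧ ∃ t : ℂ, t ≠ 0 ∧
        f l = t • (b p.1 - ζ • b p.2)) := by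
  obtain ⟨T, s, hs, hm⟩ := h.exists_metNet
  have hE : Module.finrank ℂ (EuclideanSpace ℂ (Fin 4)) = 4 := by simp
  obtain ⟨v, e, ht⟩ := hm.exists_typed hE
  obtain ⟨n, hn, b, hb, σ, h1, h2⟩ := hm.exists_std hE ht
  have hsC : ∀ i, (s i : ℂ) ≠ 0 := fun i => by exact_mod_cast (hs i).ne'
  have conv : ∀ l (p : Fin 4 × Fin 4) (ζ : ℂ),
      (∃ t : ℂ, t ≠ 0 ∧ (s l : ℂ) • T (f l) = t • (b p.1 - ζ • b p.2)) →
      ∃ t : ℂ, t ≠ 0 ∧ f l = t • (T.symm (b p.1) - ζ • T.symm (b p.2)) := by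
    rintro l p ζ ⟨t, ht0, hu⟩
    refine ⟨(s l : ℂ)⁻¹ * t, mul_ne_zero (inv_ne_zero (hsC l)) ht0, ?_⟩
    have h3 : f l = (s l : ℂ)⁻¹ • T.symm ((s l : ℂ) • T (f l)) := by
      rw [map_smul, LinearEquiv.symm_apply_apply, smul_smul, inv_mul_cancel₀ (hsC l), one_smul]
    rw [h3, hu, map_smul, map_sub, map_smul, smul_smul]
  refine ⟨n, hn, fun a => T.symm (b a), ?_, σ, ?_, ?_⟩
  · exact hb.map' T.symm.toLinearMap (LinearMap.ker_eq_bot.mpr T.symm.injective)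
  · intro l
    obtain ⟨p, hp, ζ, t, hζ, ht0, hu⟩ := h1 l
    obtain ⟨t', ht', hu'⟩ := conv l p ζ ⟨t, ht0, hu⟩
    exact ⟨p, hp, ζ, t', hζ, ht', hu'⟩
  · intro x p hp ζ hζ
    obtain ⟨l, hl, hu⟩ := h2 x p hp ζ hζ
    exact ⟨l, hl, conv l p ζ hu⟩

end Pool.Agent.H284_net4
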